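import Mathlib

/-! Definitions for the project VZ: random frames below the generic threshold. -/

set_option autoImplicit false

namespace Pool.Agent.P.MP_32bf8a_an.VZ

open MeasureTheory Set
open scoped ENNReal Real ComplexConjugate InnerProductSpace

noncomputable section

abbrev E (n : ℕ) := EuclideanSpace ℂ (Fin n)

/-- the standard complex Gaussian law -/
def cg : Measure ℂ := volume.withDensity fun z => ENNReal.ofReal (Real.exp (-‖z‖ ^ 2) / π)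

/-- independent coordinates -/
def gm (n : ℕ) : Measure (E n) := (Measure.pi fun _ : Fin n => cg).map (WithLp.toLp 2)

/-- independent vectors -/
def gN (N n : ℕ) : Measure (Fin N → E n) := Measure.pi fun _ : Fin N => gm n

/-- sparse phase retrieval -/
def SPR {n N : ℕ} (k : ℕ) (f : Fin N → E n) : Prop :=
  ∀ x y : E n, (Finset.univ.filter fun i => x i ≠ 0).card ≤ k →
    (Finset.univ.filter fun i => y i ≠ 0).card ≤ k →
    (∀ j, ‖inner ℂ (f j) x‖ = ‖inner ℂ (f j) y‖) → ∃ c : ℂ, ‖c‖ = 1 ∧ x = c • y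

/-- uniform law of an angle -/
def um : Measure ℝ := (ENNReal.ofReal (2 * π))⁻¹ • volume.restrict (Ioc 0 (2 * π))

def ex (θ : ℝ) : ℂ := Complex.exp (θ * Complex.I)

def XX (a b c d : ℂ) : ℝ := ‖a‖ ^ 2 + ‖b‖ ^ 2 + ‖c‖ ^ 2 + ‖d‖ ^ 2

def Dl (r : ℝ) (a b c d : ℂ) : ℝ := 1 - r * XX a b c d + r ^ 2 * ‖a * d - b * c‖ ^ 2

/-- the matrix with rows `(a, b)`, `(c, d)` is a contraction -/
def Ct (a b c d : ℂ) : Prop :=
  ∀ u v : ℂ, ‖a * u + b * v‖ ^ 2 + ‖c * u + d * v‖ ^ 2 ≤ ‖u‖ ^ 2 + ‖v‖ ^ 2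

def Psi (a b c d : ℂ) : ℝ :=
  ((1 - ‖a‖ ^ 2 - ‖b‖ ^ 2) * (1 - ‖a‖ ^ 2 - ‖c‖ ^ 2) +
    ‖d * ((1 - ‖a‖ ^ 2 : ℝ) : ℂ) + c * conj a * b‖ ^ 2) / (1 - ‖a‖ ^ 2) ^ 3

def tt (a b c d u v : ℂ) : ℂ := (a + v * b + conj u * c + conj u * v * d) / 2

def Ps (a b c d u v : ℂ) : ℝ :=
  Psi (tt a b c d u v) (tt a b c d u (-v)) (tt a b c d (-u) v) (tt a b c d (-u) (-v))

def rho (a b c d : ℂ) : ℝ := ∫ θ, ∫ φ, Ps a b c d (ex θ) (ex φ) ∂um ∂um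

def phi (b : ℝ) : ℝ := (3 + 2 * b + 3 * b ^ 2) / (4 * √b)

/-- one half of the bound for `rho` -/
def BB (y D : ℝ) (z : ℂ) : ℝ :=
  (∫ θ, phi (1 - y - (ex θ * z).re) ∂um) - ‖z‖ ^ 2 - D * (1 + y + 3 / 4 * y ^ 2)

variable {n N : ℕ}

def ON (x y : E n) : Prop := ‖x‖ = 1 ∧ ‖y‖ = 1 ∧ ⟪x, y⟫_ℂ = 0

def wv (x y : E n) (d : ℂ) : E n := ((√2 : ℝ) : ℂ)⁻¹ • (x + d • y)

def gk (κ : ℝ) (w v a : E n) : ℝ :=
  (1 + κ * ‖⟪a, v⟫_ℂ‖ ^ 2) * Real.exp (-(κ * ‖⟪a, w⟫_ℂ‖ ^ 2))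

def GG (κ : ℝ) (x y a : E n) : ℝ≥0∞ :=
  ∫⁻ θ, ENNReal.ofReal (gk κ (wv x y (ex θ)) (wv x y (-ex θ)) a) ∂um

def tl (c : ℝ) (w a : E n) : E n := a - ((c : ℂ) * ⟪w, a⟫_ℂ) • w

def HH (x h y g a : E n) : ℝ :=
  2 * (conj ⟪a, x⟫_ℂ * ⟪a, h⟫_ℂ).re - 2 * (conj ⟪a, y⟫_ℂ * ⟪a, g⟫_ℂ).re

def ff (x y a : E n) : ℝ := ‖⟪a, x⟫_ℂ‖ ^ 2 - ‖⟪a, y⟫_ℂ‖ ^ 2

def pp (x y h : E n) : E n := h - ⟪x, h⟫_ℂ • x - ⟪y, h⟫_ℂ • y

def Th (x y h g : E n) : ℝ :=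
  ((⟪x, h⟫_ℂ).re - (⟪y, g⟫_ℂ).re) ^ 2 + ‖⟪x, g⟫_ℂ - conj ⟪y, h⟫_ℂ‖ ^ 2 +
    ‖pp x y h‖ ^ 2 + ‖pp x y g‖ ^ 2

/-- three orthogonal vectors of norm at most one -/
def O3 (p q r : E n) : Prop :=
  ‖p‖ ≤ 1 ∧ ‖q‖ ≤ 1 ∧ ‖r‖ ≤ 1 ∧ ⟪p, q⟫_ℂ = 0 ∧ ⟪p, r⟫_ℂ = 0 ∧ ⟪q, r⟫_ℂ = 0

def Y3 (p q r a : E n) : ℝ := ‖⟪p, a⟫_ℂ‖ ^ 2 + ‖⟪q, a⟫_ℂ‖ ^ 2 + ‖⟪r, a⟫_ℂ‖ ^ 2

def Inv (U U' : Submodule ℂ (E n)) (R : ℝ) (j : Fin N) : Set ((Fin N → E n) × E n × E n) :=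
  {p | ∃ h ∈ U, ∃ g ∈ U', ‖h‖ ≤ R ∧ ‖g‖ ≤ R ∧
    ∀ i, HH p.2.1 h p.2.2 g (p.1 i) = if i = j then 1 else 0}

def Good (U U' : Submodule ℂ (E n)) (L δ R : ℝ) : Set ((Fin N → E n) × E n × E n) :=
  {p | ∀ j, ‖p.1 j‖ ≤ L ∧ |ff p.2.1 p.2.2 (p.1 j)| ≤ δ ∧ p ∈ Inv U U' R j}

/-- a collision -/
def Col (U U' : Submodule ℂ (E n)) (A : Fin N → E n) : Prop :=
  ∃ x ∈ U, ∃ y ∈ U', (∀ j, ‖⟪A j, x⟫_ℂ‖ = ‖⟪A j, y⟫_ℂ‖) ∧ ¬ ∃ c : ℂ, ‖c‖ = 1 ∧ x = c • y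

/-- enough directions on which the derivative is not degenerate -/
def Dir (U U' : Submodule ℂ (E n)) (N : ℕ) (σ : ℝ) (x y : E n) : Prop :=
  ∃ V : Submodule ℝ (E n × E n), N ≤ Module.finrank ℝ V ∧
    ∀ p ∈ V, p.1 ∈ U ∧ p.2 ∈ U' ∧ σ ^ 2 * (‖p.1‖ ^ 2 + ‖p.2‖ ^ 2) ≤ Th x y p.1 p.2

/-- the bound for one bad row -/
def bt (n : ℕ) (κ η τ σ t L δ : ℝ) : ℝ :=
  (η + n / (2 * η * L ^ 2)) + (η + n / (2 * η * δ * √(1 + κ))) +
    (3 * √τ + η + 2 * t / (η * τ * σ))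

/-! ### Basic facts -/

theorem integral_gauss {b : ℝ} (hb : 0 < b) : ∫ z : ℂ, Real.exp (-b * ‖z‖ ^ 2) = π / b := by
  rw [GaussianFourier.integral_rexp_neg_mul_sq_norm hb]; simp

instance : IsProbabilityMeasure cg := ⟨by
  have h := integral_gauss one_pos
  simp only [neg_mul, one_mul, div_one] at h
  have hi : Integrable fun z : ℂ => Real.exp (-‖z‖ ^ 2) :=
    Integrable.of_integral_ne_zero (h ▸ Real.pi_ne_zero)
  rw [cg, withDensity_apply _ MeasurableSet.univ, Measure.restrict_univ,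
    ← ofReal_integral_eq_lintegral_ofReal (hi.div_const _) (.of_forall fun z => by positivity),
    integral_div, h, div_self Real.pi_ne_zero, ENNReal.ofReal_one]⟩

theorem measurable_toLp : Measurable (WithLp.toLp 2 : (Fin n → ℂ) → E n) :=
  WithLp.measurable_toLp 2 _

instance : IsProbabilityMeasure (gm n) :=
  Measure.isProbabilityMeasure_map measurable_toLp.aemeasurable

instance : IsProbabilityMeasure (gN N n) := by unfold gN; infer_instance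

instance : IsProbabilityMeasure um := ⟨by
  have h : ENNReal.ofReal (2 * π) ≠ 0 := by simpa using Real.pi_pos
  simp only [um, Measure.smul_apply, Measure.restrict_apply MeasurableSet.univ, univ_inter,
    Real.volume_Ioc, sub_zero, smul_eq_mul]
  exact ENNReal.inv_mul_cancel h ENNReal.ofReal_ne_top⟩

theorem integral_um (F : ℝ → ℝ) : ∫ θ, F θ ∂um = (2 * π)⁻¹ * ∫ θ in (0 : ℝ)..2 * π, F θ := by
  rw [um, integral_smul_measure, intervalIntegral.integral_of_le Real.two_pi_pos.le,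
    ENNReal.toReal_inv, ENNReal.toReal_ofReal Real.two_pi_pos.le, smul_eq_mul]

theorem ae_um : ∀ᵐ θ ∂um, θ ∈ Icc 0 (2 * π) :=
  Measure.ae_smul_measure ((ae_restrict_mem measurableSet_Ioc).mono fun _ h => Ioc_subset_Icc_self h) _

theorem integrable_um {F : ℝ → ℝ} (h : Continuous F) : Integrable F um := by
  have := h.continuousOn.integrableOn_compact (μ := um) (isCompact_Icc (a := 0) (b := 2 * π))
  rwa [IntegrableOn, Measure.restrict_eq_self_of_ae_mem ae_um] at this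

theorem integrable_um2 {F : ℝ × ℝ → ℝ} (h : Continuous F) : Integrable F (um.prod um) := by
  have := h.continuousOn.integrableOn_compact (μ := um.prod um)
    ((isCompact_Icc (a := 0) (b := 2 * π)).prod (isCompact_Icc (a := 0) (b := 2 * π)))
  rwa [IntegrableOn, ← Measure.prod_restrict, Measure.restrict_eq_self_of_ae_mem ae_um] at this

@[simp] theorem norm_ex (θ : ℝ) : ‖ex θ‖ = 1 := Complex.norm_exp_ofReal_mul_I θ

@[fun_prop] theorem continuous_ex : Continuous ex := by unfold ex; fun_prop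

theorem conj_mul_unit {d : ℂ} (h : ‖d‖ = 1) : conj d * d = 1 := by
  rw [Complex.conj_mul', h]; simp

theorem hasDerivAt_ex (θ : ℝ) : HasDerivAt ex (ex θ * Complex.I) θ := by
  have := ((Complex.ofRealCLM.hasDerivAt (x := θ)).mul_const Complex.I).cexp
  simp only [Complex.ofRealCLM_apply, Complex.ofReal_one, one_mul] at this
  exact this

theorem gk_nonneg {κ : ℝ} (h : 0 ≤ κ) (w v a : E n) : 0 ≤ gk κ w v a := by
  unfold gk; positivity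

theorem continuous_gk (κ : ℝ) : Continuous fun p : (E n × E n × E n) × ℝ =>
    gk κ (wv p.1.2.1 p.1.2.2 (ex p.2)) (wv p.1.2.1 p.1.2.2 (-ex p.2)) p.1.1 := by
  unfold gk wv; fun_prop

theorem measurable_GG (κ : ℝ) : Measurable fun p : E n × E n × E n => GG κ p.2.1 p.2.2 p.1 :=
  Measurable.lintegral_prod_right' (continuous_gk κ).measurable.ennreal_ofReal

theorem continuous_gk' (κ : ℝ) (x y : E n) : Continuous fun p : E n × ℝ =>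
    gk κ (wv x y (ex p.2)) (wv x y (-ex p.2)) p.1 := by
  unfold gk wv; fun_prop

theorem measurable_GG' (κ : ℝ) (x y : E n) : Measurable (GG κ x y) :=
  Measurable.lintegral_prod_right' (continuous_gk' κ x y).measurable.ennreal_ofReal

theorem inner_wv (x y x' y' : E n) (u v : ℂ) :
    ⟪wv x y u, wv x' y' v⟫_ℂ = tt ⟪x, x'⟫_ℂ ⟪x, y'⟫_ℂ ⟪y, x'⟫_ℂ ⟪y, y'⟫_ℂ u v := by
  have h : ((√2 : ℝ) : ℂ)⁻¹ * ((√2 : ℝ) : ℂ)⁻¹ = 1 / 2 := by
    rw [← mul_inv, ← Complex.ofReal_mul, Real.mul_self_sqrt zero_le_two]; simp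
  simp only [wv, tt, inner_smul_left, inner_smul_right, inner_add_left, inner_add_right, map_inv₀,
    Complex.conj_ofReal]
  linear_combination (⟪x, x'⟫_ℂ + v * ⟪x, y'⟫_ℂ + conj u * ⟪y, x'⟫_ℂ + conj u * v * ⟪y, y'⟫_ℂ) * h

theorem ON.xx {x y : E n} (h : ON x y) : ⟪x, x⟫_ℂ = 1 := by
  rw [inner_self_eq_norm_sq_to_K, h.1]; simp

theorem ON.yy {x y : E n} (h : ON x y) : ⟪y, y⟫_ℂ = 1 := by
  rw [inner_self_eq_norm_sq_to_K, h.2.1]; simp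

theorem ON.yx {x y : E n} (h : ON x y) : ⟪y, x⟫_ℂ = 0 := by
  rw [← inner_conj_symm, h.2.2, map_zero]

theorem norm_of_inner {x : E n} (h : ⟪x, x⟫_ℂ = 1) : ‖x‖ = 1 := by
  have : ‖x‖ ^ 2 = 1 := by rw [← inner_self_eq_norm_sq (𝕜 := ℂ), h]; rfl
  exact (pow_eq_one_iff_of_nonneg (norm_nonneg _) two_ne_zero).1 this

theorem ON.wv {x y : E n} (h : ON x y) {d : ℂ} (hd : ‖d‖ = 1) : ON (wv x y d) (wv x y (-d)) := by
  have e := conj_mul_unit hd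
  refine ⟨norm_of_inner ?_, norm_of_inner ?_, ?_⟩ <;>
    simp only [inner_wv, tt, h.xx, h.yy, h.yx, h.2.2, map_neg] <;>
    first | linear_combination (1 / 2 : ℂ) * e | linear_combination (-1 / 2 : ℂ) * e

/-- Bessel's inequality -/
theorem ON.bessel {x y : E n} (h : ON x y) (a : E n) :
    ‖pp x y a‖ ^ 2 = ‖a‖ ^ 2 - ‖⟪x, a⟫_ℂ‖ ^ 2 - ‖⟪y, a⟫_ℂ‖ ^ 2 := by
  have e : ∀ z : E n, ((‖z‖ ^ 2 : ℝ) : ℂ) = ⟪z, z⟫_ℂ := fun z => by
    rw [inner_self_eq_norm_sq_to_K]; simp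
  have e' : ∀ z : ℂ, ((‖z‖ ^ 2 : ℝ) : ℂ) = conj z * z := fun z => by
    rw [Complex.conj_mul']; simp
  apply Complex.ofReal_injective
  rw [Complex.ofReal_sub, Complex.ofReal_sub, e, e, e', e']
  simp only [pp, inner_sub_left, inner_sub_right, inner_smul_left, inner_smul_right, h.xx, h.yy,
    h.yx, h.2.2, inner_conj_symm]
  ring

theorem ON.ct {x y x' y' : E n} (h : ON x y) (h' : ON x' y') :
    Ct ⟪x, x'⟫_ℂ ⟪x, y'⟫_ℂ ⟪y, x'⟫_ℂ ⟪y, y'⟫_ℂ := fun u v => by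
  have h1 := h.bessel (u • x' + v • y')
  have h2 := h'.bessel (u • x' + v • y')
  have h3 : pp x' y' (u • x' + v • y') = 0 := by
    simp only [pp, inner_add_right, inner_smul_right, h'.xx, h'.yy, h'.yx, h'.2.2, mul_one,
      mul_zero, add_zero, zero_add]
    abel
  simp only [h3, inner_add_right, inner_smul_right, h'.xx, h'.yy, h'.yx, h'.2.2, mul_one, mul_zero,
    add_zero, zero_add, norm_zero] at h1 h2
  rw [mul_comm _ u, mul_comm _ v, mul_comm _ u, mul_comm _ v]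
  nlinarith [sq_nonneg ‖pp x y (u • x' + v • y')‖]

theorem inner_tl (c : ℝ) (w a u : E n) : ⟪tl c w a, u⟫_ℂ = ⟪a, tl c w u⟫_ℂ := by
  simp only [tl, inner_sub_left, inner_sub_right, inner_smul_left, inner_smul_right, map_mul,
    Complex.conj_ofReal, inner_conj_symm]
  ring

theorem tl_of_orth (c : ℝ) {w a : E n} (h : ⟪w, a⟫_ℂ = 0) : tl c w a = a := by simp [tl, h]

@[fun_prop] theorem continuous_tl (c : ℝ) (w : E n) : Continuous (tl c w) := by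
  unfold tl; fun_prop

@[fun_prop] theorem continuous_HH (x h y g : E n) : Continuous (HH x h y g) := by
  unfold HH; fun_prop

@[fun_prop] theorem continuous_ff (x y : E n) : Continuous (ff x y) := by
  unfold ff; fun_prop

end

end Pool.Agent.P.MP_32bf8a_an.VZ
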