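import Pool.Agent.P.MP_32bf8a_an.VZ.Base

/-! Statements of the project VZ. -/

set_option autoImplicit false

namespace Pool.Agent.P.MP_32bf8a_an.VZ

open MeasureTheory Set
open scoped ENNReal Real ComplexConjugate InnerProductSpace

/-! ### Gaussian facts -/

-- deps:
def S_ANN : Prop := ∀ (c : ℂ) (l s t : ℝ), l ≠ 0 →
  cg {z | |l * ‖z + c‖ ^ 2 + s| < t} ≤ ENNReal.ofReal (2 * t / |l|)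

-- deps:
def S_CG : Prop :=
  (∀ κ : ℝ, 0 < 1 + κ →
    ∫⁻ z, ENNReal.ofReal (Real.exp (-(κ * ‖z‖ ^ 2))) ∂cg = ENNReal.ofReal (1 / (1 + κ))) ∧
  ∫⁻ z, ENNReal.ofReal (‖z‖ ^ 2) ∂cg = 1 ∧ ∫⁻ z, ENNReal.ofReal (‖z‖ ^ 4) ∂cg = 2

-- deps:
def S_DENS : Prop := ∀ n, ∃ μ : Measure (E n), μ.IsAddHaarMeasure ∧
  gm n = μ.withDensity fun a => ENNReal.ofReal (Real.exp (-‖a‖ ^ 2))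

-- deps: DENS
def S_LIN : Prop := ∀ (n : ℕ) (S : E n ≃ₗ[ℂ] E n) (φ : E n → ℝ), Measurable φ →
  (∀ a, ‖S.symm a‖ ^ 2 = ‖a‖ ^ 2 + φ a) → ∃ c : ℝ≥0∞, ∀ F : E n → ℝ≥0∞, Measurable F →
    ∫⁻ a, F a * ENNReal.ofReal (Real.exp (-φ a)) ∂gm n = c * ∫⁻ a, F (S a) ∂gm n

-- deps: LIN
def S_SPL : Prop := ∀ (n : ℕ) (e : E n), ‖e‖ = 1 → ∀ F : E n → ℝ≥0∞, Measurable F →
  ∫⁻ a, F a ∂gm n = ∫⁻ a, ∫⁻ z, F (a - ⟪e, a⟫_ℂ • e + z • e) ∂cg ∂gm n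

-- deps: SPL CG
def S_MOM : Prop := ∀ (n : ℕ) (u : E n),
  ∫⁻ a, ENNReal.ofReal (‖⟪a, u⟫_ℂ‖ ^ 2) ∂gm n = ENNReal.ofReal (‖u‖ ^ 2) ∧
  ∫⁻ a, ENNReal.ofReal (‖⟪a, u⟫_ℂ‖ ^ 4) ∂gm n = ENNReal.ofReal (2 * ‖u‖ ^ 4) ∧
  ∀ κ : ℝ, 0 < 1 + κ * ‖u‖ ^ 2 →
    ∫⁻ a, ENNReal.ofReal (Real.exp (-(κ * ‖⟪a, u⟫_ℂ‖ ^ 2))) ∂gm n =
      ENNReal.ofReal (1 / (1 + κ * ‖u‖ ^ 2))

-- deps: MOM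
def S_WICK : Prop := ∀ n : ℕ,
  (∀ s : ℝ, 0 < s → gm n {a | s < ‖a‖ ^ 2} ≤ ENNReal.ofReal (n / s)) ∧
  ∀ (u v : E n) (k l : ℝ), 0 ≤ k → 0 ≤ l →
    ∫⁻ a, ENNReal.ofReal ((1 + k * ‖⟪a, u⟫_ℂ‖ ^ 2) * (1 + l * ‖⟪a, v⟫_ℂ‖ ^ 2)) ∂gm n =
      ENNReal.ofReal ((1 + k * ‖u‖ ^ 2) * (1 + l * ‖v‖ ^ 2) + k * l * ‖⟪u, v⟫_ℂ‖ ^ 2)

-- deps: LIN MOM
def S_TILT : Prop := ∀ (n : ℕ) (w : E n) (κ : ℝ), 0 < 1 + κ * ‖w‖ ^ 2 → ∃ c : ℝ,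
  2 * c - c ^ 2 * ‖w‖ ^ 2 = κ / (1 + κ * ‖w‖ ^ 2) ∧ 0 < 1 - c * ‖w‖ ^ 2 ∧
  ∀ F : E n → ℝ≥0∞, Measurable F →
    ∫⁻ a, F a * ENNReal.ofReal (Real.exp (-(κ * ‖⟪a, w⟫_ℂ‖ ^ 2))) ∂gm n =
      ENNReal.ofReal (1 / (1 + κ * ‖w‖ ^ 2)) * ∫⁻ a, F (tl c w a) ∂gm n

-- deps: SPL ANN
def S_ANTI : Prop := ∀ (n : ℕ) (x h y g e : E n) (t : ℝ), ‖e‖ = 1 → HH x h y g e ≠ 0 →
  gm n {a | |HH x h y g a| < t} ≤ ENNReal.ofReal (2 * t / |HH x h y g e|)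

-- deps: TILT
def S_EXP : Prop := ∀ (n : ℕ) (p q r : E n) (c : ℝ), O3 p q r → 0 ≤ c → c < 1 →
  ∫⁻ a, ENNReal.ofReal (Real.exp (c * Y3 p q r a)) ∂gm n ≤ ENNReal.ofReal ((1 - c)⁻¹ ^ 3)

-- deps: DENS
def S_POL : Prop := ∀ (n : ℕ) (L : E n → ℝ), 1 ≤ n → Continuous L → (∀ a, a ≠ 0 → 0 < L a) →
  (∀ (r : ℝ) (a : E n), L (r • a) = r ^ 2 * L a) →
  ∫⁻ a, ENNReal.ofReal ((‖a‖ ^ 2 / L a) ^ n) ∂gm n ≤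
    ∫⁻ a, ENNReal.ofReal (Real.exp (‖a‖ ^ 2 - L a)) ∂gm n

-- deps: DENS POL EXP
def S_ANG : Prop := ∀ (n : ℕ) (p q r : E n) (c : ℝ), 1 ≤ n → O3 p q r → 0 ≤ c → c < 1 →
  (∀ a, Y3 p q r a ≤ ‖a‖ ^ 2) ∧
  ∫⁻ a, ENNReal.ofReal ((1 - c * (Y3 p q r a / ‖a‖ ^ 2))⁻¹ ^ n) ∂gm n ≤
    ENNReal.ofReal ((1 - c)⁻¹ ^ 3)

/-! ### Frames -/

-- deps:
def S_DL : Prop := ∀ (a b c d : ℂ) (r ε : ℝ), Ct a b c d → 0 ≤ r → r < 1 → 0 ≤ ε → ε < 1 →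
  (1 - r) ^ 2 ≤ Dl r a b c d ∧ Dl r a b c d ≤ Real.exp (-(r * XX a b c d)) ∧
  (1 - ε) ^ 2 * Dl r a b c d ≤ Dl r ((1 - ε) * a + ε) ((1 - ε) * b) ((1 - ε) * c) ((1 - ε) * d + ε) ∧
  XX ((1 - ε) * a + ε) ((1 - ε) * b) ((1 - ε) * c) ((1 - ε) * d + ε) ≤ XX a b c d + 2 * ε ∧
  XX ((1 - ε) * a + ε) ((1 - ε) * b) ((1 - ε) * c) ((1 - ε) * d + ε) ≤ 2

-- deps:
def S_DLV : Prop := ∀ (n : ℕ) (x y x' y' : E n) (c : ℝ), ON x y → ON x' y' → 0 ≤ c → c < 1 →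
  ∀ r : E n, O3 x' y' r → x = ⟪x', x⟫_ℂ • x' + ⟪y', x⟫_ℂ • y' + ⟪r, x⟫_ℂ • r →
    (1 - c * Y3 x' y' 0 x) * (1 - c * Y3 x' y' r y) ≤
      Dl c ⟪x, x'⟫_ℂ ⟪x, y'⟫_ℂ ⟪y, x'⟫_ℂ ⟪y, y'⟫_ℂ

-- deps: DENS ANG DLV
def S_FR : Prop := ∀ M : ℕ, 2 ≤ M → ∃ ν : Measure (E M × E M), IsProbabilityMeasure ν ∧
  (∀ᵐ p ∂ν, ON p.1 p.2) ∧ ∀ (x' y' : E M) (c : ℝ), ON x' y' → 0 ≤ c → c < 1 →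
    ∫⁻ p, ENNReal.ofReal ((Dl c ⟪p.1, x'⟫_ℂ ⟪p.1, y'⟫_ℂ ⟪p.2, x'⟫_ℂ ⟪p.2, y'⟫_ℂ)⁻¹ ^ M) ∂ν ≤
      ENNReal.ofReal ((1 - c)⁻¹ ^ 6)

/-! ### The kernel -/

-- deps: TILT WICK
def S_TWO : Prop := ∀ (n : ℕ) (w v w' v' : E n) (κ q : ℝ), ON w v → ON w' v' → 0 ≤ κ →
  q = κ / (1 + κ) → ∫⁻ a, ENNReal.ofReal (gk κ w v a) * ENNReal.ofReal (gk κ w' v' a) ∂gm n =
    ENNReal.ofReal (Psi (q * ⟪w, w'⟫_ℂ) (q * ⟪w, v'⟫_ℂ) (q * ⟪v, w'⟫_ℂ) (q * ⟪v, v'⟫_ℂ))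

-- deps: TILT WICK
def S_ROW : Prop := ∀ (n : ℕ) (w v : E n) (κ : ℝ), ON w v → 0 ≤ κ →
  ∫⁻ a, ENNReal.ofReal (gk κ w v a) ∂gm n = 1 ∧ ∃ c : ℝ, 0 ≤ c ∧ c < 1 ∧
    (1 - c) ^ 2 * (1 + κ) = 1 ∧ ∀ (B : Set (E n)) (η : ℝ), MeasurableSet B → 0 < η →
      ∫⁻ a in B, ENNReal.ofReal (gk κ w v a) ∂gm n ≤
        ENNReal.ofReal η + ENNReal.ofReal (1 / (2 * η)) * gm n (tl c w ⁻¹' B)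

-- deps: TWO ROW
def S_GT : Prop := ∀ (n : ℕ) (x y : E n) (κ : ℝ), ON x y → 0 ≤ κ →
  ∫⁻ a, GG κ x y a ∂gm n = 1 ∧ ∀ (x' y' : E n) (q : ℝ), ON x' y' → q = κ / (1 + κ) →
    0 ≤ rho (q * ⟪x, x'⟫_ℂ) (q * ⟪x, y'⟫_ℂ) (q * ⟪y, x'⟫_ℂ) (q * ⟪y, y'⟫_ℂ) ∧
    ∫⁻ a, GG κ x y a * GG κ x' y' a ∂gm n =
      ENNReal.ofReal (rho (q * ⟪x, x'⟫_ℂ) (q * ⟪x, y'⟫_ℂ) (q * ⟪y, x'⟫_ℂ) (q * ⟪y, y'⟫_ℂ))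

/-! ### Averages over the circle -/

-- deps:
def S_POI : Prop := ∀ z : ℂ,
  ∫ θ, (ex θ * z).re ∂um = 0 ∧ ∫ θ, (ex θ * z).re ^ 2 ∂um = ‖z‖ ^ 2 / 2 ∧
  ∀ p : ℝ, ‖z‖ < p → ∫ θ, (p - (ex θ * z).re)⁻¹ ∂um = (√(p ^ 2 - ‖z‖ ^ 2))⁻¹

-- deps: POI
def S_CUB : Prop := ∀ (z : ℂ) (b : ℝ), 0 < b → b ≤ 1 → ‖z‖ ≤ (1 - b) / 2 →
  ∫ θ, 2 * b ^ 2 / ((1 + b) / 2 - (ex θ * z).re) ^ 3 ∂um ≤ phi b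

-- deps:
def S_PT : Prop := ∀ a b c d u v : ℂ, ‖u‖ = 1 → ‖v‖ = 1 → 0 < Dl 1 a b c d → XX a b c d < 2 →
  ∀ (y A B τ : ℝ) (z z' : ℂ), y = XX a b c d / 2 → z = a * conj c + b * conj d →
    z' = conj a * b + conj c * d → A = 1 - y - (u * z).re → B = 1 - y - (v * z').re →
    τ = 1 - ‖tt a b c d u v‖ ^ 2 →
    ‖z‖ ≤ y ∧ ‖z'‖ ≤ y ∧ Dl 1 a b c d ≤ (1 - y) ^ 2 - ‖z‖ ^ 2 ∧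
    Dl 1 a b c d ≤ (1 - y) ^ 2 - ‖z'‖ ^ 2 ∧ 0 < A ∧ A ≤ 1 ∧ 0 < B ∧ B ≤ 1 ∧ 0 < τ ∧
    τ = (1 + B) / 2 - (u * ((a + v * b) * conj (c + v * d) / 2)).re ∧
    ‖(a + v * b) * conj (c + v * d) / 2‖ ≤ (1 - B) / 2 ∧
    τ = (1 + A) / 2 - (v * ((b + conj u * d) * conj (a + conj u * c) / 2)).re ∧
    ‖(b + conj u * d) * conj (a + conj u * c) / 2‖ ≤ (1 - A) / 2 ∧
    Ps a b c d u v ≤ A ^ 2 / τ ^ 3 + B ^ 2 / τ ^ 3 - (A - B) ^ 2 -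
      Dl 1 a b c d * (1 + (2 + 3 * y) * (1 - τ) - 3 / 4 * y ^ 2)

-- deps: POI CUB PT
def S_RH0 : Prop := ∀ a b c d : ℂ, 0 < Dl 1 a b c d → XX a b c d < 2 →
  rho a b c d ≤ (BB (XX a b c d / 2) (Dl 1 a b c d) (a * conj c + b * conj d) +
    BB (XX a b c d / 2) (Dl 1 a b c d) (conj a * b + conj c * d)) / 2

-- deps: POI
def S_PHA : Prop := ∀ (y D : ℝ) (z : ℂ), ‖z‖ ≤ y → y ≤ 1 / 3 → 1 - 2 * y ≤ D →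
  D ≤ (1 - y) ^ 2 → BB y D z ≤ 1 + 3 * y ^ 2 ∧
    (1 / 32 ≤ y → ∀ s : ℝ, 0 < s → s ^ 4 = D → s * BB y D z ≤ 99 / 100)

-- deps: POI
def S_PHB : Prop := ∀ (y s : ℝ) (z : ℂ), ‖z‖ ≤ y → 1 / 3 ≤ y → y < 1 → 0 < s →
  s ^ 4 ≤ (1 - y) ^ 2 - ‖z‖ ^ 2 → s * BB y (s ^ 4) z ≤ 99 / 100

-- deps: PT RH0 PHA PHB
def S_RHO : Prop := ∀ a b c d : ℂ, 0 < Dl 1 a b c d → XX a b c d < 2 →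
  (XX a b c d ≤ 1 / 16 → rho a b c d ≤ 1 + XX a b c d ^ 2) ∧
  (1 / 16 ≤ XX a b c d → 0 ≤ rho a b c d → rho a b c d ^ 4 * Dl 1 a b c d ≤ 97 / 100)

-- deps: DL RHO
def S_POW : Prop := ∀ (M N : ℕ) (a b c d : ℂ) (κ q ε ρ : ℝ), 5 ≤ M → N ≤ 4 * M + 1 → Ct a b c d →
  0 ≤ κ → q = κ / (1 + κ) → 0 ≤ ε → ε ≤ 1 / (M : ℝ) ^ 2 →
  ρ = rho (q * ((1 - ε) * a + ε)) (q * ((1 - ε) * b)) (q * ((1 - ε) * c)) (q * ((1 - ε) * d + ε)) →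
  0 ≤ ρ → ρ ^ N ≤ 1 + 2000 / M * (Dl (1 / 2) a b c d)⁻¹ ^ M +
    2 * (97 / 100) ^ M * (1 + κ) ^ 2 * (Dl (q ^ 2) a b c d)⁻¹ ^ M

-- deps: POI
def S_SUB : Prop := ∀ (c τ : ℝ) (z : ℂ), 0 < τ →
  um {θ | |c + (ex θ * z).re| < τ * max |c| ‖z‖} ≤ ENNReal.ofReal (3 * √τ)

/-! ### From near collisions to collisions -/

-- deps:
def S_DIR : Prop := ∀ (n : ℕ) (x y h g : E n) (d : ℂ), ON x y → ‖d‖ = 1 →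
  ‖pp x y h + d • pp x y g‖ ^ 2 =
    ‖pp x y h‖ ^ 2 + ‖pp x y g‖ ^ 2 + (d * (2 * ⟪pp x y h, pp x y g⟫_ℂ)).re ∧
  ∃ e : E n, ‖e‖ = 1 ∧ ⟪wv x y d, e⟫_ℂ = 0 ∧
    |(⟪x, h⟫_ℂ).re - (⟪y, g⟫_ℂ).re + (d * (⟪x, g⟫_ℂ - conj ⟪y, h⟫_ℂ)).re| ≤ |HH x h y g e| ∧
    ‖pp x y h + d • pp x y g‖ ^ 2 ≤ 2 * HH x h y g e ^ 2

-- deps: DIR SUB ROW ANTI
def S_AC : Prop := ∀ (n : ℕ) (x y h g : E n) (κ η τ σ t : ℝ), ON x y → 0 ≤ κ → 0 < η → 0 < τ →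
  τ ≤ 1 → 0 < σ → 0 < t → σ ^ 2 ≤ Th x y h g →
  ∫⁻ a in {a | |HH x h y g a| < t}, GG κ x y a ∂gm n ≤
    ENNReal.ofReal (3 * √τ + η + 2 * t / (η * τ * σ))

-- deps: ROW WICK
def S_SM : Prop := ∀ (n : ℕ) (x y : E n) (κ η L δ : ℝ), ON x y → 0 ≤ κ → 0 < η → 0 < L → 0 < δ →
  ∫⁻ a in {a | L < ‖a‖}, GG κ x y a ∂gm n ≤ ENNReal.ofReal (η + n / (2 * η * L ^ 2)) ∧
  ∫⁻ a in {a | δ < |ff x y a|}, GG κ x y a ∂gm n ≤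
    ENNReal.ofReal (η + n / (2 * η * δ * √(1 + κ)))

-- deps:
def S_FUB : Prop := ∀ (n N : ℕ) (f : E n → ℝ≥0∞), Measurable f →
  ∫⁻ A, ∏ j, f (A j) ∂gN N n = (∫⁻ a, f a ∂gm n) ^ N ∧
  ∀ (j : Fin N) (B : Set (Fin N → E n)) (β : ℝ≥0∞), ∫⁻ a, f a ∂gm n = 1 → MeasurableSet B →
    (∀ A, ∫⁻ a in {a | Function.update A j a ∈ B}, f a ∂gm n ≤ β) →
    ∫⁻ A in B, ∏ i, f (A i) ∂gN N n ≤ β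

-- deps:
def S_CL : Prop := ∀ (n N : ℕ) (U U' : Submodule ℂ (E n)) (L δ R : ℝ),
  (∀ j : Fin N, IsClosed (Inv U U' R j)) ∧ IsClosed (Good (N := N) U U' L δ R)

-- deps:
def S_KER : Prop := ∀ (n N : ℕ) (U U' : Submodule ℂ (E n)) (σ t : ℝ) (x y : E n)
  (A : Fin N → E n) (j : Fin N), Dir U U' N σ x y → 0 < t → ∃ h g : E n, σ ^ 2 ≤ Th x y h g ∧
    ∀ a, t ≤ |HH x h y g a| → (Function.update A j a, x, y) ∈ Inv U U' t⁻¹ j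

-- deps: GT AC SM FUB CL KER
def S_BAD : Prop := ∀ (n N : ℕ) (U U' : Submodule ℂ (E n)) (x y : E n) (κ η τ σ t L δ : ℝ),
  ON x y → Dir U U' N σ x y → 0 ≤ κ → 0 < η → 0 < τ → τ ≤ 1 → 0 < σ → 0 < t → 0 < L → 0 < δ →
  ∫⁻ A in {A | (A, x, y) ∉ Good U U' L δ t⁻¹}, ∏ j, GG κ x y (A j) ∂gN N n ≤
    ENNReal.ofReal (N * bt n κ η τ σ t L δ)

-- deps:
def S_NEWT : Prop := ∀ (n N : ℕ) (U U' : Submodule ℂ (E n)) (x y : E n) (A : Fin N → E n)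
  (L δ R : ℝ), ON x y → x ∈ U → y ∈ U' → 0 < δ → 0 ≤ R → 16 * L ^ 2 * N ^ 2 * R ^ 2 * δ ≤ 1 →
  4 * N * R * δ < 1 → (A, x, y) ∈ Good U U' L δ R → Col U U' A

-- deps:
def S_PZ : Prop := ∀ (n N : ℕ) (ν : Measure (E n × E n)) (K : (Fin N → E n) × E n × E n → ℝ≥0∞)
  (B : Set ((Fin N → E n) × E n × E n)) (S : Set (Fin N → E n)) (D β : ℝ),
  IsProbabilityMeasure ν → Measurable K → MeasurableSet B → 0 ≤ D → 0 ≤ β →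
  (∀ᵐ p ∂ν, ∫⁻ A, K (A, p) ∂gN N n = 1) →
  ∫⁻ p, ∫⁻ p', ∫⁻ A, K (A, p) * K (A, p') ∂gN N n ∂ν ∂ν ≤ ENNReal.ofReal (1 + D) →
  (∀ᵐ p ∂ν, ∫⁻ A in {A | (A, p) ∈ B}, K (A, p) ∂gN N n ≤ ENNReal.ofReal β) →
  (∀ A ∈ S, ∀ᵐ p ∂ν, (A, p) ∈ B) → gN N n S ≤ ENNReal.ofReal (4 * D + 2 * β)

/-- the hypotheses on a lift of frames -/
structure Lift (M n N : ℕ) (ε : ℝ) (U U' : Submodule ℂ (E n)) (P Q : E M → E n) : Prop where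
  mP : Measurable P
  mQ : Measurable Q
  PP : ∀ x x', ⟪P x, P x'⟫_ℂ = (1 - ε) * ⟪x, x'⟫_ℂ + ε
  PQ : ∀ x x', ⟪P x, Q x'⟫_ℂ = (1 - ε) * ⟪x, x'⟫_ℂ
  QP : ∀ x x', ⟪Q x, P x'⟫_ℂ = (1 - ε) * ⟪x, x'⟫_ℂ
  QQ : ∀ x x', ⟪Q x, Q x'⟫_ℂ = (1 - ε) * ⟪x, x'⟫_ℂ + ε
  hP : ∀ x, P x ∈ U
  hQ : ∀ x, Q x ∈ U'
  dir : ∀ x y, ON x y → Dir U U' N (1 / (2 * M)) (P x) (Q y)

-- deps: FR POW GT FUB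
def S_SEC : Prop := ∀ (M n N : ℕ) (ε κ : ℝ) (U U' : Submodule ℂ (E n)) (P Q : E M → E n),
  5 ≤ M → N ≤ 4 * M + 1 → 0 ≤ ε → ε ≤ 1 / (M : ℝ) ^ 2 → 0 ≤ κ → Lift M n N ε U U' P Q →
  ∃ ν : Measure (E n × E n), IsProbabilityMeasure ν ∧
    (∀ S : Set (E n × E n), MeasurableSet S → (∀ x y, ON x y → (P x, Q y) ∈ S) → ∀ᵐ p ∂ν, p ∈ S) ∧
    ∫⁻ p, ∫⁻ p', ∫⁻ A, (∏ j, GG κ p.1 p.2 (A j)) * ∏ j, GG κ p'.1 p'.2 (A j) ∂gN N n ∂ν ∂ν ≤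
      ENNReal.ofReal (1 + (128000 / M + 2 * (97 / 100) ^ M * (1 + κ) ^ 8))

-- deps:
def S_NUM : Prop := ∃ C : ℝ, ∀ M n N : ℕ, 5 ≤ M → n ≤ 3 * M → N ≤ 4 * M + 1 →
  ∃ κ η τ t L δ : ℝ, 0 ≤ κ ∧ 0 < η ∧ 0 < τ ∧ τ ≤ 1 ∧ 0 < t ∧ 0 < L ∧ 0 < δ ∧
    16 * L ^ 2 * N ^ 2 * t⁻¹ ^ 2 * δ ≤ 1 ∧ 4 * N * t⁻¹ * δ < 1 ∧
    0 ≤ bt n κ η τ (1 / (2 * M)) t L δ ∧
    4 * (128000 / M + 2 * (97 / 100) ^ M * (1 + κ) ^ 8) +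
      2 * (N * bt n κ η τ (1 / (2 * M)) t L δ) ≤ C / M

-- deps: SEC NUM GT FUB CL BAD NEWT PZ
def S_MAIN : Prop := ∃ C : ℝ, ∀ (M n N : ℕ) (ε : ℝ) (U U' : Submodule ℂ (E n)) (P Q : E M → E n),
  5 ≤ M → n ≤ 3 * M → N ≤ 4 * M + 1 → 0 ≤ ε → ε ≤ 1 / (M : ℝ) ^ 2 → Lift M n N ε U U' P Q →
  gN N n {A | ¬ Col U U' A} ≤ ENNReal.ofReal (C / M)

-- deps:
def S_C1 : Prop := ∀ M N : ℕ, 5 ≤ M → N + 5 ≤ 4 * M →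
  Lift M M N 0 ⊤ ⊤ id id ∧ ∀ A : Fin N → E M, SPR M A → ¬ Col ⊤ ⊤ A

-- deps:
def S_C2 : Prop := ∀ M N : ℕ, 5 ≤ M → N ≤ 4 * M + 1 →
  ∃ (U U' : Submodule ℂ (E (M + 2))) (P Q : E M → E (M + 2)),
    Lift M (M + 2) N (1 / (M : ℝ) ^ 2) U U' P Q ∧
    ∀ A : Fin N → E (M + 2), SPR (M + 1) A → ¬ Col U U' A

-- deps:
def S_MARG : Prop := ∀ k m n N : ℕ, m ≤ n → gN N n {A | SPR k A} ≤ gN N m {A | SPR k A}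

-- deps: MAIN C1 C2 MARG
def S_FIN : Prop := ∃ C : ℝ, ∀ k n N : ℕ, 2 ≤ k → k ≤ n →
  N < (if n = k then 4 * k - 4 else 4 * k - 2) → gN N n {A | SPR k A} ≤ ENNReal.ofReal (C / k)

end Pool.Agent.P.MP_32bf8a_an.VZ
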