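import Pool.Agent.P.MP_32bf8a_an.VZ.Iface

/-! Step AC. -/

set_option autoImplicit false

namespace Pool.Agent.P.MP_32bf8a_an.VZ

open MeasureTheory Set
open scoped ENNReal Real ComplexConjugate InnerProductSpace

theorem AC_tl {n : ℕ} (c : ℝ) (w x h y g a : E n) :
    HH x h y g (tl c w a) = HH (tl c w x) (tl c w h) (tl c w y) (tl c w g) a := by
  simp only [HH, inner_tl]

theorem AC_dir (hDIR : S_DIR) {n : ℕ} {x y h g : E n} {τ σ : ℝ} (hxy : ON x y) (hτ : 0 < τ)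
    (hτ1 : τ ≤ 1) (hσ : 0 < σ) (hT : σ ^ 2 ≤ Th x y h g) :
    ∃ (c : ℝ) (z : ℂ), ∀ θ, τ * max |c| ‖z‖ ≤ |c + (ex θ * z).re| →
      ∃ e : E n, ‖e‖ = 1 ∧ ⟪wv x y (ex θ), e⟫_ℂ = 0 ∧ τ * σ / 2 ≤ |HH x h y g e| := by
  unfold Th at hT
  rcases le_total (σ ^ 2 / 2) (‖pp x y h‖ ^ 2 + ‖pp x y g‖ ^ 2) with h1 | h1
  · refine ⟨‖pp x y h‖ ^ 2 + ‖pp x y g‖ ^ 2, 2 * ⟪pp x y h, pp x y g⟫_ℂ, fun θ hθ => ?_⟩
    obtain ⟨e1, e, a1, a2, -, a4⟩ := hDIR n x y h g (ex θ) hxy (norm_ex θ)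
    refine ⟨e, a1, a2, (sq_le_sq₀ (by positivity) (abs_nonneg _)).1 ?_⟩
    rw [← e1, abs_of_nonneg (sq_nonneg ‖pp x y h + ex θ • pp x y g‖)] at hθ
    have := (mul_le_mul_of_nonneg_left ((h1.trans (le_abs_self _)).trans (le_max_left _ _))
      hτ.le).trans hθ
    rw [sq_abs]
    nlinarith [mul_nonneg (mul_nonneg hτ.le (sub_nonneg.2 hτ1)) (sq_nonneg σ)]
  · refine ⟨(⟪x, h⟫_ℂ).re - (⟪y, g⟫_ℂ).re, ⟪x, g⟫_ℂ - conj ⟪y, h⟫_ℂ, fun θ hθ => ?_⟩
    obtain ⟨-, e, a1, a2, a3, -⟩ := hDIR n x y h g (ex θ) hxy (norm_ex θ)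
    refine ⟨e, a1, a2, le_trans ?_ (hθ.trans a3)⟩
    rw [mul_div_assoc]
    refine mul_le_mul_of_nonneg_left ((sq_le_sq₀ (by positivity) (by positivity)).1 ?_) hτ.le
    generalize (⟪x, h⟫_ℂ).re - (⟪y, g⟫_ℂ).re = c at hT ⊢
    generalize ⟪x, g⟫_ℂ - conj ⟪y, h⟫_ℂ = z at hT ⊢
    have b1 := pow_le_pow_left₀ (abs_nonneg c) (le_max_left |c| ‖z‖) 2
    have b2 := pow_le_pow_left₀ (norm_nonneg z) (le_max_right |c| ‖z‖) 2
    rw [sq_abs] at b1
    linarith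

theorem p_AC (hDIR : S_DIR) (hSUB : S_SUB) (hROW : S_ROW) (hANTI : S_ANTI) :
    S_AC := by
  intro n x y h g κ η τ σ t hxy hκ hη hτ hτ1 hσ ht hT
  obtain ⟨c, z, hz⟩ := AC_dir hDIR hxy hτ hτ1 hσ hT
  have hW : MeasurableSet {θ | |c + (ex θ * z).re| < τ * max |c| ‖z‖} :=
    (isOpen_lt (by fun_prop) continuous_const).measurableSet
  have hB : MeasurableSet {a | |HH x h y g a| < t} :=
    (isOpen_lt (by fun_prop) continuous_const).measurableSet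
  have key : ∀ θ, ∫⁻ a in {a | |HH x h y g a| < t},
      ENNReal.ofReal (gk κ (wv x y (ex θ)) (wv x y (-ex θ)) a) ∂gm n ≤
      indicator {θ | |c + (ex θ * z).re| < τ * max |c| ‖z‖} 1 θ +
        ENNReal.ofReal (η + 2 * t / (η * τ * σ)) := by
    intro θ
    obtain ⟨r1, c', -, -, -, r2⟩ := hROW n _ _ κ (hxy.wv (norm_ex θ)) hκ
    by_cases hθ : θ ∈ {θ | |c + (ex θ * z).re| < τ * max |c| ‖z‖}
    · rw [indicator_of_mem hθ]
      exact le_add_right ((setLIntegral_le_lintegral _ _).trans r1.le)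
    obtain ⟨e, a1, a2, a3⟩ := hz θ (not_lt.1 hθ)
    have a4 : 0 < |HH x h y g e| := lt_of_lt_of_le (by positivity) a3
    have a5 := AC_tl c' (wv x y (ex θ)) x h y g e
    rw [tl_of_orth _ a2] at a5
    have a6 := hANTI n _ _ _ _ e t a1 (a5 ▸ abs_pos.1 a4)
    simp only [← AC_tl, tl_of_orth _ a2] at a6
    refine le_add_left ((r2 _ η hB hη).trans ?_)
    rw [ENNReal.ofReal_add hη.le (by positivity),
      show 2 * t / (η * τ * σ) = 1 / (2 * η) * (2 * t / (τ * σ / 2)) by field_simp,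
      ENNReal.ofReal_mul (by positivity)]
    gcongr
    exact a6.trans (ENNReal.ofReal_le_ofReal (by gcongr))
  unfold GG
  rw [lintegral_lintegral_swap (continuous_gk' κ x y).measurable.ennreal_ofReal.aemeasurable]
  refine (lintegral_mono key).trans ?_
  rw [lintegral_add_right _ measurable_const, lintegral_indicator_one hW, lintegral_const,
    measure_univ, mul_one, add_assoc, ENNReal.ofReal_add (p := 3 * √τ) (by positivity)
      (by positivity)]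
  gcongr
  exact hSUB c τ z hτ

end Pool.Agent.P.MP_32bf8a_an.VZ
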