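import Pool.Agent.P.MP_32bf8a_an.VZ.Iface

/-! Step ANG. -/

set_option autoImplicit false

namespace Pool.Agent.P.MP_32bf8a_an.VZ

open MeasureTheory Set
open scoped ENNReal Real ComplexConjugate InnerProductSpace

theorem ANG_bessel {n : ℕ} {p q r : E n} (h : O3 p q r) (a : E n) : Y3 p q r a ≤ ‖a‖ ^ 2 := by
  obtain ⟨h1, h2, h3, h4, h5, h6⟩ := h
  have e : ∀ z : E n, ((‖z‖ ^ 2 : ℝ) : ℂ) = ⟪z, z⟫_ℂ := fun z => by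
    rw [inner_self_eq_norm_sq_to_K]; simp
  have e' : ∀ z : ℂ, ((‖z‖ ^ 2 : ℝ) : ℂ) = conj z * z := fun z => by
    rw [Complex.conj_mul']; simp
  have h4' : ⟪q, p⟫_ℂ = 0 := by rw [← inner_conj_symm, h4, map_zero]
  have h5' : ⟪r, p⟫_ℂ = 0 := by rw [← inner_conj_symm, h5, map_zero]
  have h6' : ⟪r, q⟫_ℂ = 0 := by rw [← inner_conj_symm, h6, map_zero]
  have key : ‖a - ⟪p, a⟫_ℂ • p - ⟪q, a⟫_ℂ • q - ⟪r, a⟫_ℂ • r‖ ^ 2 =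
      ‖a‖ ^ 2 - (2 - ‖p‖ ^ 2) * ‖⟪p, a⟫_ℂ‖ ^ 2 - (2 - ‖q‖ ^ 2) * ‖⟪q, a⟫_ℂ‖ ^ 2 -
        (2 - ‖r‖ ^ 2) * ‖⟪r, a⟫_ℂ‖ ^ 2 := by
    apply Complex.ofReal_injective
    simp only [Complex.ofReal_sub, Complex.ofReal_mul]
    rw [e, e, e, e, e, e', e', e']
    simp only [inner_sub_left, inner_sub_right, inner_smul_left, inner_smul_right, h4, h5, h6, h4',
      h5', h6', inner_conj_symm]
    push_cast
    ring
  have a1 : ‖p‖ ^ 2 ≤ 1 := pow_le_one₀ (norm_nonneg _) h1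
  have a2 : ‖q‖ ^ 2 ≤ 1 := pow_le_one₀ (norm_nonneg _) h2
  have a3 : ‖r‖ ^ 2 ≤ 1 := pow_le_one₀ (norm_nonneg _) h3
  have b1 := mul_nonneg (sub_nonneg.2 a1) (sq_nonneg ‖⟪p, a⟫_ℂ‖)
  have b2 := mul_nonneg (sub_nonneg.2 a2) (sq_nonneg ‖⟪q, a⟫_ℂ‖)
  have b3 := mul_nonneg (sub_nonneg.2 a3) (sq_nonneg ‖⟪r, a⟫_ℂ‖)
  have b4 := sq_nonneg ‖a - ⟪p, a⟫_ℂ • p - ⟪q, a⟫_ℂ • q - ⟪r, a⟫_ℂ • r‖
  unfold Y3
  nlinarith

theorem p_ANG (hDENS : S_DENS) (hPOL : S_POL) (hEXP : S_EXP) :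
    S_ANG := by
  intro n p q r c hn h h0 h1
  refine ⟨ANG_bessel h, ?_⟩
  have hL : ∀ a : E n, a ≠ 0 → 0 < ‖a‖ ^ 2 - c * Y3 p q r a := fun a ha => by
    have b1 := mul_le_mul_of_nonneg_left (ANG_bessel h a) h0
    have b2 : 0 < ‖a‖ ^ 2 := by positivity
    nlinarith
  have h2 := hPOL n (fun a => ‖a‖ ^ 2 - c * Y3 p q r a) hn (by unfold Y3; fun_prop) hL
    (fun t a => by
      have e : ∀ u : E n, ‖⟪u, t • a⟫_ℂ‖ ^ 2 = t ^ 2 * ‖⟪u, a⟫_ℂ‖ ^ 2 := fun u => by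
        rw [show t • a = (t : ℂ) • a from rfl, inner_smul_right, norm_mul, mul_pow,
          Complex.norm_real, Real.norm_eq_abs, sq_abs]
      simp only [Y3, e, norm_smul, mul_pow, Real.norm_eq_abs, sq_abs]
      ring)
  simp only [sub_sub_cancel] at h2
  refine le_trans (le_of_eq (lintegral_congr_ae ?_)) (h2.trans (hEXP n p q r c h h0 h1))
  obtain ⟨μ, hμ, e⟩ := hDENS n
  have : Nonempty (Fin n) := ⟨⟨0, hn⟩⟩
  have hz : ∀ᵐ a ∂gm n, a ≠ 0 := by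
    rw [e]
    refine (withDensity_absolutelyContinuous _ _).ae_le ?_
    exact compl_mem_ae_iff.2 (measure_singleton (0 : E n))
  filter_upwards [hz] with a ha
  have b1 := (hL a ha).ne'
  have b2 : ‖a‖ ^ 2 ≠ 0 := by positivity
  congr 2
  field_simp

end Pool.Agent.P.MP_32bf8a_an.VZ
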