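import Pool.Agent.P.MP_32bf8a_an.VZ.Iface

/-! Step ANTI. -/

set_option autoImplicit false

namespace Pool.Agent.P.MP_32bf8a_an.VZ

open MeasureTheory Set
open scoped ENNReal Real ComplexConjugate InnerProductSpace

theorem ANTI_sq {n : ℕ} (x h y g e a : E n) (hl : HH x h y g e ≠ 0) : ∃ (c : ℂ) (s : ℝ), ∀ z : ℂ,
    HH x h y g (a + z • e) = HH x h y g e * ‖z + c‖ ^ 2 + s := by
  obtain ⟨b, hb⟩ : ∃ b : ℂ, ∀ z : ℂ, HH x h y g (a + z • e) = HH x h y g a +
      HH x h y g e * (z.re * z.re + z.im * z.im) + 2 * (z.re * b.re + z.im * b.im) := by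
    refine ⟨⟪e, x⟫_ℂ * conj ⟪a, h⟫_ℂ + conj ⟪a, x⟫_ℂ * ⟪e, h⟫_ℂ -
      (⟪e, y⟫_ℂ * conj ⟪a, g⟫_ℂ + conj ⟪a, y⟫_ℂ * ⟪e, g⟫_ℂ), fun z => ?_⟩
    simp only [HH, inner_add_left, inner_smul_left, Complex.mul_re, Complex.mul_im, Complex.add_re,
      Complex.add_im, Complex.sub_re, Complex.sub_im, Complex.conj_re, Complex.conj_im]
    ring
  refine ⟨⟨b.re / HH x h y g e, b.im / HH x h y g e⟩,
    HH x h y g a - (b.re ^ 2 + b.im ^ 2) / HH x h y g e, fun z => ?_⟩
  rw [hb, Complex.sq_norm, Complex.normSq_apply, Complex.add_re, Complex.add_im]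
  field_simp
  ring

theorem p_ANTI (hSPL : S_SPL) (hANN : S_ANN) :
    S_ANTI := by
  intro n x h y g e t he hl
  have hm : MeasurableSet {a | |HH x h y g a| < t} :=
    (isOpen_lt (by fun_prop) continuous_const).measurableSet
  rw [← lintegral_indicator_one hm, hSPL n e he _ (measurable_one.indicator hm)]
  refine (lintegral_mono fun a => ?_).trans_eq
    ((lintegral_const _).trans (by rw [measure_univ, mul_one]))
  obtain ⟨c, s, hc⟩ := ANTI_sq x h y g e (a - ⟪e, a⟫_ℂ • e) hl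
  refine le_trans (le_of_eq ?_) (hANN c _ s t hl)
  rw [← lintegral_indicator_one (isOpen_lt (by fun_prop) continuous_const).measurableSet]
  refine lintegral_congr fun z => ?_
  simp only [indicator, mem_ofPred_eq, hc, Pi.one_apply]

end Pool.Agent.P.MP_32bf8a_an.VZ
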