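import Pool.Agent.P.MP_32bf8a_an.VZ.Iface

/-! Step BAD. -/

set_option autoImplicit false

namespace Pool.Agent.P.MP_32bf8a_an.VZ

open MeasureTheory Set
open scoped ENNReal Real ComplexConjugate InnerProductSpace

theorem p_BAD (hGT : S_GT) (hAC : S_AC) (hSM : S_SM) (hFUB : S_FUB) (hCL : S_CL) (hKER : S_KER) :
    S_BAD := by
  intro n N U U' x y κ η τ σ t L δ hon hdir hκ hη hτ hτ1 hσ ht hL hδ
  have hF := (hFUB n N (GG κ x y) (measurable_GG' κ x y)).2
  have h1 := (hGT n x y κ hon hκ).1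
  obtain ⟨s1, s2⟩ := hSM n x y κ η L δ hon hκ hη hL hδ
  let B1 : Fin N → Set (Fin N → E n) := fun j => {A | L < ‖A j‖}
  let B2 : Fin N → Set (Fin N → E n) := fun j => {A | δ < |ff x y (A j)|}
  let B3 : Fin N → Set (Fin N → E n) := fun j => {A | (A, x, y) ∉ Inv U U' t⁻¹ j}
  have hsub : {A : Fin N → E n | (A, x, y) ∉ Good U U' L δ t⁻¹} ⊆ ⋃ j, (B1 j ∪ B2 j ∪ B3 j) := by
    intro A hA
    by_contra hn
    refine hA fun j => ?_
    have hj : A ∉ B1 j ∪ B2 j ∪ B3 j := fun h => hn (mem_iUnion.2 ⟨j, h⟩)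
    simp only [mem_union, not_or, B1, B2, B3, mem_ofPred_eq, not_lt, not_not] at hj
    exact ⟨hj.1.1, hj.1.2, hj.2⟩
  have e1 : ∀ j, ∫⁻ A in B1 j, ∏ i, GG κ x y (A i) ∂gN N n ≤
      ENNReal.ofReal (η + n / (2 * η * L ^ 2)) := fun j => by
    refine hF j (B1 j) _ h1 ?_ fun A => ?_
    · exact (isOpen_lt continuous_const (continuous_apply j).norm).measurableSet
    · simpa only [B1, mem_ofPred_eq, Function.update_self] using s1
  have e2 : ∀ j, ∫⁻ A in B2 j, ∏ i, GG κ x y (A i) ∂gN N n ≤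
      ENNReal.ofReal (η + n / (2 * η * δ * √(1 + κ))) := fun j => by
    refine hF j (B2 j) _ h1 ?_ fun A => ?_
    · exact (isOpen_lt continuous_const
        ((continuous_ff x y).comp (continuous_apply j)).abs).measurableSet
    · simpa only [B2, mem_ofPred_eq, Function.update_self] using s2
  have e3 : ∀ j, ∫⁻ A in B3 j, ∏ i, GG κ x y (A i) ∂gN N n ≤
      ENNReal.ofReal (3 * √τ + η + 2 * t / (η * τ * σ)) := fun j => by
    refine hF j (B3 j) _ h1 ?_ fun A => ?_
    · have hc : Continuous fun A : Fin N → E n => (A, x, y) := by fun_prop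
      exact (((hCL n N U U' L δ t⁻¹).1 j).preimage hc).isOpen_compl.measurableSet
    · obtain ⟨h, g, hs, hk⟩ := hKER n N U U' σ t x y A j hdir ht
      refine (lintegral_mono_set fun a ha => ?_).trans
        (hAC n x y h g κ η τ σ t hon hκ hη hτ hτ1 hσ ht hs)
      exact not_le.1 fun hle => ha (hk a hle)
  have p1 : 0 ≤ η + n / (2 * η * L ^ 2) := by positivity
  have p2 : 0 ≤ η + n / (2 * η * δ * √(1 + κ)) := by positivity
  have p3 : 0 ≤ 3 * √τ + η + 2 * t / (η * τ * σ) := by positivity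
  have e : ∀ j, ∫⁻ A in B1 j ∪ B2 j ∪ B3 j, ∏ i, GG κ x y (A i) ∂gN N n ≤
      ENNReal.ofReal (bt n κ η τ σ t L δ) := fun j => by
    rw [bt, ENNReal.ofReal_add (add_nonneg p1 p2) p3, ENNReal.ofReal_add p1 p2]
    exact (lintegral_union_le _ _ _).trans
      (add_le_add ((lintegral_union_le _ _ _).trans (add_le_add (e1 j) (e2 j))) (e3 j))
  refine ((lintegral_mono_set hsub).trans (lintegral_iUnion_le _ _)).trans ?_
  rw [tsum_fintype, ENNReal.ofReal_mul (Nat.cast_nonneg N), ENNReal.ofReal_natCast]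
  refine (Finset.sum_le_sum fun j _ => e j).trans ?_
  simp

end Pool.Agent.P.MP_32bf8a_an.VZ
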