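import Pool.Agent.P.MP_32bf8a_an.VZ.Iface

/-! Step C1. -/

set_option autoImplicit false

namespace Pool.Agent.P.MP_32bf8a_an.VZ

open MeasureTheory Set
open scoped ENNReal Real ComplexConjugate InnerProductSpace

theorem C1_dir {M N : ℕ} (hM : 5 ≤ M) (hN : N + 5 ≤ 4 * M) {x y : E M} (h : ON x y) :
    Dir ⊤ ⊤ N (1 / (2 * M)) x y := by
  let L : (E M × E M) →ₗ[ℝ] ℝ × ℂ × ℂ :=
    { toFun := fun p => ((⟪x, p.1⟫_ℂ).im, ⟪x, p.2⟫_ℂ, ⟪y, p.2⟫_ℂ)
      map_add' := fun p q => by simp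
      map_smul' := fun c p => by
        simp only [Prod.smul_fst, Prod.smul_snd, RCLike.real_smul_eq_coe_smul (K := ℂ) c,
          inner_smul_right]
        simp }
  refine ⟨LinearMap.ker L, ?_, fun p hp => ⟨trivial, trivial, ?_⟩⟩
  · have h1 := L.finrank_range_add_finrank_ker
    have h2 := Submodule.finrank_le (LinearMap.range L)
    have h3 : Module.finrank ℝ (E M) = 2 * M := by
      rw [← Module.finrank_mul_finrank ℝ ℂ (E M)]; simp
    rw [Module.finrank_prod, h3] at h1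
    simp only [Module.finrank_prod, Module.finrank_self, Complex.finrank_real_complex] at h2
    omega
  · have e : ((⟪x, p.1⟫_ℂ).im, ⟪x, p.2⟫_ℂ, ⟪y, p.2⟫_ℂ) = 0 := hp
    simp only [Prod.mk_eq_zero] at e
    have h1 : ‖⟪x, p.1⟫_ℂ‖ ^ 2 = (⟪x, p.1⟫_ℂ).re ^ 2 := by
      rw [Complex.sq_norm, Complex.normSq_apply, e.1]; ring
    have h2 : (1 / (2 * M) : ℝ) ^ 2 ≤ 1 := by
      have : (5 : ℝ) ≤ M := by exact_mod_cast hM
      exact pow_le_one₀ (by positivity) ((div_le_one (by positivity)).2 (by linarith))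
    simp only [Th, h.bessel, e.2.1, e.2.2, h1, Complex.zero_re, zero_sub, norm_neg,
      RCLike.norm_conj, norm_zero]
    nlinarith [sq_nonneg ‖p.1‖, sq_nonneg ‖p.2‖]

theorem p_C1 :
    S_C1 := by
  intro M N hM hN
  refine ⟨⟨measurable_id, measurable_id, by simp, by simp, by simp, by simp, by simp, by simp,
    fun x y h => C1_dir hM hN h⟩, ?_⟩
  rintro A hA ⟨x, -, y, -, h1, h2⟩
  have c : ∀ s : Finset (Fin M), s.card ≤ M := fun s => by simpa using s.card_le_univ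
  exact h2 (hA x y (c _) (c _) h1)

end Pool.Agent.P.MP_32bf8a_an.VZ
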