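import Pool.Agent.P.MP_32bf8a_an.VZ.Iface

/-! Step C2. -/

set_option autoImplicit false

namespace Pool.Agent.P.MP_32bf8a_an.VZ

open MeasureTheory Set
open scoped ENNReal Real ComplexConjugate InnerProductSpace

/-- the lift -/
noncomputable def C2_T {M : ℕ} (c : ℝ) (a b : ℂ) (x : E M) : E (M + 2) :=
  WithLp.toLp 2 (Fin.append (fun i => (c : ℂ) * x i) ![a, b])

theorem C2_cont {M : ℕ} (c : ℝ) (a b : ℂ) : Continuous (C2_T (M := M) c a b) :=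
  (PiLp.continuous_toLp 2 _).comp (continuous_pi fun i => by
    refine Fin.addCases (fun j => ?_) (fun j => ?_) i <;>
      simp only [Fin.append_left, Fin.append_right] <;> fun_prop)

theorem C2_inner {M : ℕ} (c : ℝ) (a b a' b' : ℂ) (x x' : E M) :
    ⟪C2_T c a b x, C2_T c a' b' x'⟫_ℂ = (c ^ 2 : ℝ) * ⟪x, x'⟫_ℂ + a' * conj a + b' * conj b := by
  simp only [C2_T, PiLp.inner_apply, Fin.sum_univ_add, Fin.append_left, Fin.append_right,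
    RCLike.inner_apply, Fin.sum_univ_two, Finset.mul_sum, map_mul, Complex.conj_ofReal, add_assoc]
  refine congrArg₂ _ (Finset.sum_congr rfl fun i _ => ?_) rfl
  push_cast
  ring

theorem C2_0 {M : ℕ} (c : ℝ) (a b : ℂ) (x : E M) : C2_T c a b x (Fin.natAdd M 0) = a :=
  Fin.append_right (fun i => (c : ℂ) * x i) ![a, b] 0

theorem C2_1 {M : ℕ} (c : ℝ) (a b : ℂ) (x : E M) : C2_T c a b x (Fin.natAdd M 1) = b :=
  Fin.append_right (fun i => (c : ℂ) * x i) ![a, b] 1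

/-- a coordinate hyperplane -/
noncomputable def C2_U {n : ℕ} (i : Fin n) : Submodule ℂ (E n) :=
  LinearMap.ker (EuclideanSpace.projₗ i)

theorem C2_dir {n N : ℕ} {X Y : E n} (h : ON X Y) {i j : Fin n} {m : ℝ} (hm : 1 ≤ m)
    (hN : N + 7 ≤ 4 * n) (h1 : X i = (1 / m : ℝ)) (h2 : X j = 0) (h3 : Y i = 0)
    (h4 : Y j = (1 / m : ℝ)) : Dir (C2_U j) (C2_U i) N (1 / (2 * m)) X Y := by
  let Φ : (E n × E n) →ₗ[ℝ] ℂ × ℂ × ℝ × ℂ :=
    (((EuclideanSpace.projₗ j).restrictScalars ℝ).comp (LinearMap.fst ℝ _ _)).prod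
      ((((EuclideanSpace.projₗ i).restrictScalars ℝ).comp (LinearMap.snd ℝ _ _)).prod
        ((Complex.imLm.comp (((innerSL ℂ X).toLinearMap.restrictScalars ℝ).comp
          (LinearMap.fst ℝ _ _))).prod
          (((innerSL ℂ Y).toLinearMap.restrictScalars ℝ).comp (LinearMap.snd ℝ _ _))))
  refine ⟨LinearMap.ker Φ, ?_, fun p hp => ?_⟩
  · have e1 := Φ.finrank_range_add_finrank_ker
    have e2 := Submodule.finrank_le (LinearMap.range Φ)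
    simp only [Module.finrank_prod, Module.finrank_self,
      finrank_real_of_complex, finrank_euclideanSpace_fin] at e1 e2
    omega
  · have e : (p.1 j, p.2 i, (⟪X, p.1⟫_ℂ).im, ⟪Y, p.2⟫_ℂ) = 0 := hp
    simp only [Prod.mk_eq_zero] at e
    obtain ⟨a1, a2, a3, a4⟩ := e
    refine ⟨a1, a2, ?_⟩
    have m0 : 0 < m := by linarith
    have b1 : ‖⟪Y, p.1⟫_ℂ‖ ≤ m * ‖pp X Y p.1‖ := by
      have := PiLp.norm_apply_le (pp X Y p.1) j
      simp only [pp, PiLp.sub_apply, PiLp.smul_apply, a1, h2, h4, smul_eq_mul, mul_zero, sub_zero,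
        zero_sub, norm_neg, norm_mul, Complex.norm_real,
        Real.norm_of_nonneg (one_div_pos.2 m0).le] at this
      rwa [mul_one_div, div_le_iff₀' m0] at this
    have b2 : ‖⟪X, p.2⟫_ℂ‖ ≤ m * ‖pp X Y p.2‖ := by
      have := PiLp.norm_apply_le (pp X Y p.2) i
      simp only [pp, PiLp.sub_apply, PiLp.smul_apply, a2, h1, h3, smul_eq_mul, mul_zero, sub_zero,
        zero_sub, norm_neg, norm_mul, Complex.norm_real,
        Real.norm_of_nonneg (one_div_pos.2 m0).le] at this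
      rwa [mul_one_div, div_le_iff₀' m0] at this
    have c1 := h.bessel p.1
    have c2 := h.bessel p.2
    have c3 : ‖⟪X, p.1⟫_ℂ‖ ^ 2 = (⟪X, p.1⟫_ℂ).re ^ 2 := by
      rw [Complex.sq_norm, Complex.normSq_apply, a3]; ring
    have d1 := pow_le_pow_left₀ (norm_nonneg _) b1 2
    have d2 := pow_le_pow_left₀ (norm_nonneg _) b2 2
    have m2 : 1 ≤ m ^ 2 := one_le_pow₀ hm
    rw [Th, div_pow, one_pow, div_mul_eq_mul_div, div_le_iff₀ (by positivity), a4] at *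
    simp only [Complex.zero_re, sub_zero, norm_zero, mul_pow] at *
    nlinarith [mul_le_mul_of_nonneg_left m2 (sq_nonneg ‖pp X Y p.1‖),
      mul_le_mul_of_nonneg_left m2 (sq_nonneg ‖pp X Y p.2‖),
      mul_le_mul_of_nonneg_left m2 (sq_nonneg (⟪X, p.1⟫_ℂ).re), sq_nonneg (⟪X, p.1⟫_ℂ).re,
      sq_nonneg ‖pp X Y p.1‖, sq_nonneg ‖pp X Y p.2‖,
      mul_nonneg (sq_nonneg ‖⟪X, p.2⟫_ℂ - conj ⟪Y, p.1⟫_ℂ‖) (sq_nonneg m)]

theorem C2_card {M : ℕ} {i : Fin (M + 2)} {x : E (M + 2)} (h : x ∈ C2_U i) :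
    (Finset.univ.filter fun k => x k ≠ 0).card ≤ M + 1 := by
  have : (Finset.univ.filter fun k => x k ≠ 0).card < Fintype.card (Fin (M + 2)) :=
    Finset.card_lt_univ_of_notMem (x := i) fun e => (Finset.mem_filter.1 e).2 h
  rw [Fintype.card_fin] at this
  omega

theorem p_C2 :
    S_C2 := by
  intro M N hM hN
  have m1 : (1 : ℝ) ≤ M := by exact_mod_cast (show 1 ≤ M by omega)
  have e1 : √(1 - 1 / (M : ℝ) ^ 2) ^ 2 = 1 - 1 / (M : ℝ) ^ 2 :=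
    Real.sq_sqrt (sub_nonneg.2 (div_le_one_of_le₀ (one_le_pow₀ m1) (by positivity)))
  have e2 : ((1 / M : ℝ) : ℂ) * conj ((1 / M : ℝ) : ℂ) = (1 / (M : ℝ) ^ 2 : ℝ) := by
    rw [Complex.conj_ofReal]; push_cast; ring
  have PP : ∀ x x' : E M, ⟪C2_T √(1 - 1 / (M : ℝ) ^ 2) (1 / M : ℝ) 0 x,
      C2_T √(1 - 1 / (M : ℝ) ^ 2) (1 / M : ℝ) 0 x'⟫_ℂ =
      (1 - (1 / (M : ℝ) ^ 2 : ℝ)) * ⟪x, x'⟫_ℂ + (1 / (M : ℝ) ^ 2 : ℝ) := fun x x' => by
    rw [C2_inner, e1, e2, zero_mul, add_zero, Complex.ofReal_sub, Complex.ofReal_one]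
  have PQ : ∀ x x' : E M, ⟪C2_T √(1 - 1 / (M : ℝ) ^ 2) (1 / M : ℝ) 0 x,
      C2_T √(1 - 1 / (M : ℝ) ^ 2) 0 (1 / M : ℝ) x'⟫_ℂ =
      (1 - (1 / (M : ℝ) ^ 2 : ℝ)) * ⟪x, x'⟫_ℂ := fun x x' => by
    rw [C2_inner, e1, zero_mul, add_zero, map_zero, mul_zero, add_zero, Complex.ofReal_sub,
      Complex.ofReal_one]
  have QQ : ∀ x x' : E M, ⟪C2_T √(1 - 1 / (M : ℝ) ^ 2) 0 (1 / M : ℝ) x,
      C2_T √(1 - 1 / (M : ℝ) ^ 2) 0 (1 / M : ℝ) x'⟫_ℂ =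
      (1 - (1 / (M : ℝ) ^ 2 : ℝ)) * ⟪x, x'⟫_ℂ + (1 / (M : ℝ) ^ 2 : ℝ) := fun x x' => by
    rw [C2_inner, e1, e2, zero_mul, add_zero, Complex.ofReal_sub, Complex.ofReal_one]
  refine ⟨C2_U (Fin.natAdd M 1), C2_U (Fin.natAdd M 0),
    C2_T √(1 - 1 / (M : ℝ) ^ 2) (1 / M : ℝ) 0, C2_T √(1 - 1 / (M : ℝ) ^ 2) 0 (1 / M : ℝ),
    ⟨(C2_cont _ _ _).measurable, (C2_cont _ _ _).measurable, PP, PQ, fun x x' => ?_, QQ,
      fun x => C2_1 _ _ _ x, fun x => C2_0 _ _ _ x, fun x y h => ?_⟩, ?_⟩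
  · rw [C2_inner, e1, zero_mul, add_zero, map_zero, mul_zero, add_zero, Complex.ofReal_sub,
      Complex.ofReal_one]
  · refine C2_dir ⟨norm_of_inner ?_, norm_of_inner ?_, ?_⟩ m1 (by omega) (C2_0 _ _ _ _)
      (C2_1 _ _ _ _) (C2_0 _ _ _ _) (C2_1 _ _ _ _)
    · rw [PP, h.xx]; ring
    · rw [QQ, h.yy]; ring
    · rw [PQ, h.2.2, mul_zero]
  · rintro A hA ⟨x, hx, y, hy, h1, h2⟩
    exact h2 (hA x y (C2_card hx) (C2_card hy) h1)

end Pool.Agent.P.MP_32bf8a_an.VZ
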