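import Pool.Agent.P.MP_32bf8a_an.VZ.Iface

/-! Step CG. -/

set_option autoImplicit false

namespace Pool.Agent.P.MP_32bf8a_an.VZ

open MeasureTheory Set
open scoped ENNReal Real ComplexConjugate InnerProductSpace

theorem CG_gen {F : ℂ → ℝ} (hF : Measurable F) (h0 : ∀ z, 0 ≤ F z) {c : ℝ} (hc : 0 < c)
    (h : ∫ z : ℂ, F z * Real.exp (-‖z‖ ^ 2) = π * c) :
    ∫⁻ z, ENNReal.ofReal (F z) ∂cg = ENNReal.ofReal c := by
  have hi : Integrable fun z : ℂ => F z * Real.exp (-‖z‖ ^ 2) :=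
    Integrable.of_integral_ne_zero (by rw [h]; positivity)
  rw [cg, lintegral_withDensity_eq_lintegral_mul _ (by fun_prop) hF.ennreal_ofReal]
  have e : ∀ z : ℂ, ((fun z : ℂ => ENNReal.ofReal (Real.exp (-‖z‖ ^ 2) / π)) *
      fun z => ENNReal.ofReal (F z)) z = ENNReal.ofReal (F z * Real.exp (-‖z‖ ^ 2) / π) := fun z => by
    rw [Pi.mul_apply, ← ENNReal.ofReal_mul (by positivity)]
    congr 1
    ring
  rw [lintegral_congr e, ← ofReal_integral_eq_lintegral_ofReal (hi.div_const _)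
    (.of_forall fun z => by have := h0 z; positivity), integral_div, h,
    mul_div_cancel_left₀ _ Real.pi_ne_zero]

theorem CG_pow (q : ℕ) : ∫ z : ℂ, ‖z‖ ^ q * Real.exp (-‖z‖ ^ 2) =
    π * Real.Gamma (((q : ℝ) + 2) / 2) := by
  have h := Complex.integral_rpow_mul_exp_neg_rpow (p := 2) (q := (q : ℝ)) one_le_two
    (by have : (0 : ℝ) ≤ q := Nat.cast_nonneg q; linarith)
  simp only [Real.rpow_natCast, Real.rpow_two] at h
  rw [h]
  ring

theorem p_CG :
    S_CG := by
  refine ⟨fun κ hκ => CG_gen (by fun_prop) (fun z => by positivity) (by positivity) ?_, ?_, ?_⟩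
  · rw [← mul_div_assoc, mul_one, ← integral_gauss hκ]
    refine integral_congr_ae (.of_forall fun z => ?_)
    dsimp only
    rw [← Real.exp_add]
    congr 1
    ring
  · rw [CG_gen (F := fun z => ‖z‖ ^ 2) (by fun_prop) (fun z => by positivity) one_pos ?_,
      ENNReal.ofReal_one]
    rw [CG_pow 2]
    norm_num
  · rw [CG_gen (F := fun z => ‖z‖ ^ 4) (by fun_prop) (fun z => by positivity) two_pos ?_,
      ENNReal.ofReal_ofNat]
    rw [CG_pow 4, show (((4 : ℕ) : ℝ) + 2) / 2 = ((2 : ℕ) : ℝ) + 1 by norm_num,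
      Real.Gamma_nat_eq_factorial]
    norm_num

end Pool.Agent.P.MP_32bf8a_an.VZ
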