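import Pool.Agent.P.MP_32bf8a_an.VZ.Iface

/-! Step CL. -/

set_option autoImplicit false

namespace Pool.Agent.P.MP_32bf8a_an.VZ

open MeasureTheory Set
open scoped ENNReal Real ComplexConjugate InnerProductSpace

theorem CL_inv {n N : ℕ} (U U' : Submodule ℂ (E n)) (R : ℝ) (j : Fin N) :
    IsClosed (Inv U U' R j) := by
  have hK : ∀ V : Submodule ℂ (E n), IsCompact (Metric.closedBall (0 : E n) R ∩ V) := fun V =>
    (isCompact_closedBall _ _).inter_right V.closed_of_finiteDimensional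
  let K : Set (E n × E n) := (Metric.closedBall (0 : E n) R ∩ U) ×ˢ (Metric.closedBall 0 R ∩ U')
  have : CompactSpace K := isCompact_iff_compactSpace.1 ((hK U).prod (hK U'))
  have hc : IsClosed {q : ((Fin N → E n) × E n × E n) × K |
      ∀ i, HH q.1.2.1 q.2.1.1 q.1.2.2 q.2.1.2 (q.1.1 i) = if i = j then 1 else 0} := by
    rw [Set.ofPred_forall]
    refine isClosed_iInter fun i => isClosed_eq ?_ continuous_const
    unfold HH
    fun_prop
  convert isClosedMap_fst_of_compactSpace _ hc using 1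
  ext p
  constructor
  · rintro ⟨h, h1, g, h2, h3, h4, h5⟩
    exact ⟨(p, ⟨(h, g), ⟨mem_closedBall_zero_iff.2 h3, h1⟩, mem_closedBall_zero_iff.2 h4, h2⟩),
      h5, rfl⟩
  · rintro ⟨⟨_, ⟨h, g⟩, ⟨h3, h1⟩, h4, h2⟩, h5, rfl⟩
    exact ⟨h, h1, g, h2, mem_closedBall_zero_iff.1 h3, mem_closedBall_zero_iff.1 h4, h5⟩

theorem p_CL :
    S_CL := by
  intro n N U U' L δ R
  refine ⟨CL_inv U U' R, ?_⟩
  rw [Good, Set.ofPred_forall]
  refine isClosed_iInter fun j => ?_
  have h1 : IsClosed {p : (Fin N → E n) × E n × E n | ‖p.1 j‖ ≤ L} :=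
    isClosed_le (by fun_prop) continuous_const
  have h2 : IsClosed {p : (Fin N → E n) × E n × E n | |ff p.2.1 p.2.2 (p.1 j)| ≤ δ} :=
    isClosed_le (by unfold ff; fun_prop) continuous_const
  exact h1.inter (h2.inter (CL_inv U U' R j))

end Pool.Agent.P.MP_32bf8a_an.VZ
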