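import Pool.Agent.P.MP_32bf8a_an.VZ.Iface

/-! Step CUB. -/

set_option autoImplicit false

namespace Pool.Agent.P.MP_32bf8a_an.VZ

open MeasureTheory Set
open scoped ENNReal Real ComplexConjugate InnerProductSpace

theorem CUB_per {F f : ℝ → ℝ} (h : ∀ θ, HasDerivAt F (f θ) θ) (hc : Continuous f)
    (e : F (2 * π) = F 0) : ∫ θ, f θ ∂um = 0 := by
  rw [integral_um, intervalIntegral.integral_eq_sub_of_hasDerivAt (fun θ _ => h θ)
    (hc.intervalIntegrable _ _), e, sub_self, mul_zero]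

theorem CUB_ex : ex (2 * π) = ex 0 := by
  simp [ex, Complex.exp_two_pi_mul_I]

theorem p_CUB (hPOI : S_POI) :
    S_CUB := by
  intro z b hb hb1 hz
  obtain ⟨p, hp⟩ : ∃ p, p = (1 + b) / 2 := ⟨_, rfl⟩
  rw [← hp]
  have hzp : ‖z‖ < p := by linarith
  obtain ⟨D, hD⟩ : ∃ D, D = p ^ 2 - ‖z‖ ^ 2 := ⟨_, rfl⟩
  have hbD : b ≤ D := by
    have := pow_le_pow_left₀ (norm_nonneg z) hz 2
    rw [hD, hp]
    nlinarith
  have hn : ∀ θ, (ex θ * z).re ^ 2 + (ex θ * z).im ^ 2 = ‖z‖ ^ 2 := fun θ => by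
    have : ‖ex θ * z‖ = ‖z‖ := by simp
    rw [← this, ← Complex.normSq_eq_norm_sq, Complex.normSq_apply]
    ring
  have hu : ∀ θ, p - (ex θ * z).re ≠ 0 := fun θ => by
    have := (Complex.re_le_norm (ex θ * z)).trans_eq (by simp : ‖ex θ * z‖ = ‖z‖)
    linarith
  obtain ⟨w, hw⟩ : ∃ w : ℝ → ℝ, w = fun θ => (p - (ex θ * z).re)⁻¹ := ⟨_, rfl⟩
  have cw : Continuous w := hw ▸ Continuous.inv₀ (by fun_prop) hu
  have d0 := fun θ => (hasDerivAt_ex θ).mul_const z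
  have ds : ∀ θ, HasDerivAt (fun θ => (ex θ * z).im) (ex θ * z).re θ := fun θ =>
    (Complex.imCLM.hasFDerivAt.comp_hasDerivAt θ (d0 θ)).congr_deriv (by simp; ring)
  have dr : ∀ θ, HasDerivAt (fun θ => (ex θ * z).re) (-(ex θ * z).im) θ := fun θ =>
    (Complex.reCLM.hasFDerivAt.comp_hasDerivAt θ (d0 θ)).congr_deriv (by simp; ring)
  have dw : ∀ θ, HasDerivAt w (-(ex θ * z).im * w θ ^ 2) θ := fun θ => by
    rw [hw]
    exact (((dr θ).const_sub p).inv (hu θ)).congr_deriv (by field_simp)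
  have hw1 : ∀ θ, (p - (ex θ * z).re) * w θ = 1 := fun θ => by
    rw [hw]
    exact mul_inv_cancel₀ (hu θ)
  have hwe : w (2 * π) = w 0 := by simp only [hw, CUB_ex]
  have e1 := CUB_per (F := fun θ => (ex θ * z).im * w θ) (f := fun θ => D * w θ ^ 2 - p * w θ)
    (fun θ => ((ds θ).mul (dw θ)).congr_deriv (by
      linear_combination (-w θ ^ 2) * hn θ - w θ ^ 2 * hD -
        (w θ * (p + (ex θ * z).re)) * hw1 θ))
    (by fun_prop) (by simp only [CUB_ex, hwe])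
  have e2 := CUB_per (F := fun θ => (ex θ * z).im * w θ ^ 2)
    (f := fun θ => 2 * D * w θ ^ 3 - 3 * p * w θ ^ 2 + w θ)
    (fun θ => ((ds θ).mul ((dw θ).pow 2)).congr_deriv (by
      simp only [Pi.pow_apply]
      push_cast
      linear_combination (-2 * w θ ^ 3) * hn θ - 2 * w θ ^ 3 * hD -
        (w θ * (2 * w θ * (p + (ex θ * z).re) - 1)) * hw1 θ))
    (by fun_prop) (by simp only [CUB_ex, hwe])
  have i1 := integrable_um cw
  have i2 : Integrable (fun θ => w θ ^ 2) um := integrable_um (cw.pow 2)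
  have i3 : Integrable (fun θ => w θ ^ 3) um := integrable_um (cw.pow 3)
  rw [integral_sub (i2.const_mul _) (i1.const_mul _), integral_const_mul, integral_const_mul] at e1
  have i4 : Integrable (fun θ => 2 * D * w θ ^ 3 - 3 * p * w θ ^ 2) um :=
    (i3.const_mul _).sub (i2.const_mul _)
  rw [integral_add i4 i1, integral_sub (i3.const_mul _) (i2.const_mul _), integral_const_mul, integral_const_mul] at e2
  have e3 : ∫ θ, w θ ∂um = (√D)⁻¹ := by rw [hw, hD]; exact (hPOI z).2.2 p hzp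
  have e4 : (fun θ => 2 * b ^ 2 / (p - (ex θ * z).re) ^ 3) = fun θ => 2 * b ^ 2 * w θ ^ 3 := by
    simp only [hw, div_eq_mul_inv, inv_pow]
  rw [e4, integral_const_mul]
  have h0 : 0 ≤ ∫ θ, w θ ^ 3 ∂um := integral_nonneg fun θ => pow_nonneg (by
    have := (Complex.re_le_norm (ex θ * z)).trans_eq (by simp : ‖ex θ * z‖ = ‖z‖)
    rw [hw]
    exact inv_nonneg.2 (by linarith)) 3
  have h1 : (√D)⁻¹ ≤ (√b)⁻¹ := inv_anti₀ (Real.sqrt_pos.2 hb) (Real.sqrt_le_sqrt hbD)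
  have h2 : 2 * D ^ 2 * ∫ θ, w θ ^ 3 ∂um = (3 * p ^ 2 - D) * (√D)⁻¹ := by
    rw [← e3]
    linear_combination D * e2 + 3 * p * e1
  have h3 : phi b = (3 * p ^ 2 - b) * (√b)⁻¹ := by rw [phi, hp]; ring
  have h4 := mul_le_mul_of_nonneg_right (pow_le_pow_left₀ hb.le hbD 2) h0
  have h5 : (3 * p ^ 2 - D) * (√D)⁻¹ ≤ (3 * p ^ 2 - b) * (√b)⁻¹ :=
    mul_le_mul (by linarith) h1 (by positivity) (by nlinarith [sq_nonneg ‖z‖, sq_nonneg p])
  linarith

end Pool.Agent.P.MP_32bf8a_an.VZ
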