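import Pool.Agent.P.MP_32bf8a_an.VZ.Iface

/-! Step DENS. -/

set_option autoImplicit false

namespace Pool.Agent.P.MP_32bf8a_an.VZ

open MeasureTheory Set
open scoped ENNReal Real ComplexConjugate InnerProductSpace

theorem DENS_pi {X : Type} [MeasurableSpace X] (μ : Measure X) [SigmaFinite μ] {f : X → ℝ}
    (h0 : ∀ x, 0 ≤ f x) (hi : Integrable f μ) (n : ℕ) :
    Measure.pi (fun _ : Fin n => μ.withDensity fun x => ENNReal.ofReal (f x)) =
      (Measure.pi fun _ : Fin n => μ).withDensity fun y => ENNReal.ofReal (∏ i, f (y i)) := by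
  have : IsFiniteMeasure (μ.withDensity fun x => ENNReal.ofReal (f x)) :=
    isFiniteMeasure_withDensity_ofReal hi.2
  refine Measure.pi_eq fun s hs => ?_
  rw [withDensity_apply _ (MeasurableSet.univ_pi hs), Measure.restrict_pi_pi,
    ← ofReal_integral_eq_lintegral_ofReal (Integrable.fintype_prod fun i => hi.restrict)
      (.of_forall fun y => Finset.prod_nonneg fun i _ => h0 _),
    integral_fintype_prod_eq_prod (fun _ => f),
    ENNReal.ofReal_prod_of_nonneg fun i _ => integral_nonneg h0]
  refine Finset.prod_congr rfl fun i _ => ?_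
  rw [withDensity_apply _ (hs i), ofReal_integral_eq_lintegral_ofReal hi.restrict (.of_forall h0)]

theorem p_DENS :
    S_DENS := by
  intro n
  have h := integral_gauss one_pos
  simp only [neg_mul, one_mul, div_one] at h
  have hi : Integrable fun z : ℂ => Real.exp (-‖z‖ ^ 2) :=
    Integrable.of_integral_ne_zero (h ▸ Real.pi_ne_zero)
  have hc : (0 : ℝ) < (π ^ n)⁻¹ := by positivity
  have hH : ((volume : Measure (Fin n → ℂ)).map
      (PiLp.continuousLinearEquiv 2 ℂ fun _ : Fin n => ℂ).symm).IsAddHaarMeasure :=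
    ContinuousLinearEquiv.isAddHaarMeasure_map _ _
  have hH' : ((volume : Measure (Fin n → ℂ)).map
      (WithLp.toLp 2 : (Fin n → ℂ) → E n)).IsAddHaarMeasure := hH
  refine ⟨ENNReal.ofReal (π ^ n)⁻¹ • (volume : Measure (Fin n → ℂ)).map (WithLp.toLp 2),
    Measure.IsAddHaarMeasure.smul _ (by simpa using hc) ENNReal.ofReal_ne_top, ?_⟩
  have hm : Measurable fun a : E n => ENNReal.ofReal (Real.exp (-‖a‖ ^ 2)) := by fun_prop
  ext s hs
  rw [gm, cg, DENS_pi volume (fun z => by positivity) (hi.div_const _),
    Measure.map_apply measurable_toLp hs, withDensity_apply _ (measurable_toLp hs),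
    withDensity_apply _ hs, Measure.restrict_smul, lintegral_smul_measure,
    setLIntegral_map hs hm measurable_toLp, smul_eq_mul,
    ← lintegral_const_mul' _ _ ENNReal.ofReal_ne_top]
  refine lintegral_congr fun y => ?_
  rw [← ENNReal.ofReal_mul hc.le, EuclideanSpace.norm_sq_eq, Finset.prod_div_distrib,
    ← Real.exp_sum, Finset.sum_neg_distrib, Finset.prod_const, Finset.card_univ, Fintype.card_fin,
    div_eq_inv_mul]

end Pool.Agent.P.MP_32bf8a_an.VZ
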