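import Pool.Agent.P.MP_32bf8a_an.VZ.Iface

/-! Step DIR. -/

set_option autoImplicit false

namespace Pool.Agent.P.MP_32bf8a_an.VZ

open MeasureTheory Set
open scoped ENNReal Real ComplexConjugate InnerProductSpace

theorem DIR_orth {n : ℕ} {x y : E n} (h : ON x y) (a : E n) :
    ⟪x, pp x y a⟫_ℂ = 0 ∧ ⟪y, pp x y a⟫_ℂ = 0 := by
  constructor <;>
    simp only [pp, inner_sub_right, inner_smul_right, h.xx, h.yy, h.yx, h.2.2] <;> ring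

theorem DIR_pp {n : ℕ} {x y k : E n} (hx : ⟪x, k⟫_ℂ = 0) (hy : ⟪y, k⟫_ℂ = 0) (a : E n) :
    ⟪k, pp x y a⟫_ℂ = ⟪k, a⟫_ℂ := by
  have h1 : ⟪k, x⟫_ℂ = 0 := by rw [← inner_conj_symm, hx, map_zero]
  have h2 : ⟪k, y⟫_ℂ = 0 := by rw [← inner_conj_symm, hy, map_zero]
  simp only [pp, inner_sub_right, inner_smul_right, h1, h2]; ring

theorem DIR_aux {n : ℕ} {x y h g k : E n} {d : ℂ} (o : ON x y) (hd : ‖d‖ = 1)
    (hx : ⟪x, k⟫_ℂ = 0) (hy : ⟪y, k⟫_ℂ = 0)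
    (hk : ⟪k, h⟫_ℂ + d * ⟪k, g⟫_ℂ = ((‖k‖ ^ 2 : ℝ) : ℂ)) (a c : ℝ) :
    ‖(a : ℂ) • wv x y (-d) + (c : ℂ) • k‖ ^ 2 = a ^ 2 + c ^ 2 * ‖k‖ ^ 2 ∧
    ⟪wv x y d, (a : ℂ) • wv x y (-d) + (c : ℂ) • k⟫_ℂ = 0 ∧
    HH x h y g ((a : ℂ) • wv x y (-d) + (c : ℂ) • k) =
      a ^ 2 * ((⟪x, h⟫_ℂ).re - (⟪y, g⟫_ℂ).re + (d * (⟪x, g⟫_ℂ - conj ⟪y, h⟫_ℂ)).re) +
        2 * a * (√2)⁻¹ * c * ‖k‖ ^ 2 := by
  have h1 : ⟪k, x⟫_ℂ = 0 := by rw [← inner_conj_symm, hx, map_zero]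
  have h2 : ⟪k, y⟫_ℂ = 0 := by rw [← inner_conj_symm, hy, map_zero]
  have w := o.wv hd
  have hw : ∀ t : ℂ, ⟪wv x y t, k⟫_ℂ = 0 := fun t => by
    simp only [wv, inner_smul_left, inner_add_left, hx, hy]; simp
  have hw' : ⟪k, wv x y (-d)⟫_ℂ = 0 := by rw [← inner_conj_symm, hw, map_zero]
  have e : ∀ z : E n, ((‖z‖ ^ 2 : ℝ) : ℂ) = ⟪z, z⟫_ℂ := fun z => by
    rw [inner_self_eq_norm_sq_to_K]; simp
  refine ⟨?_, ?_, ?_⟩
  · apply Complex.ofReal_injective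
    rw [Complex.ofReal_add, Complex.ofReal_mul, e, e]
    simp only [inner_add_left, inner_add_right, inner_smul_left, inner_smul_right, w.yy, hw, hw',
      Complex.conj_ofReal]
    push_cast; ring
  · simp only [inner_add_right, inner_smul_right, w.2.2, hw]; ring
  · obtain ⟨r, hr⟩ : ∃ r : ℝ, r = (√2)⁻¹ := ⟨_, rfl⟩
    have hr2 : r * r = 1 / 2 := by
      rw [hr, ← mul_inv, Real.mul_self_sqrt zero_le_two]; simp
    have hd2 : d.re ^ 2 + d.im ^ 2 = 1 := by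
      have := Complex.sq_norm d
      rw [hd, Complex.normSq_apply] at this; linarith
    have k1 := congrArg Complex.re hk
    simp only [Complex.add_re, Complex.mul_re, Complex.ofReal_re] at k1
    have hs : ((√2 : ℝ) : ℂ)⁻¹ = (r : ℂ) := by rw [hr]; simp
    rw [← hr, ← k1]
    simp only [HH, wv, hs, inner_add_left, inner_smul_left, o.xx, o.yy, o.yx, o.2.2, h1, h2,
      Complex.conj_ofReal, map_neg, map_mul, map_add, mul_zero, add_zero, zero_add, mul_one,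
      Complex.conj_conj, Complex.mul_re, Complex.mul_im, Complex.add_re, Complex.add_im,
      Complex.ofReal_re, Complex.ofReal_im, Complex.neg_re, Complex.neg_im, Complex.conj_re,
      Complex.conj_im, Complex.sub_re, Complex.sub_im]
    linear_combination (2 * a ^ 2 * ((⟪x, h⟫_ℂ).re - (⟪y, g⟫_ℂ).re + d.re * (⟪x, g⟫_ℂ).re -
      d.im * (⟪x, g⟫_ℂ).im - d.re * (⟪y, h⟫_ℂ).re - d.im * (⟪y, h⟫_ℂ).im)) * hr2 -
      (2 * a ^ 2 * r ^ 2 * (⟪y, g⟫_ℂ).re) * hd2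

theorem p_DIR :
    S_DIR := by
  intro n x y h g d o hd
  refine ⟨?_, ?_⟩
  · rw [norm_add_sq (𝕜 := ℂ), norm_smul, hd, one_mul, inner_smul_right]
    simp only [RCLike.re_to_complex, Complex.mul_re, Complex.mul_im, Complex.re_ofNat,
      Complex.im_ofNat]
    ring
  obtain ⟨k, hk⟩ : ∃ k, k = pp x y h + d • pp x y g := ⟨_, rfl⟩
  rw [← hk]
  have hx : ⟪x, k⟫_ℂ = 0 := by
    rw [hk, inner_add_right, inner_smul_right, (DIR_orth o h).1, (DIR_orth o g).1]; simp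
  have hy : ⟪y, k⟫_ℂ = 0 := by
    rw [hk, inner_add_right, inner_smul_right, (DIR_orth o h).2, (DIR_orth o g).2]; simp
  have hkk : ⟪k, h⟫_ℂ + d * ⟪k, g⟫_ℂ = ((‖k‖ ^ 2 : ℝ) : ℂ) := by
    rw [← DIR_pp hx hy h, ← DIR_pp hx hy g, ← inner_smul_right, ← inner_add_right, ← hk,
      inner_self_eq_norm_sq_to_K]
    simp
  have A := DIR_aux o hd hx hy hkk
  generalize (⟪x, h⟫_ℂ).re - (⟪y, g⟫_ℂ).re + (d * (⟪x, g⟫_ℂ - conj ⟪y, h⟫_ℂ)).re = m at A ⊢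
  have one : ∀ z : E n, ‖z‖ ^ 2 = 1 → ‖z‖ = 1 := fun z hz =>
    (pow_eq_one_iff_of_nonneg (norm_nonneg _) two_ne_zero).1 hz
  by_cases hc : ‖k‖ ^ 2 ≤ 2 * m ^ 2
  · obtain ⟨a1, a2, a3⟩ := A 1 0
    refine ⟨_, one _ (by rw [a1]; ring), a2, ?_, ?_⟩ <;> rw [a3]
    · simp
    · simpa using hc
  push Not at hc
  obtain ⟨r, hr⟩ : ∃ r : ℝ, r = (√2)⁻¹ := ⟨_, rfl⟩
  have hr2 : r * r = 1 / 2 := by
    rw [hr, ← mul_inv, Real.mul_self_sqrt zero_le_two]; simp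
  have hr0 : 0 < r := by rw [hr]; positivity
  rw [← hr] at A
  have k0 : 0 < ‖k‖ := by
    rcases (norm_nonneg k).eq_or_lt with h0 | h0
    · rw [← h0] at hc; nlinarith [sq_nonneg m]
    · exact h0
  have hm : |m| ≤ r * ‖k‖ := abs_le_of_sq_le_sq' (by nlinarith) (by positivity) |> abs_le.2
  have hrk : 0 < r * ‖k‖ := by positivity
  have key : ∀ s : ℝ, s ^ 2 = 1 → s * m = |m| → ∃ e : E n, ‖e‖ = 1 ∧ ⟪wv x y d, e⟫_ℂ = 0 ∧
      |m| ≤ |HH x h y g e| ∧ ‖k‖ ^ 2 ≤ 2 * HH x h y g e ^ 2 := fun s s1 s2 => by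
    obtain ⟨a1, a2, a3⟩ := A r (s * r / ‖k‖)
    have b : HH x h y g ((r : ℂ) • wv x y (-d) + ((s * r / ‖k‖ : ℝ) : ℂ) • k) =
        s * (|m| / 2 + r * ‖k‖) := by
      rw [a3, ← s2]; field_simp
      linear_combination (2 * m + 4 * r * s * ‖k‖) * hr2 - m * s1
    have c : (s * (|m| / 2 + r * ‖k‖)) ^ 2 = (|m| / 2 + r * ‖k‖) ^ 2 := by rw [mul_pow, s1, one_mul]
    refine ⟨_, one _ ?_, a2, ?_, ?_⟩
    · rw [a1]; field_simp
      linear_combination 2 * hr2 + r ^ 2 * s1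
    · rw [b]
      refine (abs_le_of_sq_le_sq' ?_ (abs_nonneg _)).2
      rw [sq_abs (s * _), c]
      nlinarith [abs_nonneg m]
    · rw [b, c]
      nlinarith [abs_nonneg m, mul_nonneg (abs_nonneg m) hrk.le]
  rcases le_total 0 m with h0 | h0
  · exact key 1 (by ring) (by rw [abs_of_nonneg h0, one_mul])
  · exact key (-1) (by ring) (by rw [abs_of_nonpos h0]; ring)

end Pool.Agent.P.MP_32bf8a_an.VZ
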