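import Pool.Agent.P.MP_32bf8a_an.VZ.Iface

/-! Step DL. -/

set_option autoImplicit false

namespace Pool.Agent.P.MP_32bf8a_an.VZ

open MeasureTheory Set
open scoped ENNReal Real ComplexConjugate InnerProductSpace

theorem DL_mono {A B x y A' B' x' y' k : ℝ} (hA : 0 < A) (hk : 0 < k)
    (hd : 0 ≤ A * B - (x ^ 2 + y ^ 2))
    (h : ∀ s t v : ℝ, k * (A * (s ^ 2 + t ^ 2) + B * v ^ 2 - 2 * v * (s * x + t * y)) ≤
      A' * (s ^ 2 + t ^ 2) + B' * v ^ 2 - 2 * v * (s * x' + t * y')) :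
    k ^ 2 * (A * B - (x ^ 2 + y ^ 2)) ≤ A' * B' - (x' ^ 2 + y' ^ 2) := by
  have h1 : k * A ≤ A' := by simpa using h 1 0 0
  have h2 : 0 < A' := (mul_pos hk hA).trans_le h1
  have h3 := mul_le_mul_of_nonneg_left (h x' y' A') hA.le
  have h4 := mul_nonneg hk.le (add_nonneg (sq_nonneg (A * x' - x * A')) (sq_nonneg (A * y' - y * A')))
  have h5 := mul_le_mul_of_nonneg_left h1 (mul_nonneg (mul_nonneg hk.le hd) h2.le)
  refine le_of_mul_le_mul_left ?_ (mul_pos hA h2)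
  nlinarith

theorem DL_eq (r : ℝ) (a b c d : ℂ) : Dl r a b c d =
    (1 - r * (‖a‖ ^ 2 + ‖c‖ ^ 2)) * (1 - r * (‖b‖ ^ 2 + ‖d‖ ^ 2)) -
      ((r * (conj a * b + conj c * d).re) ^ 2 + (r * (conj a * b + conj c * d).im) ^ 2) := by
  simp [Dl, XX, Complex.sq_norm, Complex.normSq_apply]; ring

theorem DL_form (r : ℝ) (a b c d : ℂ) (s t v : ℝ) :
    ‖(⟨s, t⟩ : ℂ)‖ ^ 2 + ‖(v : ℂ)‖ ^ 2 - r * (‖a * ⟨s, t⟩ + b * v‖ ^ 2 + ‖c * ⟨s, t⟩ + d * v‖ ^ 2) =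
    (1 - r * (‖a‖ ^ 2 + ‖c‖ ^ 2)) * (s ^ 2 + t ^ 2) + (1 - r * (‖b‖ ^ 2 + ‖d‖ ^ 2)) * v ^ 2 -
      2 * v * (s * (r * (conj a * b + conj c * d).re) + t * (r * (conj a * b + conj c * d).im)) := by
  simp only [Complex.sq_norm, Complex.normSq_apply]
  simp; ring

theorem DL_cmp {a b c d a' b' c' d' : ℂ} {r r' k : ℝ} (hk : 0 < k)
    (hA : 0 < 1 - r * (‖a‖ ^ 2 + ‖c‖ ^ 2)) (hd : 0 ≤ Dl r a b c d)
    (h : ∀ u v : ℂ, k * (‖u‖ ^ 2 + ‖v‖ ^ 2 - r * (‖a * u + b * v‖ ^ 2 + ‖c * u + d * v‖ ^ 2)) ≤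
      ‖u‖ ^ 2 + ‖v‖ ^ 2 - r' * (‖a' * u + b' * v‖ ^ 2 + ‖c' * u + d' * v‖ ^ 2)) :
    k ^ 2 * Dl r a b c d ≤ Dl r' a' b' c' d' := by
  rw [DL_eq] at hd
  rw [DL_eq, DL_eq]
  exact DL_mono hA hk hd fun s t v => by rw [← DL_form, ← DL_form]; exact h _ _

theorem DL_cvx {ε : ℝ} (h0 : 0 ≤ ε) (h1 : ε < 1) (s t : ℂ) :
    ‖(1 - ε) * s + ε * t‖ ^ 2 ≤ (1 - ε) * ‖s‖ ^ 2 + ε * ‖t‖ ^ 2 := by
  simp only [Complex.sq_norm, Complex.normSq_apply]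
  simp
  nlinarith [mul_nonneg (mul_nonneg h0 (sub_pos.2 h1).le)
    (add_nonneg (sq_nonneg (s.re - t.re)) (sq_nonneg (s.im - t.im)))]

theorem p_DL :
    S_DL := by
  intro a b c d r ε h r0 r1 e0 e1
  have hP : ‖a‖ ^ 2 + ‖c‖ ^ 2 ≤ 1 := by simpa using h 1 0
  have hQ : ‖b‖ ^ 2 + ‖d‖ ^ 2 ≤ 1 := by simpa using h 0 1
  have hA : 0 < 1 - r * (‖a‖ ^ 2 + ‖c‖ ^ 2) := by nlinarith
  have hB : 0 < 1 - r * (‖b‖ ^ 2 + ‖d‖ ^ 2) := by nlinarith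
  have h1 : (1 - r) ^ 2 ≤ Dl r a b c d := by
    have := DL_cmp (a := a) (b := b) (c := c) (d := d) (r := 0) (r' := r) (sub_pos.2 r1) (by simp)
      (by simp [Dl]) fun u v => by nlinarith [mul_le_mul_of_nonneg_left (h u v) r0]
    simpa [Dl] using this
  have hX : XX ((1 - ε) * a + ε) ((1 - ε) * b) ((1 - ε) * c) ((1 - ε) * d + ε) ≤
      (1 - ε) * XX a b c d + 2 * ε := by
    have a1 := DL_cvx e0 e1 a 1
    have a2 := DL_cvx e0 e1 b 0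
    have a3 := DL_cvx e0 e1 c 0
    have a4 := DL_cvx e0 e1 d 1
    simp only [mul_one, mul_zero, add_zero, norm_one, norm_zero, one_pow] at a1 a2 a3 a4
    unfold XX; nlinarith
  have hX0 : 0 ≤ XX a b c d := by unfold XX; positivity
  have hX2 : XX a b c d ≤ 2 := by unfold XX; linarith
  refine ⟨h1, ?_, DL_cmp (sub_pos.2 e1) hA ((sq_nonneg _).trans h1) fun u v => ?_,
    by nlinarith, by nlinarith⟩
  · have a1 := Real.add_one_le_exp (-(r * (‖a‖ ^ 2 + ‖c‖ ^ 2)))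
    have a2 := Real.add_one_le_exp (-(r * (‖b‖ ^ 2 + ‖d‖ ^ 2)))
    have a3 := mul_le_mul a1 a2 (by linarith) (Real.exp_pos _).le
    rw [← Real.exp_add, show -(r * (‖a‖ ^ 2 + ‖c‖ ^ 2)) + -(r * (‖b‖ ^ 2 + ‖d‖ ^ 2)) =
      -(r * XX a b c d) by unfold XX; ring] at a3
    rw [DL_eq]
    nlinarith [sq_nonneg (r * (conj a * b + conj c * d).re),
      sq_nonneg (r * (conj a * b + conj c * d).im)]
  · have a1 := DL_cvx e0 e1 (a * u + b * v) u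
    have a2 := DL_cvx e0 e1 (c * u + d * v) v
    rw [show ((1 - ε) * a + ε) * u + (1 - ε) * b * v = (1 - ε) * (a * u + b * v) + ε * u by ring,
      show (1 - ε) * c * u + ((1 - ε) * d + ε) * v = (1 - ε) * (c * u + d * v) + ε * v by ring]
    nlinarith [mul_le_mul_of_nonneg_left (add_le_add a1 a2) r0,
      mul_nonneg (mul_nonneg e0 (sub_pos.2 r1).le) (add_nonneg (sq_nonneg ‖u‖) (sq_nonneg ‖v‖))]

end Pool.Agent.P.MP_32bf8a_an.VZ
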