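import Pool.Agent.P.MP_32bf8a_an.VZ.Iface

/-! Step DLV. -/

set_option autoImplicit false

namespace Pool.Agent.P.MP_32bf8a_an.VZ

open MeasureTheory Set
open scoped ENNReal Real ComplexConjugate InnerProductSpace

theorem p_DLV :
    S_DLV := by
  intro n x y x' y' c h h' c0 c1 r _ hx
  have e : ∀ u, ⟪x, u⟫_ℂ = ⟪x, x'⟫_ℂ * ⟪x', u⟫_ℂ + ⟪x, y'⟫_ℂ * ⟪y', u⟫_ℂ + ⟪x, r⟫_ℂ * ⟪r, u⟫_ℂ :=
    fun u => by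
      conv_lhs => rw [hx]
      simp only [inner_add_left, inner_smul_left, inner_conj_symm]
  have e1 := e x
  have e2 := e y
  rw [h.xx, ← inner_conj_symm x' x, ← inner_conj_symm y' x, ← inner_conj_symm r x, Complex.mul_conj',
    Complex.mul_conj', Complex.mul_conj'] at e1
  rw [h.2.2, ← inner_conj_symm x' y, ← inner_conj_symm y' y] at e2
  have e3 : ‖⟪x, x'⟫_ℂ * conj ⟪y, x'⟫_ℂ + ⟪x, y'⟫_ℂ * conj ⟪y, y'⟫_ℂ‖ ^ 2 =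
      ‖⟪x, r⟫_ℂ‖ ^ 2 * ‖⟪r, y⟫_ℂ‖ ^ 2 := by
    rw [eq_neg_of_add_eq_zero_left e2.symm, norm_neg, norm_mul, mul_pow]
  simp only [Y3, Dl, XX, inner_zero_left, norm_zero, norm_inner_symm x', norm_inner_symm y']
  generalize ⟪x, x'⟫_ℂ = a, ⟪x, y'⟫_ℂ = b, ⟪y, x'⟫_ℂ = p, ⟪y, y'⟫_ℂ = q at e1 e3
  have e4 : ‖a * q - b * p‖ ^ 2 + ‖a * conj p + b * conj q‖ ^ 2 =
      (‖a‖ ^ 2 + ‖b‖ ^ 2) * (‖p‖ ^ 2 + ‖q‖ ^ 2) := by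
    simp only [Complex.sq_norm, Complex.normSq_apply]; simp; ring
  have e5 : 1 = ‖a‖ ^ 2 + ‖b‖ ^ 2 + ‖⟪x, r⟫_ℂ‖ ^ 2 := by exact_mod_cast e1
  have := mul_nonneg (mul_nonneg c0 (sub_pos.2 c1).le) (sq_nonneg ‖⟪r, y⟫_ℂ‖)
  rw [eq_sub_of_add_eq e4, e3, eq_sub_of_add_eq' e5.symm]
  nlinarith

end Pool.Agent.P.MP_32bf8a_an.VZ
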