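import Pool.Agent.P.MP_32bf8a_an.VZ.Iface

/-! Step EXP. -/

set_option autoImplicit false

namespace Pool.Agent.P.MP_32bf8a_an.VZ

open MeasureTheory Set
open scoped ENNReal Real ComplexConjugate InnerProductSpace

theorem EXP_one (hTILT : S_TILT) {n : ℕ} (w : E n) {c : ℝ} (hw : ‖w‖ ≤ 1) (h0 : 0 ≤ c) (h1 : c < 1)
    (f : E n → ℝ) (hf : Continuous f) (hi : ∀ c' a, f (tl c' w a) = f a) :
    ∫⁻ a, ENNReal.ofReal (Real.exp (f a + c * ‖⟪w, a⟫_ℂ‖ ^ 2)) ∂gm n ≤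
      ENNReal.ofReal (1 - c)⁻¹ * ∫⁻ a, ENNReal.ofReal (Real.exp (f a)) ∂gm n := by
  have h2 : c * ‖w‖ ^ 2 ≤ c := mul_le_of_le_one_right h0 (pow_le_one₀ (norm_nonneg _) hw)
  obtain ⟨c', -, -, h⟩ := hTILT n w (-c) (by linarith)
  have h3 := h (fun a => ENNReal.ofReal (Real.exp (f a))) (by fun_prop)
  simp only [hi, neg_mul, neg_neg] at h3
  simp only [Real.exp_add, ENNReal.ofReal_mul (Real.exp_pos _).le, norm_inner_symm w]
  rw [h3, one_div]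
  gcongr
  linarith

theorem EXP_inv {n : ℕ} {p q : E n} (h : ⟪p, q⟫_ℂ = 0) (c : ℝ) (a : E n) :
    ⟪p, tl c q a⟫_ℂ = ⟪p, a⟫_ℂ := by
  simp [tl, h]

theorem p_EXP (hTILT : S_TILT) :
    S_EXP := by
  intro n p q r c ⟨hp, hq, hr, pq, pr, qr⟩ h0 h1
  have a1 := EXP_one hTILT p hp h0 h1 (fun _ => 0) continuous_const fun _ _ => rfl
  have a2 := EXP_one hTILT q hq h0 h1 (fun a => 0 + c * ‖⟪p, a⟫_ℂ‖ ^ 2) (by fun_prop)
    fun _ _ => by rw [EXP_inv pq]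
  have a3 := EXP_one hTILT r hr h0 h1 (fun a => 0 + c * ‖⟪p, a⟫_ℂ‖ ^ 2 + c * ‖⟪q, a⟫_ℂ‖ ^ 2)
    (by fun_prop) fun _ _ => by rw [EXP_inv pr, EXP_inv qr]
  have e : 0 ≤ (1 - c)⁻¹ := inv_nonneg.2 (by linarith)
  rw [Real.exp_zero, ENNReal.ofReal_one, lintegral_const, measure_univ, mul_one, mul_one] at a1
  simp only [zero_add] at a1 a2 a3
  simp only [Y3, mul_add]
  rw [ENNReal.ofReal_pow e, pow_three]
  exact a3.trans (mul_le_mul_right (a2.trans (mul_le_mul_right a1 _)) _)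

end Pool.Agent.P.MP_32bf8a_an.VZ
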