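import Pool.Agent.P.MP_32bf8a_an.VZ.Iface

/-! Step FIN. -/

set_option autoImplicit false

namespace Pool.Agent.P.MP_32bf8a_an.VZ

open MeasureTheory Set
open scoped ENNReal Real ComplexConjugate InnerProductSpace

theorem p_FIN (hMAIN : S_MAIN) (hC1 : S_C1) (hC2 : S_C2) (hMARG : S_MARG) :
    S_FIN := by
  obtain ⟨C0, h⟩ := hMAIN
  refine ⟨2 * |C0| + 6, fun k n N h2 hk hN => ?_⟩
  have hC := abs_nonneg C0
  have hk0 : (0 : ℝ) < k := by exact_mod_cast (by omega : 0 < k)
  by_cases h5 : k ≤ 5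
  · refine prob_le_one.trans ?_
    rw [← ENNReal.ofReal_one]
    refine ENNReal.ofReal_le_ofReal ((one_le_div hk0).2 ?_)
    have : (k : ℝ) ≤ 5 := by exact_mod_cast h5
    linarith
  by_cases e : n = k
  · subst e
    rw [if_pos rfl] at hN
    obtain ⟨l, s⟩ := hC1 n N (by omega) (by omega)
    refine (measure_mono fun A hA => s A hA).trans
      ((h n n N 0 ⊤ ⊤ id id (by omega) (by omega) (by omega) le_rfl (by positivity) l).trans
        (ENNReal.ofReal_le_ofReal (div_le_div_of_nonneg_right ?_ hk0.le)))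
    linarith [le_abs_self C0]
  · rw [if_neg e] at hN
    obtain ⟨M, rfl⟩ : ∃ M, k = M + 1 := ⟨k - 1, by omega⟩
    obtain ⟨U, U', P, Q, l, s⟩ := hC2 M N (by omega) (by omega)
    have hM : (5 : ℝ) ≤ M := by exact_mod_cast (by omega : 5 ≤ M)
    refine (hMARG (M + 1) (M + 2) n N (by omega)).trans
      ((measure_mono fun A hA => s A hA).trans
      ((h M (M + 2) N _ U U' P Q (by omega) (by omega) (by omega) (by positivity) le_rfl l).trans
        (ENNReal.ofReal_le_ofReal ?_)))
    rw [div_le_div_iff₀ (by linarith) hk0]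
    push_cast
    nlinarith [le_abs_self C0]

end Pool.Agent.P.MP_32bf8a_an.VZ
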