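import Pool.Agent.P.MP_32bf8a_an.VZ.Iface

/-! Step FR. -/

set_option autoImplicit false

namespace Pool.Agent.P.MP_32bf8a_an.VZ

open MeasureTheory Set
open scoped ENNReal Real ComplexConjugate InnerProductSpace

/-- the normalised vector -/
noncomputable def FR_nx {n : ℕ} (g : E n) : E n := ((‖g‖⁻¹ : ℝ) : ℂ) • g

/-- the frame made from two vectors -/
noncomputable def FR_T {n : ℕ} (p : E n × E n) : E n × E n :=
  (FR_nx p.1, FR_nx (p.2 - ⟪FR_nx p.1, p.2⟫_ℂ • FR_nx p.1))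

variable {n : ℕ}

theorem FR_mnx : Measurable (FR_nx (n := n)) :=
  (Complex.measurable_ofReal.comp measurable_norm.inv).smul measurable_id

theorem FR_mT : Measurable (FR_T (n := n)) :=
  have h := FR_mnx.comp (measurable_fst (α := E n) (β := E n))
  h.prodMk (FR_mnx.comp (measurable_snd.sub ((h.inner (𝕜 := ℂ) measurable_snd).smul h)))

theorem FR_norm (g : E n) : ‖FR_nx g‖ = ‖g‖⁻¹ * ‖g‖ := by simp [FR_nx, norm_smul]

theorem FR_unit {g : E n} (h : g ≠ 0) : ‖FR_nx g‖ = 1 := by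
  rw [FR_norm, inv_mul_cancel₀ (norm_ne_zero_iff.2 h)]

theorem FR_Y3 (p q r g : E n) : Y3 p q r (FR_nx g) = Y3 p q r g / ‖g‖ ^ 2 := by
  simp only [Y3, FR_nx, inner_smul_right, norm_mul, Complex.norm_real, norm_inv, norm_norm]
  ring

theorem FR_on {x g : E n} (hx : ‖x‖ = 1) (h : g - ⟪x, g⟫_ℂ • x ≠ 0) :
    ON x (FR_nx (g - ⟪x, g⟫_ℂ • x)) := ⟨hx, FR_unit h, by
  simp [FR_nx, inner_self_eq_norm_sq_to_K, hx]⟩

theorem FR_r {x' y' : E n} (h : ON x' y') (x : E n) : ∃ r, O3 x' y' r ∧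
    x = ⟪x', x⟫_ℂ • x' + ⟪y', x⟫_ℂ • y' + ⟪r, x⟫_ℂ • r := by
  have h1 : ⟪x', pp x' y' x⟫_ℂ = 0 := by
    simp [pp, h.1, h.2.2]
  have h2 : ⟪y', pp x' y' x⟫_ℂ = 0 := by
    simp [pp, h.2.1, h.yx]
  have h3 : x = ⟪x', x⟫_ℂ • x' + ⟪y', x⟫_ℂ • y' + pp x' y' x := by unfold pp; abel
  generalize pp x' y' x = w at h1 h2 h3
  refine ⟨FR_nx w, ⟨h.1.le, h.2.1.le, ?_, h.2.2, ?_, ?_⟩, ?_⟩
  · rw [FR_norm]; exact inv_mul_le_one_of_le₀ le_rfl (norm_nonneg _)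
  · rw [FR_nx, inner_smul_right, h1, mul_zero]
  · rw [FR_nx, inner_smul_right, h2, mul_zero]
  · have h4 : ⟪w, x⟫_ℂ = ((‖w‖ : ℝ) : ℂ) ^ 2 := by
      rw [h3, inner_add_right, inner_add_right, inner_smul_right, inner_smul_right,
        inner_eq_zero_symm.1 h1, inner_eq_zero_symm.1 h2, inner_self_eq_norm_sq_to_K]
      simp
    rcases eq_or_ne w 0 with rfl | hw
    · simpa [FR_nx] using h3
    · have h5 : ((‖w‖ : ℝ) : ℂ) ≠ 0 := by simpa using hw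
      rw [FR_nx, inner_smul_left, h4, smul_smul, Complex.conj_ofReal, Complex.ofReal_inv,
        show ((‖w‖ : ℝ) : ℂ)⁻¹ * ((‖w‖ : ℝ) : ℂ) ^ 2 * ((‖w‖ : ℝ) : ℂ)⁻¹ = 1 by field_simp,
        one_smul]
      exact h3

theorem FR_Q {p q r x : E n} (h : x = ⟪p, x⟫_ℂ • p + ⟪q, x⟫_ℂ • q + ⟪r, x⟫_ℂ • r) (g : E n)
    (a : ℂ) : ‖g - a • x‖ ^ 2 - Y3 p q r (g - a • x) = ‖g‖ ^ 2 - Y3 p q r g := by
  have e : ∀ z : E n, ((‖z‖ ^ 2 : ℝ) : ℂ) = ⟪z, z⟫_ℂ := fun z => by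
    rw [inner_self_eq_norm_sq_to_K]; simp
  have e' : ∀ z : ℂ, ((‖z‖ ^ 2 : ℝ) : ℂ) = conj z * z := fun z => by
    rw [Complex.conj_mul']; simp
  have h1 := fun u : E n => congrArg (fun z => ⟪u, z⟫_ℂ) h
  have h2 := congrArg (fun z => ⟪z, g⟫_ℂ) h
  simp only [inner_add_right, inner_smul_right, inner_add_left, inner_smul_left,
    inner_conj_symm] at h1 h2
  apply Complex.ofReal_injective
  simp only [Y3, Complex.ofReal_sub, Complex.ofReal_add, e, e', inner_sub_left, inner_sub_right,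
    inner_smul_left, inner_smul_right, map_sub, map_mul, inner_conj_symm]
  linear_combination -a * h1 g - conj a * h2 + conj a * a * h1 x

theorem FR_le {p q r x g : E n} (h : x = ⟪p, x⟫_ℂ • p + ⟪q, x⟫_ℂ • q + ⟪r, x⟫_ℂ • r)
    (hx : ‖x‖ = 1) (hg : g - ⟪x, g⟫_ℂ • x ≠ 0) (hY : Y3 p q r g ≤ ‖g‖ ^ 2) :
    Y3 p q r (FR_nx (g - ⟪x, g⟫_ℂ • x)) ≤ Y3 p q r g / ‖g‖ ^ 2 := by
  have h1 := FR_Q h g ⟪x, g⟫_ℂ
  have h2 := FR_Q (p := x) (q := 0) (r := 0) (x := x)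
    (by simp [inner_self_eq_norm_sq_to_K, hx]) g ⟪x, g⟫_ℂ
  have h3 : ⟪x, g - ⟪x, g⟫_ℂ • x⟫_ℂ = 0 := by
    simp [inner_self_eq_norm_sq_to_K, hx]
  simp only [Y3, h3, inner_zero_left, norm_zero] at h2
  have h4 : 0 < ‖g - ⟪x, g⟫_ℂ • x‖ ^ 2 := by positivity
  have h5 : ‖g - ⟪x, g⟫_ℂ • x‖ ^ 2 ≤ ‖g‖ ^ 2 := by nlinarith [sq_nonneg ‖⟪x, g⟫_ℂ‖]
  rw [FR_Y3, div_le_div_iff₀ h4 (h4.trans_le h5)]
  nlinarith [mul_nonneg (sub_nonneg.2 hY) (sub_nonneg.2 h5)]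

theorem FR_ae (hDENS : S_DENS) (hn : 2 ≤ n) (x : E n) : ∀ᵐ g ∂gm n, ∀ a : ℂ, g - a • x ≠ 0 := by
  obtain ⟨μ, h1, h2⟩ := hDENS n
  have h3 := Measure.addHaar_submodule μ ((Submodule.span ℂ {x}).restrictScalars ℝ) fun e => by
    have e1 := finrank_span_le_card (R := ℂ) ({x} : Set (E n))
    rw [(Submodule.restrictScalars_eq_top_iff _ _ _).1 e] at e1
    simp at e1
    omega
  rw [h2]
  refine withDensity_absolutelyContinuous _ _ (measure_mono_null (fun g hg => ?_) h3)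
  obtain ⟨a, ha⟩ : ∃ a : ℂ, g - a • x = 0 := by simpa using hg
  exact Submodule.mem_span_singleton.2 ⟨a, (sub_eq_zero.1 ha).symm⟩

theorem FR_pt (hDLV : S_DLV) {x' y' r g g' : E n} {c : ℝ} (h : ON x' y') (hc : 0 ≤ c) (hc1 : c < 1)
    (hg : ‖FR_nx g‖ = 1) (hg' : g' - ⟪FR_nx g, g'⟫_ℂ • FR_nx g ≠ 0) (r1 : O3 x' y' r)
    (r2 : FR_nx g = ⟪x', FR_nx g⟫_ℂ • x' + ⟪y', FR_nx g⟫_ℂ • y' + ⟪r, FR_nx g⟫_ℂ • r)
    (a1 : Y3 x' y' 0 g ≤ ‖g‖ ^ 2) (b1 : Y3 x' y' r g' ≤ ‖g'‖ ^ 2) :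
    ENNReal.ofReal ((Dl c ⟪(FR_T (g, g')).1, x'⟫_ℂ ⟪(FR_T (g, g')).1, y'⟫_ℂ
      ⟪(FR_T (g, g')).2, x'⟫_ℂ ⟪(FR_T (g, g')).2, y'⟫_ℂ)⁻¹ ^ n) ≤
      ENNReal.ofReal ((1 - c * (Y3 x' y' 0 g / ‖g‖ ^ 2))⁻¹ ^ n) *
        ENNReal.ofReal ((1 - c * (Y3 x' y' r g' / ‖g'‖ ^ 2))⁻¹ ^ n) := by
  have hp : ∀ t : ℝ, t ≤ 1 → 0 < 1 - c * t := fun t ht => by nlinarith
  have c1 := hDLV n _ _ x' y' c (FR_on hg hg') h hc hc1 r r1 r2
  have c2 := FR_le r2 hg hg' b1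
  have c3 := hp _ (div_le_one_of_le₀ a1 (by positivity))
  have c4 := hp _ (div_le_one_of_le₀ b1 (by positivity))
  rw [FR_Y3 x' y' 0] at c1
  rw [← ENNReal.ofReal_mul (by positivity), ← mul_pow, ← mul_inv]
  have c5 := (mul_le_mul_of_nonneg_left (sub_le_sub_left (mul_le_mul_of_nonneg_left c2 hc) 1)
    c3.le).trans c1
  have c6 := mul_pos c3 c4
  exact ENNReal.ofReal_le_ofReal
    (pow_le_pow_left₀ (inv_nonneg.2 (c6.le.trans c5)) (inv_anti₀ c6 c5) _)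

theorem p_FR (hDENS : S_DENS) (hANG : S_ANG) (hDLV : S_DLV) :
    S_FR := by
  intro M hM
  have h0 : ∀ᵐ g ∂gm M, ‖FR_nx g‖ = 1 :=
    (FR_ae hDENS hM 0).mono fun g h => FR_unit (by simpa using h 0)
  have hm : MeasurableSet {p : E M × E M | ON p.1 p.2} :=
    (measurableSet_eq_fun measurable_fst.norm measurable_const).inter
      ((measurableSet_eq_fun measurable_snd.norm measurable_const).inter
      (measurableSet_eq_fun (measurable_fst.inner (𝕜 := ℂ) measurable_snd) measurable_const))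
  have h1 : ∀ᵐ p ∂(gm M).prod (gm M), ON (FR_T p).1 (FR_T p).2 :=
    (Measure.ae_prod_mem_iff_ae_ae_mem (FR_mT hm)).2 (h0.mono fun g h =>
      (FR_ae hDENS hM (FR_nx g)).mono fun g' h' => FR_on h (h' ⟪FR_nx g, g'⟫_ℂ))
  refine ⟨((gm M).prod (gm M)).map FR_T, Measure.isProbabilityMeasure_map FR_mT.aemeasurable,
    (ae_map_iff FR_mT.aemeasurable hm).2 h1, fun x' y' c h hc hc1 => ?_⟩
  have hO : O3 x' y' 0 := ⟨h.1.le, h.2.1.le, by simp, h.2.2, by simp, by simp⟩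
  obtain ⟨a1, a2⟩ := hANG M x' y' 0 c (by omega) hO hc hc1
  refine (lintegral_map_le _ _).trans ((lintegral_prod_le _).trans ((lintegral_mono_ae
    (g := fun g => ENNReal.ofReal ((1 - c * (Y3 x' y' 0 g / ‖g‖ ^ 2))⁻¹ ^ M) *
      ENNReal.ofReal ((1 - c)⁻¹ ^ 3)) (h0.mono fun g hg => ?_)).trans ?_))
  · obtain ⟨r, r1, r2⟩ := FR_r h (FR_nx g)
    obtain ⟨b1, b2⟩ := hANG M x' y' r c (by omega) r1 hc hc1
    refine le_trans ?_ (mul_le_mul_right b2 _)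
    rw [← lintegral_const_mul' _ _ ENNReal.ofReal_ne_top]
    exact lintegral_mono_ae ((FR_ae hDENS hM (FR_nx g)).mono fun g' hg' =>
      FR_pt hDLV h hc hc1 hg (hg' _) r1 r2 (a1 g) (b1 g'))
  · have c1 := sub_pos.2 hc1
    rw [lintegral_mul_const' _ _ ENNReal.ofReal_ne_top, show 6 = 3 + 3 from rfl, pow_add,
      ENNReal.ofReal_mul (by positivity)]
    exact mul_le_mul_left a2 _

end Pool.Agent.P.MP_32bf8a_an.VZ
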