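import Pool.Agent.P.MP_32bf8a_an.VZ.Iface

/-! Step FUB. -/

set_option autoImplicit false

namespace Pool.Agent.P.MP_32bf8a_an.VZ

open MeasureTheory Set
open scoped ENNReal Real ComplexConjugate InnerProductSpace

theorem p_FUB :
    S_FUB := by
  intro n N f hf
  have h1 : ∫⁻ A, ∏ j, f (A j) ∂gN N n = (∫⁻ a, f a ∂gm n) ^ N := by
    have := ProbabilityTheory.lintegral_prod_eq_prod_lintegral_of_indepFun (μ := gN N n)
      Finset.univ (fun (j : Fin N) (A : Fin N → E n) => f (A j))
      (ProbabilityTheory.iIndepFun_pi (X := fun _ => f) fun _ => hf.aemeasurable)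
      (fun j => hf.comp (measurable_pi_apply j))
    refine this.trans ((Finset.prod_congr rfl (g := fun _ => ∫⁻ a, f a ∂gm n) fun j _ =>
      (measurePreserving_eval (fun _ : Fin N => gm n) j).lintegral_comp hf).trans ?_)
    simp
  refine ⟨h1, fun j B β h hB hβ => ?_⟩
  have hm : Measurable fun A : Fin N → E n => ∏ i, f (A i) :=
    Finset.measurable_prod _ fun i _ => hf.comp (measurable_pi_apply i)
  have hu : ∀ (A : Fin N → E n) (a : E n), ∏ i, f (Function.update A j a i) =
      (∏ i ∈ Finset.univ.erase j, f (A i)) * f a := by
    intro A a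
    rw [← Finset.prod_erase_mul _ _ (Finset.mem_univ j), Function.update_self]
    congr 1
    exact Finset.prod_congr rfl fun i hi => by
      rw [Function.update_of_ne (Finset.ne_of_mem_erase hi)]
  rw [← lintegral_indicator hB]
  refine (lintegral_le_of_lmarginal_le (g := fun A => β * ∏ i, f (A i)) {j} (hm.indicator hB)
    (hm.const_mul β) ?_).trans ?_
  · rw [lmarginal_singleton, lmarginal_singleton]
    intro A
    have hS : MeasurableSet {a | Function.update A j a ∈ B} := measurable_update A hB
    have e1 : ∀ a, B.indicator (fun A : Fin N → E n => ∏ i, f (A i)) (Function.update A j a) =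
        (∏ i ∈ Finset.univ.erase j, f (A i)) * {a | Function.update A j a ∈ B}.indicator f a := by
      intro a
      by_cases ha : Function.update A j a ∈ B
      · rw [indicator_of_mem ha, indicator_of_mem (by exact ha), hu]
      · rw [indicator_of_notMem ha, indicator_of_notMem (by exact ha), mul_zero]
    simp only [e1, hu, ← mul_assoc]
    rw [lintegral_const_mul _ (hf.indicator hS), lintegral_const_mul _ hf, lintegral_indicator hS, h,
      mul_one, mul_comm β]
    exact mul_le_mul_right (hβ A) _
  · rw [lintegral_const_mul _ hm]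
    unfold gN at h1
    rw [h1, h, one_pow, mul_one]

end Pool.Agent.P.MP_32bf8a_an.VZ
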