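import Pool.Agent.P.MP_32bf8a_an.VZ.Iface

/-! Step GT. -/

set_option autoImplicit false

namespace Pool.Agent.P.MP_32bf8a_an.VZ

open MeasureTheory Set
open scoped ENNReal Real ComplexConjugate InnerProductSpace

theorem GT_psi {n : ℕ} {w v w' v' : E n} (h : ON w v) (h' : ON w' v') {q : ℝ} (h0 : 0 ≤ q)
    (h1 : q < 1) : 0 < 1 - ‖(q : ℂ) * ⟪w, w'⟫_ℂ‖ ^ 2 ∧
      0 ≤ Psi (q * ⟪w, w'⟫_ℂ) (q * ⟪w, v'⟫_ℂ) (q * ⟪v, w'⟫_ℂ) (q * ⟪v, v'⟫_ℂ) := by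
  have b1 := h.bessel w'
  have b2 := h'.bessel w
  rw [h'.1] at b1
  rw [h.1, norm_inner_symm w' w, norm_inner_symm v' w] at b2
  have e : ∀ z : ℂ, ‖(q : ℂ) * z‖ ^ 2 = q ^ 2 * ‖z‖ ^ 2 := fun z => by
    rw [norm_mul, Complex.norm_real, Real.norm_of_nonneg h0, mul_pow]
  have hq : q ^ 2 < 1 := by nlinarith
  have k : ∀ s t : ℝ, 0 ≤ s → 0 ≤ t → s + t ≤ 1 → 0 < 1 - q ^ 2 * s - q ^ 2 * t := by
    intro s t hs ht hst
    nlinarith [sq_nonneg q]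
  have k1 := k (‖⟪w, w'⟫_ℂ‖ ^ 2) (‖⟪v, w'⟫_ℂ‖ ^ 2) (by positivity) (by positivity)
    (by nlinarith [sq_nonneg ‖pp w v w'‖])
  have k2 := k (‖⟪w, w'⟫_ℂ‖ ^ 2) (‖⟪w, v'⟫_ℂ‖ ^ 2) (by positivity) (by positivity)
    (by nlinarith [sq_nonneg ‖pp w' v' w‖])
  have k3 : 0 < 1 - ‖(q : ℂ) * ⟪w, w'⟫_ℂ‖ ^ 2 := by
    rw [e]
    nlinarith [mul_nonneg (sq_nonneg q) (sq_nonneg ‖⟪v, w'⟫_ℂ‖)]
  refine ⟨k3, div_nonneg (add_nonneg (mul_nonneg ?_ ?_) (sq_nonneg _)) (pow_pos k3 3).le⟩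
  · rw [e, e]; exact k2.le
  · rw [e, e]; exact k1.le

theorem GT_tt {n : ℕ} (x y x' y' : E n) (q u v : ℂ) : q * ⟪wv x y u, wv x' y' v⟫_ℂ =
    tt (q * ⟪x, x'⟫_ℂ) (q * ⟪x, y'⟫_ℂ) (q * ⟪y, x'⟫_ℂ) (q * ⟪y, y'⟫_ℂ) u v := by
  rw [inner_wv, tt, tt]
  ring

theorem p_GT (hTWO : S_TWO) (hROW : S_ROW) :
    S_GT := by
  intro n x y κ h hκ
  refine ⟨?_, fun x' y' q h' hq => ?_⟩
  · unfold GG
    rw [lintegral_lintegral_swap (continuous_gk' κ x y).measurable.ennreal_ofReal.aemeasurable]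
    simp only [(hROW n _ _ κ (h.wv (norm_ex _)) hκ).1, lintegral_const, measure_univ, mul_one]
  have h0 : 0 ≤ q := by rw [hq]; positivity
  have h1 : q < 1 := by rw [hq, div_lt_one (by positivity)]; linarith
  have hp := fun θ φ : ℝ => GT_psi (h.wv (norm_ex θ)) (h'.wv (norm_ex φ)) h0 h1
  have ht := fun θ φ : ℝ => hTWO n _ _ _ _ κ q (h.wv (norm_ex θ)) (h'.wv (norm_ex φ)) hκ hq
  simp only [GT_tt] at hp ht
  generalize (q : ℂ) * ⟪x, x'⟫_ℂ = a at *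
  generalize (q : ℂ) * ⟪x, y'⟫_ℂ = b at *
  generalize (q : ℂ) * ⟪y, x'⟫_ℂ = c at *
  generalize (q : ℂ) * ⟪y, y'⟫_ℂ = d at *
  have hc : Continuous fun p : ℝ × ℝ => Ps a b c d (ex p.1) (ex p.2) := by
    unfold Ps Psi
    refine Continuous.div ?_ ?_ fun p => (pow_pos (hp p.1 p.2).1 3).ne'
    · unfold tt; fun_prop
    · unfold tt; fun_prop
  have hi := integrable_um2 hc
  refine ⟨integral_nonneg fun θ => integral_nonneg fun φ => (hp θ φ).2, ?_⟩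
  have m1 := (continuous_gk' κ x y).measurable.ennreal_ofReal
  have m2 := (continuous_gk' κ x' y').measurable.ennreal_ofReal
  have e : ∀ z : E n, GG κ x y z * GG κ x' y' z = ∫⁻ p : ℝ × ℝ,
      ENNReal.ofReal (gk κ (wv x y (ex p.1)) (wv x y (-ex p.1)) z) *
        ENNReal.ofReal (gk κ (wv x' y' (ex p.2)) (wv x' y' (-ex p.2)) z) ∂um.prod um := fun z =>
    (lintegral_prod_mul (m1.comp measurable_prodMk_left).aemeasurable
      (m2.comp measurable_prodMk_left).aemeasurable).symm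
  simp only [e]
  rw [lintegral_lintegral_swap ((m1.comp (measurable_fst.prodMk measurable_snd.fst)).mul
    (m2.comp (measurable_fst.prodMk measurable_snd.snd))).aemeasurable]
  simp only [ht]
  rw [rho, ← integral_prod _ hi,
    ofReal_integral_eq_lintegral_ofReal hi (.of_forall fun p => (hp p.1 p.2).2)]
  rfl

end Pool.Agent.P.MP_32bf8a_an.VZ
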