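import Pool.Agent.P.MP_32bf8a_an.VZ.Iface

/-! Step LIN. -/

set_option autoImplicit false

namespace Pool.Agent.P.MP_32bf8a_an.VZ

open MeasureTheory Set
open scoped ENNReal Real ComplexConjugate InnerProductSpace

theorem p_LIN (hDENS : S_DENS) :
    S_LIN := by
  intro n S φ hφ h
  obtain ⟨μ, hμ, e⟩ := hDENS n
  have hS : Measurable S := S.toLinearMap.continuous_of_finiteDimensional.measurable
  have hS' : Measurable S.symm := S.symm.toLinearMap.continuous_of_finiteDimensional.measurable
  obtain ⟨c, hm⟩ : ∃ c : ℝ≥0∞, μ.map S.symm = c • μ :=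
    ⟨_, Measure.map_linearMap_addHaar_eq_smul_addHaar μ
      (f := (S.symm.restrictScalars ℝ).toLinearMap) (S.symm.restrictScalars ℝ).isUnit_det'.ne_zero⟩
  have hd : Measurable fun a : E n => ENNReal.ofReal (Real.exp (-‖a‖ ^ 2)) := by fun_prop
  refine ⟨c, fun F hF => ?_⟩
  rw [e, lintegral_withDensity_eq_lintegral_mul _ hd (by fun_prop),
    lintegral_withDensity_eq_lintegral_mul _ hd (by fun_prop), ← smul_eq_mul c,
    ← lintegral_smul_measure, ← hm, lintegral_map (by fun_prop) hS']
  refine lintegral_congr fun a => ?_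
  simp only [Pi.mul_apply, h a, LinearEquiv.apply_symm_apply, neg_add, Real.exp_add,
    ENNReal.ofReal_mul (Real.exp_pos _).le]
  ring

end Pool.Agent.P.MP_32bf8a_an.VZ
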