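import Pool.Agent.P.MP_32bf8a_an.VZ.Iface

/-! Step MAIN. -/

set_option autoImplicit false

namespace Pool.Agent.P.MP_32bf8a_an.VZ

open MeasureTheory Set
open scoped ENNReal Real ComplexConjugate InnerProductSpace

theorem MAIN_on {M n N : ℕ} {ε : ℝ} {U U' : Submodule ℂ (E n)} {P Q : E M → E n}
    (h : Lift M n N ε U U' P Q) {x y : E M} (o : ON x y) : ON (P x) (Q y) :=
  ⟨norm_of_inner (by rw [h.PP, o.xx]; ring), norm_of_inner (by rw [h.QQ, o.yy]; ring),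
    by rw [h.PQ, o.2.2, mul_zero]⟩

theorem p_MAIN (hSEC : S_SEC) (hNUM : S_NUM) (hGT : S_GT) (hFUB : S_FUB) (hCL : S_CL) (hBAD : S_BAD) (hNEWT : S_NEWT) (hPZ : S_PZ) :
    S_MAIN := by
  obtain ⟨C, hC⟩ := hNUM
  refine ⟨C, fun M n N ε U U' P Q hM hn hN e0 e1 h => ?_⟩
  obtain ⟨κ, η, τ, t, L, δ, k0, η0, τ0, τ1, t0, L0, δ0, a1, a2, b0, hb⟩ := hC M n N hM hn hN
  obtain ⟨ν, hν, hae, h2⟩ := hSEC M n N ε κ U U' P Q hM hN e0 e1 k0 h
  have M0 : (0 : ℝ) < M := Nat.cast_pos.2 (by omega)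
  obtain ⟨K, hK⟩ : ∃ K : (Fin N → E n) × E n × E n → ℝ≥0∞,
      ∀ A x y, K (A, x, y) = ∏ j, GG κ x y (A j) :=
    ⟨fun p => ∏ j, GG κ p.2.1 p.2.2 (p.1 j), fun _ _ _ => rfl⟩
  have hK' : ∀ A (p : E n × E n), K (A, p) = ∏ j, GG κ p.1 p.2 (A j) := fun A p => hK A p.1 p.2
  have mK : Measurable K := by
    rw [show K = fun p => ∏ j, GG κ p.2.1 p.2.2 (p.1 j) from funext fun p => hK' p.1 p.2]
    refine Finset.measurable_prod _ fun j _ => ?_
    have : Measurable fun p : (Fin N → E n) × E n × E n => (p.1 j, p.2) := by fun_prop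
    exact ((measurable_GG κ).comp this :)
  obtain ⟨B, hB⟩ : ∃ B : Set ((Fin N → E n) × E n × E n), B = (Good U U' L δ t⁻¹)ᶜ := ⟨_, rfl⟩
  have mB : MeasurableSet B := hB ▸ (hCL n N U U' L δ t⁻¹).2.measurableSet.compl
  refine (hPZ n N ν K B {A | ¬ Col U U' A} (128000 / M + 2 * (97 / 100) ^ M * (1 + κ) ^ 8)
    (N * bt n κ η τ (1 / (2 * M)) t L δ) hν mK mB (by positivity)
    (by positivity) ?_ (by simpa only [hK'] using h2) ?_ fun A hA => ?_).trans
    (ENNReal.ofReal_le_ofReal hb)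
  · refine hae {p | ∫⁻ A, K (A, p) ∂gN N n = 1}
      (measurableSet_eq_fun mK.lintegral_prod_left' measurable_const) fun x y o => ?_
    simp only [mem_ofPred_eq, hK]
    rw [(hFUB n N _ (measurable_GG' κ _ _)).1, (hGT n _ _ κ (MAIN_on h o) k0).1, one_pow]
  · have e : ∀ p : E n × E n, ∫⁻ A in {A | (A, p) ∈ B}, K (A, p) ∂gN N n =
        ∫⁻ A, B.indicator K (A, p) ∂gN N n := fun p =>
      (lintegral_indicator (measurable_prodMk_right mB) fun A => K (A, p)).symm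
    simp only [e]
    refine hae {p | ∫⁻ A, B.indicator K (A, p) ∂gN N n ≤ _}
      (measurableSet_le (mK.indicator mB).lintegral_prod_left' measurable_const) fun x y o => ?_
    rw [mem_ofPred_eq, ← e, hB]
    simp only [hK]
    exact hBAD n N U U' _ _ κ η τ _ t L δ (MAIN_on h o) (h.dir x y o) k0 η0 τ0 τ1 (by positivity)
      t0 L0 δ0
  · refine hae {p | (A, p) ∈ B} (measurable_prodMk_left mB) fun x y o => ?_
    rw [hB]
    exact fun g => hA (hNEWT n N U U' _ _ A L δ t⁻¹ (MAIN_on h o) (h.hP x) (h.hQ y) δ0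
      (by positivity) a1 a2 g)

end Pool.Agent.P.MP_32bf8a_an.VZ
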