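import Pool.Agent.P.MP_32bf8a_an.VZ.Iface

/-! Step MARG. -/

set_option autoImplicit false

namespace Pool.Agent.P.MP_32bf8a_an.VZ

open MeasureTheory Set
open scoped ENNReal Real ComplexConjugate InnerProductSpace

/-- forget the first coordinate -/
def MARG_tl {n : ℕ} (a : E (n + 1)) : E n := WithLp.toLp 2 fun i => a i.succ

/-- extend by zero -/
def MARG_ex {n : ℕ} (x : E n) : E (n + 1) := WithLp.toLp 2 (Fin.cons 0 x.ofLp)

theorem MARG_mp (n : ℕ) : MeasurePreserving MARG_tl (gm (n + 1)) (gm n) := by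
  have h1 := (measurePreserving_snd (μ := cg)).comp
    (measurePreserving_piFinSuccAbove (fun _ : Fin (n + 1) => cg) 0)
  have h2 : MeasurePreserving (WithLp.toLp 2) (Measure.pi fun _ : Fin n => cg) (gm n) :=
    ⟨measurable_toLp, rfl⟩
  have m : Measurable (MARG_tl (n := n)) :=
    measurable_toLp.comp (measurable_pi_lambda _ fun i => by fun_prop)
  exact ⟨m, by rw [gm, Measure.map_map m measurable_toLp]; exact (h2.comp h1).map_eq⟩

theorem MARG_card {n : ℕ} (x : E n) : (Finset.univ.filter fun i => MARG_ex x i ≠ 0).card =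
    (Finset.univ.filter fun i => x i ≠ 0).card := by
  rw [Finset.card_filter, Finset.card_filter, Fin.sum_univ_succ,
    if_neg (not_not.2 (show MARG_ex x 0 = 0 from rfl)), zero_add]
  rfl

theorem MARG_inner {n : ℕ} (a : E (n + 1)) (x : E n) :
    inner ℂ a (MARG_ex x) = inner ℂ (MARG_tl a) x := by
  simp [PiLp.inner_apply, Fin.sum_univ_succ, MARG_ex, MARG_tl]

theorem MARG_step (k n N : ℕ) : gN N (n + 1) {A | SPR k A} ≤ gN N n {A | SPR k A} := by
  have h := measurePreserving_pi _ _ fun _ : Fin N => MARG_mp n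
  rw [gN, gN, ← h.map_eq]
  refine le_trans (measure_mono ?_) (Measure.le_map_apply h.measurable.aemeasurable _)
  intro A hA x y hx hy e
  obtain ⟨c, h1, h2⟩ := hA (MARG_ex x) (MARG_ex y) (by rwa [MARG_card]) (by rwa [MARG_card])
    fun j => by rw [MARG_inner, MARG_inner]; exact e j
  exact ⟨c, h1, congrArg MARG_tl h2⟩

theorem p_MARG :
    S_MARG := by
  intro k m n N h
  induction n, h using Nat.le_induction with
  | base => exact le_rfl
  | succ n _ ih => exact (MARG_step k n N).trans ih

end Pool.Agent.P.MP_32bf8a_an.VZ
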