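import Pool.Agent.P.MP_32bf8a_an.VZ.Iface

/-! Step MOM. -/

set_option autoImplicit false

namespace Pool.Agent.P.MP_32bf8a_an.VZ

open MeasureTheory Set
open scoped ENNReal Real ComplexConjugate InnerProductSpace

theorem MOM_law (hSPL : S_SPL) {n : ℕ} (u : E n) (φ : ℝ → ℝ) (hφ : Continuous φ) :
    ∫⁻ a, ENNReal.ofReal (φ ‖⟪a, u⟫_ℂ‖) ∂gm n = ∫⁻ z, ENNReal.ofReal (φ (‖u‖ * ‖z‖)) ∂cg := by
  by_cases hu : u = 0
  · simp [hu]
  have h0 : ‖u‖ ≠ 0 := norm_ne_zero_iff.2 hu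
  obtain ⟨e, he, hue⟩ : ∃ e : E n, ‖e‖ = 1 ∧ u = (‖u‖ : ℂ) • e :=
    ⟨(‖u‖ : ℂ)⁻¹ • u, by simp [norm_smul, h0], by
      rw [smul_inv_smul₀ (Complex.ofReal_ne_zero.2 h0)]⟩
  have ee : ⟪e, e⟫_ℂ = 1 := by rw [inner_self_eq_norm_sq_to_K, he]; simp
  rw [hSPL n e he _ (Measurable.ennreal_ofReal (Continuous.measurable (by fun_prop)))]
  have : ∀ (a : E n) (z : ℂ), ‖⟪a - ⟪e, a⟫_ℂ • e + z • e, u⟫_ℂ‖ = ‖u‖ * ‖z‖ := fun a z => by
    have : ⟪a - ⟪e, a⟫_ℂ • e + z • e, e⟫_ℂ = conj z := by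
      simp only [inner_add_left, inner_sub_left, inner_smul_left, ee, inner_conj_symm]
      ring
    conv_lhs => rw [hue, inner_smul_right, this]
    simp
  simp only [this, lintegral_const, measure_univ, mul_one]

theorem p_MOM (hSPL : S_SPL) (hCG : S_CG) :
    S_MOM := by
  intro n u
  refine ⟨?_, ?_, fun κ hκ => ?_⟩
  · rw [MOM_law hSPL u (fun r => r ^ 2) (by fun_prop)]
    simp only [mul_pow, ENNReal.ofReal_mul (sq_nonneg ‖u‖)]
    rw [lintegral_const_mul _ (by fun_prop), hCG.2.1, mul_one]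
  · rw [MOM_law hSPL u (fun r => r ^ 4) (by fun_prop)]
    simp only [mul_pow, ENNReal.ofReal_mul (show 0 ≤ ‖u‖ ^ 4 by positivity)]
    rw [lintegral_const_mul _ (by fun_prop), hCG.2.2, ENNReal.ofReal_mul zero_le_two, mul_comm]
    simp
  · rw [MOM_law hSPL u (fun r => Real.exp (-(κ * r ^ 2))) (by fun_prop), ← hCG.1 _ hκ]
    simp only [mul_pow, mul_assoc]

end Pool.Agent.P.MP_32bf8a_an.VZ
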