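import Pool.Agent.P.MP_32bf8a_an.VZ.Iface

/-! Step NEWT. -/

set_option autoImplicit false

namespace Pool.Agent.P.MP_32bf8a_an.VZ

open MeasureTheory Set
open scoped ENNReal Real ComplexConjugate InnerProductSpace

noncomputable def NEWT_L {n N : ℕ} (h : Fin N → E n) (z : Fin N → ℝ) : E n :=
  ∑ j, (z j : ℂ) • h j

theorem NEWT_sub {n N : ℕ} (h : Fin N → E n) (z z' : Fin N → ℝ) :
    NEWT_L h z - NEWT_L h z' = NEWT_L h (z - z') := by
  simp [NEWT_L, sub_smul, Finset.sum_sub_distrib]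

theorem NEWT_norm {n N : ℕ} {h : Fin N → E n} {R : ℝ} (hR : ∀ j, ‖h j‖ ≤ R) (z : Fin N → ℝ) :
    ‖NEWT_L h z‖ ≤ N * R * ‖z‖ := by
  refine (norm_sum_le _ _).trans ((Finset.sum_le_card_nsmul _ _ (R * ‖z‖) fun j _ => ?_).trans_eq
    (by simp [mul_assoc]))
  rw [norm_smul, Complex.norm_real, mul_comm]
  exact mul_le_mul (hR j) (norm_le_pi_norm z j) (norm_nonneg _) ((norm_nonneg _).trans (hR j))

theorem NEWT_inner {n N : ℕ} {h : Fin N → E n} {R L : ℝ} (hR : ∀ j, ‖h j‖ ≤ R) {a : E n}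
    (ha : ‖a‖ ≤ L) (z : Fin N → ℝ) : ‖⟪a, NEWT_L h z⟫_ℂ‖ ≤ L * N * R * ‖z‖ :=
  (norm_inner_le_norm _ _).trans ((mul_le_mul ha (NEWT_norm hR z) (norm_nonneg _)
    ((norm_nonneg _).trans ha)).trans_eq (by ring))

theorem NEWT_sq {n N : ℕ} {h : Fin N → E n} {R L r : ℝ} (hR : ∀ j, ‖h j‖ ≤ R) {a : E n}
    (ha : ‖a‖ ≤ L) (hm : 0 ≤ L * N * R) {z z' : Fin N → ℝ} (hz : ‖z‖ ≤ r) (hz' : ‖z'‖ ≤ r) :
    |‖⟪a, NEWT_L h z⟫_ℂ‖ ^ 2 - ‖⟪a, NEWT_L h z'⟫_ℂ‖ ^ 2| ≤
      2 * (L * N * R) ^ 2 * r * ‖z - z'‖ := by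
  have h1 := (NEWT_inner hR ha z).trans (mul_le_mul_of_nonneg_left hz hm)
  have h2 := (NEWT_inner hR ha z').trans (mul_le_mul_of_nonneg_left hz' hm)
  have h3 := NEWT_inner hR ha (z - z')
  rw [← NEWT_sub, inner_sub_right] at h3
  have h4 := (abs_norm_sub_norm_le _ _).trans h3
  rw [sq_sub_sq, abs_mul, abs_of_nonneg (by positivity)]
  refine (mul_le_mul (add_le_add h1 h2) h4 (abs_nonneg _) ?_).trans_eq (by ring)
  exact (add_nonneg (norm_nonneg _) (norm_nonneg _)).trans (add_le_add h1 h2)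

theorem NEWT_HH {n N : ℕ} (x y a : E n) (h g : Fin N → E n) (z : Fin N → ℝ) :
    HH x (NEWT_L h z) y (NEWT_L g z) a = ∑ j, z j * HH x (h j) y (g j) a := by
  simp only [HH, NEWT_L, inner_sum, inner_smul_right, Finset.mul_sum, Complex.re_sum,
    ← Finset.sum_sub_distrib]
  refine Finset.sum_congr rfl fun j _ => ?_
  simp only [Complex.mul_re, Complex.mul_im, Complex.ofReal_re, Complex.ofReal_im]
  ring

theorem NEWT_exp {n : ℕ} (x y h g a : E n) :
    ff (x + h) (y + g) a = ff x y a + HH x h y g a + ff h g a := by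
  simp only [ff, HH, inner_add_right, Complex.sq_norm, Complex.normSq_apply, Complex.add_re,
    Complex.add_im, Complex.mul_re, Complex.conj_re, Complex.conj_im]
  ring

theorem p_NEWT :
    S_NEWT := by
  intro n N U U' x y A L δ R hON hx hy hδ hR h16 h4 hG
  choose hL hf hI using hG
  choose h hU g hU' hh hg hH using hI
  simp only at hL hf hH
  have hm : ∀ i : Fin N, 0 ≤ L * N * R := fun i =>
    mul_nonneg (mul_nonneg ((norm_nonneg _).trans (hL i)) (Nat.cast_nonneg _)) hR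
  set Φ : (Fin N → ℝ) → Fin N → ℝ := fun z i =>
    -ff x y (A i) - ff (NEWT_L h z) (NEWT_L g z) (A i) with hΦ
  have hlip : ∀ z z' : Fin N → ℝ, ‖z‖ ≤ 2 * δ → ‖z'‖ ≤ 2 * δ → ‖Φ z - Φ z'‖ ≤ 1 / 2 * ‖z - z'‖ := by
    intro z z' hz hz'
    refine (pi_norm_le_iff_of_nonneg (by positivity)).2 fun i => ?_
    have h1 := abs_le.1 (NEWT_sq hh (hL i) (hm i) hz hz')
    have h2 := abs_le.1 (NEWT_sq hg (hL i) (hm i) hz hz')
    have h3 : 2 * (L * N * R) ^ 2 * (2 * δ) * ‖z - z'‖ ≤ 1 / 4 * ‖z - z'‖ :=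
      mul_le_mul_of_nonneg_right (by nlinarith) (norm_nonneg _)
    simp only [hΦ, ff, Pi.sub_apply, Real.norm_eq_abs, abs_le]
    constructor <;> linarith [h1.1, h1.2, h2.1, h2.2]
  have h0 : ‖Φ 0‖ ≤ δ := by
    refine (pi_norm_le_iff_of_nonneg hδ.le).2 fun i => ?_
    have := hf i
    simpa [hΦ, ff, NEWT_L, abs_sub_comm] using this
  have hmaps : MapsTo Φ (Metric.closedBall 0 (2 * δ)) (Metric.closedBall 0 (2 * δ)) := by
    intro z hz
    rw [mem_closedBall_zero_iff] at hz ⊢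
    have h1 := hlip z 0 hz (by simp; positivity)
    have h2 := norm_add_le (Φ z - Φ 0) (Φ 0)
    rw [sub_add_cancel] at h2
    rw [sub_zero] at h1
    linarith
  have hc : ContractingWith (1 / 2) (hmaps.restrict Φ _ _) := by
    refine ⟨by norm_num, LipschitzWith.of_dist_le_mul fun z z' => ?_⟩
    have := hlip z z' (mem_closedBall_zero_iff.1 z.2) (mem_closedBall_zero_iff.1 z'.2)
    simpa [Subtype.dist_eq, dist_eq_norm] using this
  obtain ⟨z, hz, hfix, -⟩ := hc.exists_fixedPoint' Metric.isClosed_closedBall.isComplete hmaps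
    (x := 0) (Metric.mem_closedBall_self (by positivity)) (edist_ne_top _ _)
  rw [mem_closedBall_zero_iff] at hz
  refine ⟨x + NEWT_L h z, U.add_mem hx (U.sum_mem fun j _ => U.smul_mem _ (hU j)),
    y + NEWT_L g z, U'.add_mem hy (U'.sum_mem fun j _ => U'.smul_mem _ (hU' j)), fun i => ?_, ?_⟩
  · have h1 := NEWT_exp x y (NEWT_L h z) (NEWT_L g z) (A i)
    have h2 : Φ z i = z i := congrFun hfix i
    rw [NEWT_HH] at h1
    simp only [hH, mul_ite, mul_one, mul_zero, Finset.sum_ite_eq, Finset.mem_univ, if_true] at h1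
    simp only [hΦ] at h2
    have h3 : ff (x + NEWT_L h z) (y + NEWT_L g z) (A i) = 0 := by linarith
    rw [ff, sub_eq_zero] at h3
    exact (pow_left_inj₀ (norm_nonneg _) (norm_nonneg _) two_ne_zero).1 h3
  · rintro ⟨c, hc1, e⟩
    have e1 : x - c • y = c • NEWT_L g z - NEWT_L h z := by
      rw [smul_add] at e
      linear_combination (norm := module) e
    have h1 : ⟪x, x - c • y⟫_ℂ = 1 := by
      rw [inner_sub_right, inner_smul_right, hON.xx, hON.2.2]; simp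
    have h2 := norm_inner_le_norm (𝕜 := ℂ) x (x - c • y)
    rw [h1, hON.1, e1, norm_one, one_mul] at h2
    have h3 := norm_sub_le (c • NEWT_L g z) (NEWT_L h z)
    rw [norm_smul, hc1, one_mul] at h3
    have hNR : 0 ≤ (N : ℝ) * R := by positivity
    have h5 := (NEWT_norm hh z).trans (mul_le_mul_of_nonneg_left hz hNR)
    have h6 := (NEWT_norm hg z).trans (mul_le_mul_of_nonneg_left hz hNR)
    linarith

end Pool.Agent.P.MP_32bf8a_an.VZ
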