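import Pool.Agent.P.MP_32bf8a_an.VZ.Iface

/-! Step NUM. -/

set_option autoImplicit false

namespace Pool.Agent.P.MP_32bf8a_an.VZ

open MeasureTheory Set
open scoped ENNReal Real ComplexConjugate InnerProductSpace

theorem NUM_bdd : ∃ B : ℝ, ∀ M : ℕ, (M : ℝ) ^ 481 * (97 / 100) ^ M ≤ B := by
  have h := tendsto_pow_const_mul_const_pow_of_abs_lt_one 481 (r := (97 / 100 : ℝ))
    (by rw [abs_of_pos] <;> norm_num)
  obtain ⟨B, hB⟩ := h.bddAbove_range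
  exact ⟨B, fun M => hB ⟨M, rfl⟩⟩

theorem NUM_bt (n : ℕ) (m : ℝ) (hm : 0 < m) (hn : (n : ℝ) ≤ 3 * m) :
    0 ≤ bt n (160000 * m ^ 60) (1 / m ^ 2) (1 / m ^ 4) (1 / (2 * m)) (1 / m ^ 9) (√(m ^ 5))
      (1 / (400 * m ^ 25)) ∧
    bt n (160000 * m ^ 60) (1 / m ^ 2) (1 / m ^ 4) (1 / (2 * m)) (1 / m ^ 9) (√(m ^ 5))
      (1 / (400 * m ^ 25)) ≤ 13 / m ^ 2 := by
  refine ⟨by unfold bt; positivity, ?_⟩
  unfold bt
  have h1 : √(m ^ 5) ^ 2 = m ^ 5 := Real.sq_sqrt (by positivity)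
  have h2 : √(1 / m ^ 4) = 1 / m ^ 2 := by
    rw [show (1 / m ^ 4) = (1 / m ^ 2) ^ 2 by field_simp]
    exact Real.sqrt_sq (by positivity)
  have h3 : 400 * m ^ 30 ≤ √(1 + 160000 * m ^ 60) := by
    apply Real.le_sqrt_of_sq_le
    nlinarith
  have h4 : (n : ℝ) / (2 * (1 / m ^ 2) * m ^ 5) ≤ 3 / 2 * (1 / m ^ 2) := by
    calc (n : ℝ) / (2 * (1 / m ^ 2) * m ^ 5) ≤ 3 * m / (2 * (1 / m ^ 2) * m ^ 5) := by gcongr
      _ = 3 / 2 * (1 / m ^ 2) := by field_simp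
  have h5 : (n : ℝ) / (2 * (1 / m ^ 2) * (1 / (400 * m ^ 25)) * √(1 + 160000 * m ^ 60)) ≤
      3 / 2 * (1 / m ^ 2) := by
    calc (n : ℝ) / (2 * (1 / m ^ 2) * (1 / (400 * m ^ 25)) * √(1 + 160000 * m ^ 60))
        ≤ 3 * m / (2 * (1 / m ^ 2) * (1 / (400 * m ^ 25)) * (400 * m ^ 30)) := by gcongr
      _ = 3 / 2 * (1 / m ^ 2) := by field_simp
  have h6 : 2 * (1 / m ^ 9) / (1 / m ^ 2 * (1 / m ^ 4) * (1 / (2 * m))) = 4 * (1 / m ^ 2) := by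
    field_simp
    norm_num
  rw [h1, h2, h6, show 13 / m ^ 2 = 13 * (1 / m ^ 2) by ring]
  linarith

theorem p_NUM :
    S_NUM := by
  obtain ⟨B, hB⟩ := NUM_bdd
  refine ⟨4 * (128000 + 2 * 160001 ^ 8 * B) + 130, fun M n N hM hn hN => ?_⟩
  have hm5 : (5 : ℝ) ≤ M := by exact_mod_cast hM
  have hn' : (n : ℝ) ≤ 3 * M := by exact_mod_cast hn
  have hN' : (N : ℝ) ≤ 5 * M := by
    have : N ≤ 5 * M := by omega
    exact_mod_cast this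
  have hB' := hB M
  generalize (M : ℝ) = m at *
  have hm : 0 < m := by linarith
  have hm1 : 1 ≤ m := by linarith
  obtain ⟨b0, b1⟩ := NUM_bt n m hm hn'
  refine ⟨160000 * m ^ 60, 1 / m ^ 2, 1 / m ^ 4, 1 / m ^ 9, √(m ^ 5), 1 / (400 * m ^ 25),
    by positivity, by positivity, by positivity, ?_, by positivity, by positivity, by positivity,
    ?_, ?_, b0, ?_⟩
  · rw [div_le_one (by positivity)]
    exact one_le_pow₀ hm1
  · rw [Real.sq_sqrt (by positivity)]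
    calc 16 * m ^ 5 * (N : ℝ) ^ 2 * (1 / m ^ 9)⁻¹ ^ 2 * (1 / (400 * m ^ 25))
        ≤ 16 * m ^ 5 * (5 * m) ^ 2 * (1 / m ^ 9)⁻¹ ^ 2 * (1 / (400 * m ^ 25)) := by gcongr
      _ = 1 := by field_simp; norm_num
  · calc 4 * (N : ℝ) * (1 / m ^ 9)⁻¹ * (1 / (400 * m ^ 25))
        ≤ 4 * (5 * m) * (1 / m ^ 9)⁻¹ * (1 / (400 * m ^ 25)) := by gcongr
      _ = 1 / (20 * m ^ 15) := by field_simp; norm_num
      _ < 1 := by
        rw [div_lt_one (by positivity)]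
        have := one_le_pow₀ (n := 15) hm1
        linarith
  · have h60 : 1 ≤ m ^ 60 := one_le_pow₀ hm1
    have hk : (1 + 160000 * m ^ 60) ^ 8 ≤ (160001 * m ^ 60) ^ 8 := by
      gcongr
      linarith
    have h1 : 2 * (97 / 100 : ℝ) ^ M * (1 + 160000 * m ^ 60) ^ 8 ≤ 2 * 160001 ^ 8 * B / m := by
      rw [le_div_iff₀ hm]
      calc 2 * (97 / 100 : ℝ) ^ M * (1 + 160000 * m ^ 60) ^ 8 * m
          ≤ 2 * (97 / 100 : ℝ) ^ M * (160001 * m ^ 60) ^ 8 * m := by gcongr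
        _ = 2 * 160001 ^ 8 * (m ^ 481 * (97 / 100) ^ M) := by ring
        _ ≤ 2 * 160001 ^ 8 * B := by gcongr
    have h2 : (N : ℝ) * bt n (160000 * m ^ 60) (1 / m ^ 2) (1 / m ^ 4) (1 / (2 * m)) (1 / m ^ 9)
        (√(m ^ 5)) (1 / (400 * m ^ 25)) ≤ 65 / m := by
      calc _ ≤ 5 * m * (13 / m ^ 2) := by gcongr
        _ = 65 / m := by field_simp; norm_num
    have h3 : (4 * (128000 + 2 * 160001 ^ 8 * B) + 130) / m =
        4 * (128000 / m + 2 * 160001 ^ 8 * B / m) + 2 * (65 / m) := by ring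
    rw [h3]
    linarith

end Pool.Agent.P.MP_32bf8a_an.VZ
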