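import Pool.Agent.P.MP_32bf8a_an.VZ.Iface

/-! Step PHA. -/

set_option autoImplicit false

namespace Pool.Agent.P.MP_32bf8a_an.VZ

open MeasureTheory Set
open scoped ENNReal Real ComplexConjugate InnerProductSpace

theorem PHA_phi {b : ℝ} (hb : 1 / 3 ≤ b) : phi b ≤ 2 - (1 - b) + 23 / 25 * (1 - b) ^ 2 := by
  have h0 : 0 < b := by linarith
  have hs := Real.sqrt_pos.2 h0
  have e := Real.sq_sqrt h0.le
  unfold phi
  generalize √b = s at hs e
  subst e
  have h1 : 577 / 1000 ≤ s := by nlinarith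
  have h2 : 0 ≤ 92 / 25 * s * (1 + s) ^ 2 - (3 * s ^ 2 + 2 * s + 3) := by
    nlinarith [mul_pos hs hs]
  rw [div_le_iff₀ (by positivity)]
  nlinarith [mul_nonneg (sq_nonneg (1 - s)) h2]

theorem p_PHA (hPOI : S_POI) :
    S_PHA := by
  intro y D z hz hy h1 h2
  obtain ⟨p1, p2, -⟩ := hPOI z
  have y0 : 0 ≤ y := (norm_nonneg _).trans hz
  have hR : ∀ θ, |(ex θ * z).re| ≤ y := fun θ =>
    (Complex.abs_re_le_norm _).trans (by rw [norm_mul, norm_ex, one_mul]; exact hz)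
  have c1 : Continuous fun θ => (ex θ * z).re := by fun_prop
  have hI : ∫ θ, phi (1 - y - (ex θ * z).re) ∂um ≤ 2 - y + 23 / 25 * y ^ 2 + 23 / 50 * ‖z‖ ^ 2 := by
    refine (integral_mono_of_nonneg (g := fun θ => (2 - y + 23 / 25 * y ^ 2 +
      (46 / 25 * y - 1) * (ex θ * z).re) + 23 / 25 * (ex θ * z).re ^ 2) (.of_forall fun θ => ?_)
      (integrable_um (by fun_prop)) (.of_forall fun θ => ?_)).trans_eq ?_
    · have : 0 ≤ 1 - y - (ex θ * z).re := by linarith [(abs_le.1 (hR θ)).2]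
      show 0 ≤ phi _
      unfold phi; positivity
    · refine (PHA_phi (by linarith [(abs_le.1 (hR θ)).2])).trans_eq (by ring)
    · rw [integral_add (integrable_um (by fun_prop)) (integrable_um (by fun_prop)),
        integral_add (integrable_const _) (integrable_um (by fun_prop)), integral_const_mul,
        integral_const_mul, p1, p2]
      simp; ring
  have hB : BB y D z ≤ 2 - y + 23 / 25 * y ^ 2 - D * (1 + y + 3 / 4 * y ^ 2) := by
    unfold BB; nlinarith [sq_nonneg ‖z‖]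
  refine ⟨hB.trans ?_, fun hy' s hs e => ?_⟩
  · nlinarith [mul_le_mul_of_nonneg_right h1 (by positivity : 0 ≤ 1 + y + 3 / 4 * y ^ 2),
      mul_nonneg (sq_nonneg y) (sub_nonneg.2 hy)]
  obtain ⟨w, rfl⟩ : ∃ w, D = 1 - w := ⟨1 - D, by ring⟩
  have w1 : 3 / 50 ≤ w := by nlinarith
  have w2 : w ≤ 2 / 3 := by linarith
  have hG : BB y (1 - w) z ≤ 1 + 217 / 400 * w ^ 2 + 3 / 16 * w ^ 3 := by
    refine hB.trans ?_
    have a1 : 0 ≤ y - w / 2 := by linarith
    have a2 : 0 ≤ 1 - 23 / 25 * (y + w / 2) + (1 - w) * (1 + 3 / 4 * (y + w / 2)) := by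
      have : 0 ≤ (1 - w) * (1 + 3 / 4 * (y + w / 2)) := by
        apply mul_nonneg <;> linarith
      linarith
    nlinarith [mul_nonneg a1 a2]
  refine (mul_le_mul_of_nonneg_left hG hs.le).trans ?_
  have g0 : 0 ≤ 1 + 217 / 400 * w ^ 2 + 3 / 16 * w ^ 3 := by positivity
  rcases le_total w (2 / 5) with h | h
  · have : s ≤ 1 - w / 4 := by
      nlinarith [mul_nonneg (sq_nonneg (s - 1)) (by positivity : 0 ≤ s ^ 2 + 2 * s + 3)]
    refine (mul_le_mul_of_nonneg_right this g0).trans ?_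
    nlinarith [mul_nonneg (sub_nonneg.2 w1) (sub_nonneg.2 h), sq_nonneg w, pow_pos (by linarith : 0 < w) 3,
      pow_pos (by linarith : 0 < w) 4, mul_nonneg (sq_nonneg w) (sub_nonneg.2 h)]
  · have : s ≤ 1393 / 1280 - 125 / 256 * w := by
      nlinarith [mul_nonneg (sq_nonneg (s - 4 / 5))
        (by positivity : 0 ≤ s ^ 2 + 8 / 5 * s + 48 / 25)]
    refine (mul_le_mul_of_nonneg_right this g0).trans ?_
    nlinarith [mul_nonneg (sub_nonneg.2 w2) (sub_nonneg.2 h), sq_nonneg w,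
      mul_nonneg (mul_nonneg (sub_nonneg.2 w2) (sub_nonneg.2 h)) (by linarith : 0 ≤ w),
      mul_nonneg (mul_nonneg (sub_nonneg.2 w2) (sub_nonneg.2 h)) (sq_nonneg w)]

end Pool.Agent.P.MP_32bf8a_an.VZ
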