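import Pool.Agent.P.MP_32bf8a_an.VZ.Iface

/-! Step PHB. -/

set_option autoImplicit false

namespace Pool.Agent.P.MP_32bf8a_an.VZ

open MeasureTheory Set
open scoped ENNReal Real ComplexConjugate InnerProductSpace

theorem PHB_phi {b r : ℝ} (h0 : 0 < b) (hr : 0 < r) :
    phi b ≤ 3 / 8 * r * b⁻¹ + (3 / 8 * r⁻¹ + 1 / 5 + 49 / 80 * b + 15 / 32 * b ^ 2) := by
  have hs := Real.sqrt_pos.2 h0
  have e := Real.sq_sqrt h0.le
  unfold phi
  generalize √b = s at hs e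
  subst e
  have a : (3 + 2 * s ^ 2 + 3 * (s ^ 2) ^ 2) / (4 * s) = 3 / 4 * s⁻¹ + s / 2 + 3 / 4 * s ^ 3 := by
    field_simp; ring
  have b : r * (s ^ 2)⁻¹ + r⁻¹ - 2 * s⁻¹ = r * (s⁻¹ - r⁻¹) ^ 2 := by field_simp; ring
  have c : 0 ≤ r * (s⁻¹ - r⁻¹) ^ 2 := by positivity
  nlinarith [sq_nonneg (s - 4 / 5), mul_nonneg (sq_nonneg s) (sq_nonneg (s - 4 / 5))]

theorem PHB_num {r s : ℝ} (hs : 0 < s) (h1 : s ≤ r) (h2 : r ≤ 49 / 60) :
    s * (3 / 4 * r⁻¹ + 49 / 64 * r ^ 4 + 1191 / 2500 - 17 / 12 * s ^ 4) ≤ 99 / 100 := by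
  have hr : 0 < r := hs.trans_le h1
  obtain ⟨c, hc⟩ : ∃ c, c = 99 / 100 - 1191 / 2500 * s + 17 / 12 * s ^ 5 := ⟨_, rfl⟩
  obtain ⟨K, hK⟩ : ∃ K, K = (49 / 60 : ℝ) ^ 4 + (49 / 60) ^ 3 * s + (49 / 60) ^ 2 * s ^ 2 +
    49 / 60 * s ^ 3 + s ^ 4 := ⟨_, rfl⟩
  have k : r ^ 5 ≤ s ^ 5 + (r - s) * K := by
    have : r ^ 4 + r ^ 3 * s + r ^ 2 * s ^ 2 + r * s ^ 3 + s ^ 4 ≤ K := by rw [hK]; gcongr
    nlinarith [mul_le_mul_of_nonneg_left this (sub_nonneg.2 h1)]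
  have g1 : 3 / 4 + 49 / 64 * s ^ 5 ≤ c := by
    nlinarith [mul_nonneg (sq_nonneg (s - 31 / 50)) (by positivity :
      0 ≤ s ^ 3 + 2 * (31 / 50) * s ^ 2 + 3 * (31 / 50) ^ 2 * s + 4 * (31 / 50) ^ 3)]
  have g2 : 3 / 4 * s + 49 / 64 * s * (49 / 60) ^ 5 ≤ 49 / 60 * c := by
    nlinarith [mul_nonneg (sq_nonneg (s - 141 / 200)) (by positivity :
      0 ≤ s ^ 3 + 2 * (141 / 200) * s ^ 2 + 3 * (141 / 200) ^ 2 * s + 4 * (141 / 200) ^ 3)]
  have g3 : s ^ 5 + (49 / 60 - s) * K = (49 / 60) ^ 5 := by rw [hK]; ring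
  have g : 3 / 4 * s + 49 / 64 * s * (s ^ 5 + (r - s) * K) ≤ r * c := by
    rcases le_total (49 / 64 * s * K) c with h | h
    · nlinarith [mul_le_mul_of_nonneg_left g1 hs.le, mul_le_mul_of_nonneg_left h (sub_nonneg.2 h1)]
    · rw [← g3] at g2
      nlinarith [mul_le_mul_of_nonneg_left h (sub_nonneg.2 h2)]
  have g' : 3 / 4 * s + 49 / 64 * s * r ^ 5 ≤ r * c :=
    le_trans (by gcongr) g
  have e : s * (3 / 4 * r⁻¹ + 49 / 64 * r ^ 4) = (3 / 4 * s + 49 / 64 * s * r ^ 5) / r := by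
    field_simp
  have := (div_le_iff₀' hr).2 g'
  linarith

theorem p_PHB (hPOI : S_POI) :
    S_PHB := by
  intro y s z hz hy hy1 hs h
  obtain ⟨p1, p2, p3⟩ := hPOI z
  have s4 := pow_pos hs 4
  have hz1 : ‖z‖ < 1 - y := lt_of_pow_lt_pow_left₀ 2 (by linarith) (by linarith)
  have hb : ∀ θ, 0 < 1 - y - (ex θ * z).re := fun θ => by
    have := Complex.re_le_norm (ex θ * z)
    rw [norm_mul, norm_ex, one_mul] at this
    linarith
  have d0 : 0 < (1 - y) ^ 2 - ‖z‖ ^ 2 := by linarith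
  obtain ⟨r, hr, e2, e4⟩ : ∃ r : ℝ, 0 < r ∧ r ^ 2 = √((1 - y) ^ 2 - ‖z‖ ^ 2) ∧
      r ^ 4 = (1 - y) ^ 2 - ‖z‖ ^ 2 := by
    have := Real.sq_sqrt (Real.sqrt_nonneg ((1 - y) ^ 2 - ‖z‖ ^ 2))
    exact ⟨_, Real.sqrt_pos.2 (Real.sqrt_pos.2 d0), this, by
      rw [show 4 = 2 * 2 from rfl, pow_mul, this, Real.sq_sqrt d0.le]⟩
  have c1 : Continuous fun θ => (ex θ * z).re := by fun_prop
  have c2 : Continuous fun θ => (1 - y - (ex θ * z).re)⁻¹ :=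
    Continuous.inv₀ (by fun_prop) fun θ => (hb θ).ne'
  have hI : ∫ θ, phi (1 - y - (ex θ * z).re) ∂um ≤
      3 / 4 * r⁻¹ + 1 / 5 + 49 / 80 * (1 - y) + 15 / 32 * ((1 - y) ^ 2 + ‖z‖ ^ 2 / 2) := by
    refine (integral_mono_of_nonneg (g := fun θ => 3 / 8 * r * (1 - y - (ex θ * z).re)⁻¹ +
      ((3 / 8 * r⁻¹ + 1 / 5 + 49 / 80 * (1 - y) + 15 / 32 * (1 - y) ^ 2 +
      (-49 / 80 - 15 / 16 * (1 - y)) * (ex θ * z).re) + 15 / 32 * (ex θ * z).re ^ 2))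
      (.of_forall fun θ => ?_) (integrable_um (by fun_prop)) (.of_forall fun θ => ?_)).trans_eq ?_
    · have := hb θ
      show 0 ≤ phi _
      unfold phi; positivity
    · exact (PHB_phi (hb θ) hr).trans_eq (by ring)
    · rw [integral_add (integrable_um (by fun_prop)) (integrable_um (by fun_prop)),
        integral_add (integrable_um (by fun_prop)) (integrable_um (by fun_prop)),
        integral_add (integrable_const _) (integrable_um (by fun_prop)), integral_const_mul,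
        integral_const_mul, integral_const_mul, p1, p2, p3 _ hz1, ← e2]
      simp only [integral_const, probReal_univ, smul_eq_mul]
      field_simp; ring
  have r1 : s ≤ r := le_of_pow_le_pow_left₀ (n := 4) (by norm_num) hr.le (by linarith)
  have r2 : r ≤ 49 / 60 :=
    le_of_pow_le_pow_left₀ (n := 4) (by norm_num) (by norm_num) (by nlinarith [sq_nonneg ‖z‖])
  refine le_trans (mul_le_mul_of_nonneg_left ?_ hs.le) (PHB_num hs r1 r2)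
  have : s ^ 4 * (17 / 12) ≤ s ^ 4 * (1 + y + 3 / 4 * y ^ 2) :=
    mul_le_mul_of_nonneg_left (by nlinarith) s4.le
  unfold BB
  nlinarith [mul_nonneg (sub_nonneg.2 hy) (by linarith : 0 ≤ y)]

end Pool.Agent.P.MP_32bf8a_an.VZ
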