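import Pool.Agent.P.MP_32bf8a_an.VZ.Iface

/-! Step POI. -/

set_option autoImplicit false

namespace Pool.Agent.P.MP_32bf8a_an.VZ

open MeasureTheory Set
open scoped ENNReal Real ComplexConjugate InnerProductSpace

theorem POI_per : ex (2 * π) = ex 0 := by
  simp [ex]

theorem POI_im (z : ℂ) (θ : ℝ) : HasDerivAt (fun θ => (ex θ * z).im) (ex θ * z).re θ := by
  have := Complex.imCLM.hasFDerivAt.comp_hasDerivAt θ ((hasDerivAt_ex θ).mul_const z)
  refine HasDerivAt.congr_deriv this ?_
  simp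
  ring

theorem POI_re (z : ℂ) (θ : ℝ) : HasDerivAt (fun θ => (ex θ * z).re) (-(ex θ * z).im) θ := by
  have := Complex.reCLM.hasFDerivAt.comp_hasDerivAt θ ((hasDerivAt_ex θ).mul_const z)
  refine HasDerivAt.congr_deriv this ?_
  simp
  ring

theorem POI_ker {z d : ℂ} {p s : ℝ} (hd : ‖d‖ = 1) (hs : 0 < s) (hp : 0 < p)
    (e : s ^ 2 = p ^ 2 - ‖z‖ ^ 2) (h0 : p - (d * z).re ≠ 0) :
    poissonKernel 0 (conj z / ((p + s : ℝ) : ℂ)) d = s * (p - (d * z).re)⁻¹ := by
  have h1 : 0 < p + s := by positivity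
  have h2 : ‖d - conj z / ((p + s : ℝ) : ℂ)‖ ^ 2 = 2 * (p - (d * z).re) / (p + s) := by
    have h3 : d.re ^ 2 + d.im ^ 2 = 1 := by
      have := Complex.sq_norm d
      rw [hd, Complex.normSq_apply] at this
      linarith
    rw [Complex.sq_norm, Complex.normSq_apply] at e ⊢
    simp only [Complex.sub_re, Complex.sub_im, Complex.div_ofReal_re, Complex.div_ofReal_im,
      Complex.conj_re, Complex.conj_im, Complex.mul_re]
    field_simp
    linear_combination (p + s) ^ 2 * h3 + e
  have h4 : ‖conj z / ((p + s : ℝ) : ℂ)‖ ^ 2 = ‖z‖ ^ 2 / (p + s) ^ 2 := by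
    rw [norm_div, Complex.norm_conj, Complex.norm_real, Real.norm_of_nonneg h1.le, div_pow]
  rw [poissonKernel_def, sub_zero, sub_zero, h2, h4, hd]
  field_simp
  linear_combination -e

theorem p_POI :
    S_POI := by
  intro z
  refine ⟨?_, ?_, fun p hp => ?_⟩
  · rw [integral_um, intervalIntegral.integral_eq_sub_of_hasDerivAt (fun θ _ => POI_im z θ)
      (Continuous.intervalIntegrable (by fun_prop) _ _), POI_per, sub_self, mul_zero]
  · have h : ∀ θ, HasDerivAt (fun θ => ‖z‖ ^ 2 / 2 * θ + (ex θ * z).re * (ex θ * z).im / 2)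
        ((ex θ * z).re ^ 2) θ := fun θ => by
      refine HasDerivAt.congr_deriv (((hasDerivAt_id θ).const_mul (‖z‖ ^ 2 / 2)).add
        (((POI_re z θ).mul (POI_im z θ)).div_const 2)) ?_
      have := Complex.sq_norm (ex θ * z)
      rw [norm_mul, norm_ex, one_mul, Complex.normSq_apply] at this
      rw [this]
      ring
    rw [integral_um, intervalIntegral.integral_eq_sub_of_hasDerivAt (fun θ _ => h θ)
      (Continuous.intervalIntegrable (by fun_prop) _ _), POI_per]
    field_simp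
    ring
  · have hz := norm_nonneg z
    have hp0 : 0 < p := hz.trans_lt hp
    have h1 : 0 < p ^ 2 - ‖z‖ ^ 2 := by nlinarith
    have hs := Real.sqrt_pos.2 h1
    have e := Real.sq_sqrt h1.le
    set s := √(p ^ 2 - ‖z‖ ^ 2)
    have hw : conj z / ((p + s : ℝ) : ℂ) ∈ Metric.ball (0 : ℂ) 1 := by
      rw [mem_ball_zero_iff, norm_div, Complex.norm_conj, Complex.norm_real,
        Real.norm_of_nonneg (by positivity), div_lt_one (by positivity)]
      linarith
    have h2 : (2 * π)⁻¹ • ∫ θ in (0 : ℝ)..2 * π, poissonKernel 0 (conj z / ((p + s : ℝ) : ℂ))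
        (circleMap 0 1 θ) • (1 : ℂ) = 1 :=
      DiffContOnCl.circleAverage_poissonKernel_smul (f := fun _ => (1 : ℂ)) diffContOnCl_const hw
    have h3 : ∀ θ, poissonKernel 0 (conj z / ((p + s : ℝ) : ℂ)) (circleMap 0 1 θ) • (1 : ℂ) =
        ((s * (p - (ex θ * z).re)⁻¹ : ℝ) : ℂ) := fun θ => by
      have h4 : (ex θ * z).re ≤ ‖z‖ := by
        simpa using Complex.re_le_norm (ex θ * z)
      have : circleMap 0 1 θ = ex θ := by simp [circleMap, ex]
      rw [this, POI_ker (norm_ex θ) hs hp0 e (by linarith), Complex.real_smul, mul_one]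
    simp only [h3] at h2
    rw [intervalIntegral.integral_ofReal, intervalIntegral.integral_const_mul,
      Complex.real_smul] at h2
    rw [integral_um]
    refine eq_inv_of_mul_eq_one_right ?_
    have h5 : (2 * π)⁻¹ * (s * ∫ θ in (0 : ℝ)..2 * π, (p - (ex θ * z).re)⁻¹) = 1 := by
      exact_mod_cast h2
    linarith

end Pool.Agent.P.MP_32bf8a_an.VZ
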