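import Pool.Agent.P.MP_32bf8a_an.VZ.Iface

/-! Step POW. -/

set_option autoImplicit false

namespace Pool.Agent.P.MP_32bf8a_an.VZ

open MeasureTheory Set
open scoped ENNReal Real ComplexConjugate InnerProductSpace

theorem POW_small {M N : ℕ} {ρ X X0 D : ℝ} (hM : 5 ≤ M) (hN : N ≤ 4 * M + 1) (h0 : 0 ≤ ρ)
    (hX : 0 ≤ X) (h1 : X ≤ 1 / 16) (h2 : ρ ≤ 1 + X ^ 2) (h3 : M * X ≤ M * X0 + 2) (h4 : 0 ≤ X0)
    (hD : 0 < D) (h5 : D ≤ Real.exp (-(1 / 2 * X0))) : ρ ^ N ≤ 1 + 2000 / M * D⁻¹ ^ M := by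
  have hM' : (5 : ℝ) ≤ M := by exact_mod_cast hM
  have hN' : (N : ℝ) ≤ 4 * M + 1 := by exact_mod_cast hN
  have a1 : ρ ^ N ≤ Real.exp (5 * M * X ^ 2) := by
    refine (pow_le_pow_left₀ h0 (h2.trans ((add_comm _ _).trans_le (Real.add_one_le_exp _))) N).trans ?_
    rw [← Real.exp_nat_mul]
    exact Real.exp_le_exp.2 (mul_le_mul_of_nonneg_right (by linarith) (sq_nonneg X))
  have a2 : ∀ s : ℝ, Real.exp s ≤ 1 + s * Real.exp s := fun s => by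
    have b1 := mul_le_mul_of_nonneg_right (Real.add_one_le_exp (-s)) (Real.exp_pos s).le
    rw [← Real.exp_add, neg_add_cancel, Real.exp_zero] at b1
    linarith
  have hMX : 0 ≤ M * X := by positivity
  have a3 : 5 * M * X ^ 2 ≤ 640 / M * Real.exp (M * X / 8) := by
    have := Real.quadratic_le_exp_of_nonneg (x := M * X / 8) (by positivity)
    rw [div_mul_eq_mul_div, le_div_iff₀ (by linarith)]
    nlinarith
  have a4 : Real.exp (1 / 2 * X0) ≤ D⁻¹ := by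
    rw [Real.exp_neg] at h5
    exact le_inv_of_le_inv₀ hD h5
  have a5 : Real.exp (M * X / 8) * Real.exp (5 * M * X ^ 2) ≤ 3 * D⁻¹ ^ M := by
    rw [← Real.exp_add]
    have b1 : M * X / 8 + 5 * M * X ^ 2 ≤ 1 + M * (1 / 2 * X0) := by
      nlinarith [mul_le_mul_of_nonneg_left h1 hMX, mul_nonneg (by linarith : (0 : ℝ) ≤ M) h4]
    refine (Real.exp_le_exp.2 b1).trans ?_
    rw [Real.exp_add, Real.exp_nat_mul]
    exact mul_le_mul (by linarith [Real.exp_one_lt_d9])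
      (pow_le_pow_left₀ (Real.exp_pos _).le a4 M) (by positivity) (by norm_num)
  have a6 := mul_le_mul_of_nonneg_right a3 (Real.exp_pos (5 * M * X ^ 2)).le
  have a7 := mul_le_mul_of_nonneg_left a5 (by positivity : (0 : ℝ) ≤ 640 / M)
  have a8 : 640 / (M : ℝ) * (3 * D⁻¹ ^ M) ≤ 2000 / M * D⁻¹ ^ M := by
    rw [← mul_assoc, div_mul_eq_mul_div 640]
    gcongr
    norm_num
  have := a2 (5 * M * X ^ 2)
  rw [mul_assoc] at a6
  linarith

theorem POW_big {M N : ℕ} {ρ ε D K : ℝ} (hM : 5 ≤ M) (hN : N ≤ 4 * M + 1) (h0 : 0 ≤ ρ)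
    (h1 : 0 ≤ ε) (h2 : ε ≤ 1 / (M : ℝ) ^ 2) (hD : 0 < D) (hK : D⁻¹ ≤ K)
    (h3 : ρ ^ 4 * ((1 - ε) ^ 2 * D) ≤ 97 / 100) :
    ρ ^ N ≤ 1 + 2 * (97 / 100) ^ M * K * D⁻¹ ^ M := by
  have hM' : (5 : ℝ) ≤ M := by exact_mod_cast hM
  have a0 : ε * (M : ℝ) ^ 2 ≤ 1 := (le_div_iff₀ (by positivity)).1 h2
  have a1 : ε * (2 * M + 2) ≤ 1 / 2 := by
    nlinarith [mul_nonneg h1 (by nlinarith : (0 : ℝ) ≤ (M : ℝ) ^ 2 - (4 * M + 4))]
  have a2 : 1 / 2 ≤ ((1 - ε) ^ 2) ^ (M + 1) := by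
    have := one_add_mul_le_pow (a := -ε) (by nlinarith) (2 * (M + 1))
    rw [← pow_mul, sub_eq_add_neg]
    push_cast at this
    linarith
  have a3 : ρ ^ N ≤ 1 + (ρ ^ 4) ^ (M + 1) := by
    rw [← pow_mul]
    rcases le_total ρ 1 with h | h
    · linarith [pow_le_one₀ (n := N) h0 h, pow_nonneg h0 (4 * (M + 1))]
    · linarith [pow_le_pow_right₀ h (show N ≤ 4 * (M + 1) by omega)]
  have a4 := pow_le_pow_left₀ (by positivity) h3 (M + 1)
  rw [mul_pow, mul_pow] at a4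
  have a5 : (ρ ^ 4) ^ (M + 1) * D ^ (M + 1) ≤ 2 * (97 / 100) ^ M := by
    have b1 := mul_le_mul_of_nonneg_left a2
      (by positivity : 0 ≤ (ρ ^ 4) ^ (M + 1) * D ^ (M + 1))
    have b2 : (0 : ℝ) ≤ (97 / 100) ^ M := by positivity
    rw [pow_succ (97 / 100 : ℝ)] at a4
    nlinarith
  rw [← le_div_iff₀ (by positivity), div_eq_mul_inv, ← inv_pow, pow_succ' D⁻¹, ← mul_assoc] at a5
  have a6 : 2 * (97 / 100) ^ M * D⁻¹ * D⁻¹ ^ M ≤ 2 * (97 / 100) ^ M * K * D⁻¹ ^ M := by gcongr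
  linarith

theorem p_POW (hDL : S_DL) (hRHO : S_RHO) :
    S_POW := by
  intro M N a b c d κ q ε ρ hM hN hc hκ hq h0 h1 hρ h2
  have hM' : (5 : ℝ) ≤ M := by exact_mod_cast hM
  have a0 : ε * (M : ℝ) ^ 2 ≤ 1 := (le_div_iff₀ (by positivity)).1 h1
  have hε : ε < 1 := by nlinarith [mul_nonneg h0 (by nlinarith : (0 : ℝ) ≤ (M : ℝ) ^ 2 - 25)]
  have q0 : 0 ≤ q := by rw [hq]; positivity
  have q1 : (1 - q) * (1 + κ) = 1 := by rw [hq]; field_simp; ring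
  have q2 : q < 1 := by rw [hq, div_lt_one (by linarith)]; linarith
  have q3 : q ^ 2 < 1 := by nlinarith
  obtain ⟨b1, -, b3, b4, b5⟩ := hDL a b c d (q ^ 2) ε hc (sq_nonneg q) q3 h0 hε
  obtain ⟨c1, c2, -⟩ := hDL a b c d (1 / 2) ε hc (by norm_num) (by norm_num) h0 hε
  have hX : ∀ a b c d : ℂ, XX (q * a) (q * b) (q * c) (q * d) = q ^ 2 * XX a b c d := by
    intro a b c d
    simp only [XX, norm_mul, Complex.norm_real, mul_pow, Real.norm_eq_abs, sq_abs]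
    ring
  have hD : ∀ a b c d : ℂ, Dl 1 (q * a) (q * b) (q * c) (q * d) = Dl (q ^ 2) a b c d := by
    intro a b c d
    have : (q : ℂ) * a * (q * d) - q * b * (q * c) = ((q ^ 2 : ℝ) : ℂ) * (a * d - b * c) := by
      push_cast; ring
    rw [Dl, Dl, hX, this, norm_mul, Complex.norm_real, mul_pow, Real.norm_eq_abs, sq_abs]
    ring
  have x0 : ∀ a b c d : ℂ, 0 ≤ XX a b c d := fun a b c d => by unfold XX; positivity
  have d0 : 0 < Dl (q ^ 2) a b c d := lt_of_lt_of_le (pow_pos (by linarith) 2) b1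
  have d1 : 0 < Dl (1 / 2) a b c d := lt_of_lt_of_le (by norm_num) c1
  have x1 := x0 ((1 - ε) * a + ε) ((1 - ε) * b) ((1 - ε) * c) ((1 - ε) * d + ε)
  obtain ⟨r1, r2⟩ := hRHO (q * ((1 - ε) * a + ε)) (q * ((1 - ε) * b)) (q * ((1 - ε) * c))
    (q * ((1 - ε) * d + ε))
    (by rw [hD]; exact lt_of_lt_of_le (mul_pos (pow_pos (by linarith) 2) d0) b3)
    (by rw [hX]; nlinarith [sq_nonneg q])
  rw [← hρ, hX] at r1
  rw [← hρ, hX, hD] at r2
  rcases le_total (q ^ 2 * XX ((1 - ε) * a + ε) ((1 - ε) * b) ((1 - ε) * c) ((1 - ε) * d + ε))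
    (1 / 16) with h | h
  · have e1 : M * ε ≤ 1 := by
      nlinarith [mul_nonneg h0 (by nlinarith : (0 : ℝ) ≤ (M : ℝ) ^ 2 - M)]
    have := POW_small hM hN h2 (by positivity) h (r1 h) (by
      have := mul_le_mul_of_nonneg_left ((mul_le_of_le_one_left x1 q3.le).trans b4)
        (by linarith : (0 : ℝ) ≤ M)
      linarith) (x0 a b c d) d1 c2
    have : 0 ≤ 2 * (97 / 100) ^ M * (1 + κ) ^ 2 * (Dl (q ^ 2) a b c d)⁻¹ ^ M := by positivity
    linarith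
  · have e1 : (Dl (q ^ 2) a b c d)⁻¹ ≤ (1 + κ) ^ 2 := by
      rw [inv_le_iff_one_le_mul₀ d0]
      have e2 : (1 - q) ^ 2 ≤ (1 - q ^ 2) ^ 2 := pow_le_pow_left₀ (by linarith) (by nlinarith) 2
      have e3 := mul_le_mul_of_nonneg_left (e2.trans b1) (sq_nonneg (1 + κ))
      rwa [← mul_pow, mul_comm (1 + κ), q1, one_pow] at e3
    have := POW_big hM hN h2 h0 h1 d0 e1
      ((mul_le_mul_of_nonneg_left b3 (by positivity)).trans (r2 h h2))
    have : 0 ≤ 2000 / M * (Dl (1 / 2) a b c d)⁻¹ ^ M := by positivity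
    linarith

end Pool.Agent.P.MP_32bf8a_an.VZ
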