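import Pool.Agent.P.MP_32bf8a_an.VZ.Iface

/-! Step PT. -/

set_option autoImplicit false

namespace Pool.Agent.P.MP_32bf8a_an.VZ

open MeasureTheory Set
open scoped ENNReal Real ComplexConjugate InnerProductSpace

theorem PT_add (x y : ℂ) {w : ℂ} (h : ‖w‖ = 1) :
    ‖x + w * y‖ ^ 2 = ‖x‖ ^ 2 + ‖y‖ ^ 2 + 2 * (w * (y * conj x)).re := by
  have e : ‖y‖ = ‖w * y‖ := by rw [norm_mul, h, one_mul]
  rw [e]
  simp [-norm_mul, -Complex.norm_mul, Complex.sq_norm, Complex.normSq_apply]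
  ring

theorem PT_add' (x y : ℂ) {w : ℂ} (h : ‖w‖ = 1) :
    ‖x + conj w * y‖ ^ 2 = ‖x‖ ^ 2 + ‖y‖ ^ 2 + 2 * (w * (x * conj y)).re := by
  rw [PT_add x y (by rwa [Complex.norm_conj])]
  simp
  ring

theorem PT_row (a b c d : ℂ) : ‖a * conj c + b * conj d‖ ≤ XX a b c d / 2 ∧
    Dl 1 a b c d ≤ (1 - XX a b c d / 2) ^ 2 - ‖a * conj c + b * conj d‖ ^ 2 := by
  have e : (‖a‖ ^ 2 + ‖b‖ ^ 2) * (‖c‖ ^ 2 + ‖d‖ ^ 2) =
      ‖a * conj c + b * conj d‖ ^ 2 + ‖a * d - b * c‖ ^ 2 := by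
    simp [Complex.sq_norm, Complex.normSq_apply]
    ring
  have := sq_nonneg (‖a‖ ^ 2 + ‖b‖ ^ 2 - ‖c‖ ^ 2 - ‖d‖ ^ 2)
  unfold Dl XX
  exact ⟨le_of_pow_le_pow_left₀ two_ne_zero (by positivity)
    (by nlinarith [sq_nonneg ‖a * d - b * c‖]), by nlinarith⟩

theorem PT_psi (a b c d : ℂ) (h : 1 - ‖a‖ ^ 2 ≠ 0) : Psi a b c d =
    2 * ((1 - ‖a‖ ^ 2 - ‖b‖ ^ 2) * (1 - ‖a‖ ^ 2 - ‖c‖ ^ 2)) / (1 - ‖a‖ ^ 2) ^ 3 -
      Dl 1 a b c d / (1 - ‖a‖ ^ 2) ^ 2 := by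
  have e : ‖d * ((1 - ‖a‖ ^ 2 : ℝ) : ℂ) + c * conj a * b‖ ^ 2 =
      (1 - ‖a‖ ^ 2 - ‖b‖ ^ 2) * (1 - ‖a‖ ^ 2 - ‖c‖ ^ 2) - Dl 1 a b c d * (1 - ‖a‖ ^ 2) := by
    simp only [Dl, XX, Complex.sq_norm, Complex.normSq_apply]
    simp
    ring
  rw [Psi, e]
  field_simp
  ring

theorem PT_half (x y : ℂ) : ‖x * conj y / 2‖ ≤ (‖x‖ ^ 2 + ‖y‖ ^ 2) / 4 := by
  rw [norm_div, norm_mul, Complex.norm_conj, Complex.norm_two]
  nlinarith [sq_nonneg (‖x‖ - ‖y‖)]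

theorem PT_rng {y : ℝ} {u z : ℂ} (hu : ‖u‖ = 1) (h : ‖z‖ ≤ y) (h1 : y < 1)
    (h2 : 0 < (1 - y) ^ 2 - ‖z‖ ^ 2) : 0 < 1 - y - (u * z).re ∧ 1 - y - (u * z).re ≤ 1 := by
  have := abs_le.1 (Complex.abs_re_le_norm (u * z))
  rw [norm_mul, hu, one_mul] at this
  have : ‖z‖ < 1 - y := lt_of_pow_lt_pow_left₀ 2 (by linarith) (by linarith)
  constructor <;> linarith

theorem PT_t1 (a b c d v : ℂ) {u : ℂ} (hu : ‖u‖ = 1) : ‖tt a b c d u v‖ ^ 2 =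
    (‖a + v * b‖ ^ 2 + ‖c + v * d‖ ^ 2) / 4 + (u * ((a + v * b) * conj (c + v * d) / 2)).re := by
  rw [show tt a b c d u v = (a + v * b + conj u * (c + v * d)) / 2 by rw [tt]; ring, norm_div,
    div_pow, PT_add' _ _ hu, ← mul_div_assoc, Complex.div_ofNat_re, Complex.norm_two]
  ring

theorem PT_t2 (a b c d u : ℂ) {v : ℂ} (hv : ‖v‖ = 1) : ‖tt a b c d u v‖ ^ 2 =
    (‖a + conj u * c‖ ^ 2 + ‖b + conj u * d‖ ^ 2) / 4 +
      (v * ((b + conj u * d) * conj (a + conj u * c) / 2)).re := by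
  rw [show tt a b c d u v = (a + conj u * c + v * (b + conj u * d)) / 2 by rw [tt]; ring, norm_div,
    div_pow, PT_add _ _ hv, ← mul_div_assoc, Complex.div_ofNat_re, Complex.norm_two]
  ring

theorem PT_s (a b c d : ℂ) {u : ℂ} (hu : ‖u‖ = 1) : ‖a + conj u * c‖ ^ 2 + ‖b + conj u * d‖ ^ 2 =
    XX a b c d + 2 * (u * (a * conj c + b * conj d)).re := by
  rw [PT_add' _ _ hu, PT_add' _ _ hu, XX, mul_add u, Complex.add_re]
  ring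

theorem PT_inv (y : ℝ) {τ : ℝ} (h : 0 < τ) (h' : τ ≤ 1) :
    1 + (2 + 3 * y) * (1 - τ) - 3 / 4 * y ^ 2 ≤ 1 / τ ^ 2 := by
  refine le_trans (b := 1 + 2 * (1 - τ) + 3 * (1 - τ) ^ 2)
    (by linarith [sq_nonneg (1 - τ - y / 2)]) ?_
  rw [le_div_iff₀ (by positivity)]
  linarith [mul_nonneg (pow_nonneg (sub_nonneg.2 h') 3) (by linarith : 0 ≤ 1 + 3 * τ)]

theorem p_PT :
    S_PT := by
  intro a b c d u v hu hv hD hX y A B τ z z' hy hz hz' hA hB hτ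
  have hu' : ‖-u‖ = 1 := by rwa [norm_neg]
  have hv' : ‖-v‖ = 1 := by rwa [norm_neg]
  obtain ⟨r1, r2⟩ := PT_row a b c d
  obtain ⟨r3, r4⟩ := PT_row b d a c
  have x1 : XX b d a c = XX a b c d := by unfold XX; ring
  have x2 : Dl 1 b d a c = Dl 1 a b c d := by
    rw [Dl, Dl, x1, norm_sub_rev, mul_comm d]
  rw [x1, mul_comm b, mul_comm d, ← hz', ← hy] at r3 r4
  rw [x2] at r4
  rw [← hz, ← hy] at r1 r2
  obtain ⟨a0, a1⟩ := PT_rng hu r1 (by linarith) (by linarith)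
  obtain ⟨b0, b1⟩ := PT_rng hv r3 (by linarith) (by linarith)
  have s1 := PT_s a b c d hu
  have s2 := PT_s a b c d hu'
  have s3 : ‖a + v * b‖ ^ 2 + ‖c + v * d‖ ^ 2 = XX a b c d + 2 * (v * z').re := by
    rw [PT_add _ _ hv, PT_add _ _ hv, XX, hz', mul_add v, Complex.add_re, mul_comm b, mul_comm d]
    ring
  have t1 := PT_t1 a b c d v hu
  have t2 := PT_t1 a b c d v hu'
  have t3 := PT_t2 a b c d u hv
  have t4 := PT_t2 a b c d u hv'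
  have t5 := PT_t2 a b c d (-u) hv
  have t6 := PT_t2 a b c d (-u) hv'
  have k1 := PT_half (a + v * b) (c + v * d)
  have k2 := PT_half (b + conj u * d) (a + conj u * c)
  rw [← hz] at s1 s2
  rw [← hA] at a0 a1
  rw [← hB] at b0 b1
  rw [neg_mul, Complex.neg_re] at s2 t2 t4 t6
  have e1 : τ - ‖tt a b c d u (-v)‖ ^ 2 = A := by linarith
  have e2 : τ - ‖tt a b c d (-u) v‖ ^ 2 = B := by linarith
  have τ0 : 0 < τ := by linarith [sq_nonneg ‖tt a b c d u (-v)‖]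
  have τ1 : τ ≤ 1 := by linarith [sq_nonneg ‖tt a b c d u v‖]
  refine ⟨r1, r3, r2, r4, a0, a1, b0, b1, τ0, by linarith, by linarith, by linarith, by linarith, ?_⟩
  have e3 : Dl 1 (tt a b c d u v) (tt a b c d u (-v)) (tt a b c d (-u) v) (tt a b c d (-u) (-v)) =
      Dl 1 a b c d := by
    rw [Dl, Dl, show tt a b c d u v * tt a b c d (-u) (-v) - tt a b c d u (-v) * tt a b c d (-u) v =
      conj u * v * (a * d - b * c) by simp only [tt, map_neg]; ring, norm_mul, norm_mul,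
      Complex.norm_conj, hu, hv, XX]
    linarith
  rw [Ps, PT_psi _ _ _ _ (hτ ▸ τ0.ne'), ← hτ, e1, e2, e3]
  have c1 : (A - B) ^ 2 ≤ (A - B) ^ 2 / τ ^ 3 :=
    le_div_self (sq_nonneg _) (by positivity) (pow_le_one₀ τ0.le τ1)
  have c2 := mul_le_mul_of_nonneg_left (PT_inv y τ0 τ1) hD.le
  rw [mul_one_div] at c2
  have c3 : 2 * (A * B) / τ ^ 3 = A ^ 2 / τ ^ 3 + B ^ 2 / τ ^ 3 - (A - B) ^ 2 / τ ^ 3 := by ring
  linarith

end Pool.Agent.P.MP_32bf8a_an.VZ
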