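import Pool.Agent.P.MP_32bf8a_an.VZ.Iface

/-! Step PZ. -/

set_option autoImplicit false

namespace Pool.Agent.P.MP_32bf8a_an.VZ

open MeasureTheory Set
open scoped ENNReal Real ComplexConjugate InnerProductSpace

theorem PZ_pt (z : ℝ≥0∞) :
    (if z ≤ 1 / 2 then 1 else 0) + 8 * z ≤ 4 * (z * z) + 4 := by
  rcases eq_or_ne z ⊤ with rfl | hz
  · simp
  lift z to NNReal using hz
  have e : ((z : ℝ≥0∞) ≤ 1 / 2) ↔ (z : ℝ) ≤ 1 / 2 := by
    rw [show (1 / 2 : ℝ≥0∞) = ((1 / 2 : NNReal) : ℝ≥0∞) by simp, ENNReal.coe_le_coe,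
      ← NNReal.coe_le_coe]
    simp
  split_ifs with h
  · have h' := e.1 h
    have : (1 : NNReal) + 8 * z ≤ 4 * (z * z) + 4 := by
      rw [← NNReal.coe_le_coe]; push_cast; nlinarith
    exact_mod_cast this
  · have : (0 : NNReal) + 8 * z ≤ 4 * (z * z) + 4 := by
      rw [← NNReal.coe_le_coe]; push_cast; nlinarith [sq_nonneg ((z : ℝ) - 1)]
    exact_mod_cast this

theorem PZ_gen {α γ : Type} [MeasurableSpace α] [MeasurableSpace γ] (μ : Measure α)
    (ν : Measure γ) [IsProbabilityMeasure μ] [IsProbabilityMeasure ν] (K : α × γ → ℝ≥0∞)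
    (B : Set (α × γ)) (S : Set α) (D β : ℝ) (hK : Measurable K) (hB : MeasurableSet B)
    (hD : 0 ≤ D) (hβ : 0 ≤ β) (h1 : ∀ᵐ p ∂ν, ∫⁻ A, K (A, p) ∂μ = 1)
    (h2 : ∫⁻ p, ∫⁻ p', ∫⁻ A, K (A, p) * K (A, p') ∂μ ∂ν ∂ν ≤ ENNReal.ofReal (1 + D))
    (h3 : ∀ᵐ p ∂ν, ∫⁻ A in {A | (A, p) ∈ B}, K (A, p) ∂μ ≤ ENNReal.ofReal β)
    (h4 : ∀ A ∈ S, ∀ᵐ p ∂ν, (A, p) ∈ B) : μ S ≤ ENNReal.ofReal (4 * D + 2 * β) := by
  set Z : α → ℝ≥0∞ := fun A => ∫⁻ p, K (A, p) ∂ν with hZ
  set Zb : α → ℝ≥0∞ := fun A => ∫⁻ p, B.indicator K (A, p) ∂ν with hZb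
  have mZ : Measurable Z := hK.lintegral_prod_right'
  have mZb : Measurable Zb := (hK.indicator hB).lintegral_prod_right'
  have i1 : ∫⁻ A, Z A ∂μ = 1 := by
    rw [hZ, lintegral_lintegral_swap (f := fun A p => K (A, p)) hK.aemeasurable,
      lintegral_congr_ae h1]
    simp
  have i2 : ∫⁻ A, Zb A ∂μ ≤ ENNReal.ofReal β := by
    rw [hZb, lintegral_lintegral_swap (f := fun A p => B.indicator K (A, p))
      (hK.indicator hB).aemeasurable]
    refine (lintegral_mono_ae (g := fun _ => ENNReal.ofReal β) ?_).trans (by simp)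
    filter_upwards [h3] with p hp
    refine le_trans (le_of_eq ?_) hp
    have mp : MeasurableSet {A | (A, p) ∈ B} := measurable_prodMk_right hB
    rw [← lintegral_indicator mp]
    rfl
  have i3 : ∫⁻ A, Z A * Z A ∂μ ≤ ENNReal.ofReal (1 + D) := by
    have e : ∀ A, Z A * Z A = ∫⁻ p, ∫⁻ p', K (A, p) * K (A, p') ∂ν ∂ν := fun A =>
      (lintegral_lintegral_mul (hK.comp measurable_prodMk_left).aemeasurable
        (hK.comp measurable_prodMk_left).aemeasurable).symm
    have m : Measurable fun q : (α × γ) × γ => K q.1 * K (q.1.1, q.2) := by fun_prop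
    simp only [e]
    rw [lintegral_lintegral_swap (f := fun A p => ∫⁻ p', K (A, p) * K (A, p') ∂ν)
      m.lintegral_prod_right'.aemeasurable]
    refine le_trans (le_of_eq (lintegral_congr fun p => ?_)) h2
    have m' : Measurable fun q : α × γ => K (q.1, p) * K q := by fun_prop
    exact lintegral_lintegral_swap (f := fun A p' => K (A, p) * K (A, p')) m'.aemeasurable
  have sub : S ⊆ {A | Z A ≤ 1 / 2} ∪ {A | 1 / 2 ≤ Zb A} := by
    intro A hA
    have : Zb A = Z A := lintegral_congr_ae (by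
      filter_upwards [h4 A hA] with p hp
      exact indicator_of_mem hp K)
    rcases le_total (Z A) (1 / 2) with h | h
    · exact Or.inl h
    · exact Or.inr (show 1 / 2 ≤ Zb A from this ▸ h)
  have b2 : μ {A | 1 / 2 ≤ Zb A} ≤ ENNReal.ofReal (2 * β) := by
    have := (mul_meas_ge_le_lintegral (μ := μ) mZb (1 / 2)).trans i2
    rw [ENNReal.ofReal_mul (by norm_num), ENNReal.ofReal_ofNat]
    calc μ {A | 1 / 2 ≤ Zb A} = 2 * (1 / 2 * μ {A | 1 / 2 ≤ Zb A}) := by
          rw [← mul_assoc, one_div, ENNReal.mul_inv_cancel (by simp) (by simp), one_mul]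
      _ ≤ _ := by gcongr
  have b1 : μ {A | Z A ≤ 1 / 2} ≤ ENNReal.ofReal (4 * D) := by
    have ms : MeasurableSet {A | Z A ≤ 1 / 2} := measurableSet_le mZ measurable_const
    have := lintegral_mono (μ := μ)
      (f := fun A => {A | Z A ≤ 1 / 2}.indicator 1 A + 8 * Z A)
      (g := fun A => 4 * (Z A * Z A) + 4) (fun A => by
        have := PZ_pt (Z A)
        simpa [indicator] using this)
    rw [lintegral_add_right _ (mZ.const_mul 8), lintegral_add_right _ measurable_const,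
      lintegral_indicator_one ms, lintegral_const_mul _ mZ,
      lintegral_const_mul (f := fun A => Z A * Z A) _ (mZ.mul mZ), i1] at this
    have h5 : 4 * ∫⁻ A, Z A * Z A ∂μ ≤ 4 + ENNReal.ofReal (4 * D) := by
      rw [ENNReal.ofReal_add zero_le_one hD, ENNReal.ofReal_one] at i3
      rw [ENNReal.ofReal_mul (by norm_num), ENNReal.ofReal_ofNat]
      calc _ ≤ 4 * (1 + ENNReal.ofReal D) := by gcongr
        _ = _ := by ring
    have h6 : μ {A | Z A ≤ 1 / 2} + 8 ≤ ENNReal.ofReal (4 * D) + 8 := by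
      calc _ = μ {A | Z A ≤ 1 / 2} + 8 * 1 := by ring
        _ ≤ _ := this
        _ ≤ 4 + ENNReal.ofReal (4 * D) + 4 := by
          simp only [lintegral_const, measure_univ, mul_one]; gcongr
        _ = _ := by ring
    exact ENNReal.le_of_add_le_add_right (by simp) h6
  rw [ENNReal.ofReal_add (by positivity) (by positivity)]
  exact (measure_mono sub).trans ((measure_union_le _ _).trans (add_le_add b1 b2))

theorem p_PZ :
    S_PZ := by
  intro n N ν K B S D β hν hK hB hD hβ h1 h2 h3 h4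
  exact PZ_gen (gN N n) ν K B S D β hK hB hD hβ h1 h2 h3 h4

end Pool.Agent.P.MP_32bf8a_an.VZ
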