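import Pool.Agent.P.MP_32bf8a_an.VZ.Iface

/-! Step RHO. -/

set_option autoImplicit false

namespace Pool.Agent.P.MP_32bf8a_an.VZ

open MeasureTheory Set
open scoped ENNReal Real ComplexConjugate InnerProductSpace

theorem p_RHO (hPT : S_PT) (hRH0 : S_RH0) (hPHA : S_PHA) (hPHB : S_PHB) :
    S_RHO := by
  intro a b c d hD hX
  obtain ⟨z1, z2, d1, d2, -⟩ := hPT a b c d 1 1 norm_one norm_one hD hX _ _ _ _ _ _ rfl rfl rfl rfl
    rfl rfl
  have h0 := hRH0 a b c d hD hX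
  have hl : 1 - 2 * (XX a b c d / 2) ≤ Dl 1 a b c d := by
    unfold Dl
    nlinarith [sq_nonneg ‖a * d - b * c‖]
  generalize a * conj c + b * conj d = z at z1 d1 h0
  generalize conj a * b + conj c * d = z' at z2 d2 h0
  generalize Dl 1 a b c d = D at *
  generalize XX a b c d = X at *
  generalize rho a b c d = ρ at *
  have hu : D ≤ (1 - X / 2) ^ 2 := by nlinarith [sq_nonneg ‖z‖]
  refine ⟨fun h => ?_, fun h hρ => ?_⟩
  · have k1 := (hPHA _ D z z1 (by linarith) hl hu).1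
    have k2 := (hPHA _ D z' z2 (by linarith) hl hu).1
    nlinarith [sq_nonneg X]
  · have hs : 0 < √(√D) := Real.sqrt_pos.2 (Real.sqrt_pos.2 hD)
    have hs4 : √(√D) ^ 4 = D := by
      rw [show (4 : ℕ) = 2 * 2 from rfl, pow_mul, Real.sq_sqrt (Real.sqrt_nonneg _),
        Real.sq_sqrt hD.le]
    generalize √(√D) = s at hs hs4
    have key : ∀ w : ℂ, ‖w‖ ≤ X / 2 → D ≤ (1 - X / 2) ^ 2 - ‖w‖ ^ 2 →
        s * BB (X / 2) D w ≤ 99 / 100 := by
      intro w w1 w2
      rcases le_total (X / 2) (1 / 3) with k | k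
      · exact (hPHA _ D w w1 k hl hu).2 (by linarith) s hs hs4
      · have := hPHB _ s w w1 k (by linarith) hs (hs4 ▸ w2)
        rwa [hs4] at this
    have k1 := key z z1 d1
    have k2 := key z' z2 d2
    have k3 : s * ρ ≤ 99 / 100 := by
      have := mul_le_mul_of_nonneg_left h0 hs.le
      linarith
    calc ρ ^ 4 * D = (s * ρ) ^ 4 := by rw [← hs4]; ring
      _ ≤ (99 / 100) ^ 4 := pow_le_pow_left₀ (mul_nonneg hs.le hρ) k3 4
      _ ≤ 97 / 100 := by norm_num

end Pool.Agent.P.MP_32bf8a_an.VZ
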