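import Pool.Agent.P.MP_32bf8a_an.VZ.Iface

/-! Step ROW. -/

set_option autoImplicit false

namespace Pool.Agent.P.MP_32bf8a_an.VZ

open MeasureTheory Set
open scoped ENNReal Real ComplexConjugate InnerProductSpace

theorem p_ROW (hTILT : S_TILT) (hWICK : S_WICK) :
    S_ROW := by
  intro n w v κ h hκ
  have hk : 0 < 1 + κ := by linarith
  obtain ⟨c, h1, h2, h3⟩ := hTILT n w κ (by rw [h.1]; linarith)
  simp only [h.1, one_pow, mul_one] at h1 h2 h3
  have hc : (1 - c) ^ 2 * (1 + κ) = 1 := by
    rw [eq_div_iff hk.ne'] at h1; linear_combination -h1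
  have hm : Measurable fun a : E n => ENNReal.ofReal (1 + κ * ‖⟪a, v⟫_ℂ‖ ^ 2) :=
    (Continuous.measurable (by fun_prop)).ennreal_ofReal
  have key : ∀ B : Set (E n), MeasurableSet B → ∫⁻ a in B, ENNReal.ofReal (gk κ w v a) ∂gm n =
      ENNReal.ofReal (1 / (1 + κ)) * ∫⁻ a, (tl c w ⁻¹' B).indicator
        (fun a => ENNReal.ofReal (1 + κ * ‖⟪a, v⟫_ℂ‖ ^ 2)) a ∂gm n := by
    intro B hB
    rw [← lintegral_indicator hB]
    refine (lintegral_congr fun a => ?_).trans ((h3 _ (hm.indicator hB)).trans ?_)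
    · by_cases ha : a ∈ B
      · simp only [indicator_of_mem ha, gk]; rw [ENNReal.ofReal_mul (by positivity)]
      · simp only [indicator_of_notMem ha, zero_mul]
    · congr 1
      refine lintegral_congr fun a => ?_
      simp only [indicator, inner_tl, tl_of_orth c h.2.2]; rfl
  refine ⟨?_, c, by nlinarith [sq_nonneg (1 - c), mul_nonneg hκ (sq_nonneg (1 - c))], by linarith,
    hc, fun B η hB hη => ?_⟩
  · have e := (hWICK n).2 v v κ 0 hκ le_rfl
    simp only [zero_mul, add_zero, mul_one, mul_zero, h.2.1, one_pow] at e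
    have := key univ MeasurableSet.univ
    rw [Measure.restrict_univ, preimage_univ, indicator_univ, e,
      ← ENNReal.ofReal_mul (by positivity), one_div_mul_cancel hk.ne', ENNReal.ofReal_one] at this
    exact this
  · have e := (hWICK n).2 v v κ κ hκ hκ
    simp only [h.2.1, h.yy, norm_one, one_pow, mul_one] at e
    have hB' : MeasurableSet (tl c w ⁻¹' B) := (continuous_tl c w).measurable hB
    have hm2 : Measurable fun a : E n =>
        ENNReal.ofReal ((1 + κ * ‖⟪a, v⟫_ℂ‖ ^ 2) * (1 + κ * ‖⟪a, v⟫_ℂ‖ ^ 2)) :=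
      (Continuous.measurable (by fun_prop)).ennreal_ofReal
    rw [key B hB, ← lintegral_const_mul _ (hm.indicator hB')]
    calc _ ≤ ∫⁻ a, (ENNReal.ofReal (η / (2 * (1 + κ) ^ 2)) *
          ENNReal.ofReal ((1 + κ * ‖⟪a, v⟫_ℂ‖ ^ 2) * (1 + κ * ‖⟪a, v⟫_ℂ‖ ^ 2)) +
          ENNReal.ofReal (1 / (2 * η)) * (tl c w ⁻¹' B).indicator 1 a) ∂gm n := by
          refine lintegral_mono fun a => ?_
          by_cases ha : a ∈ tl c w ⁻¹' B
          · simp only [indicator_of_mem ha, Pi.one_apply, mul_one]
            rw [← ENNReal.ofReal_mul (by positivity), ← ENNReal.ofReal_mul (by positivity),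
              ← ENNReal.ofReal_add (by positivity) (by positivity)]
            refine ENNReal.ofReal_le_ofReal ?_
            generalize 1 + κ * ‖⟪a, v⟫_ℂ‖ ^ 2 = X
            have : η / (2 * (1 + κ) ^ 2) * (X * X) + 1 / (2 * η) - 1 / (1 + κ) * X =
                (η * X / (1 + κ) - 1) ^ 2 / (2 * η) := by field_simp; ring
            have : 0 ≤ (η * X / (1 + κ) - 1) ^ 2 / (2 * η) := by positivity
            linarith
          · simp only [indicator_of_notMem ha, mul_zero, zero_le]
      _ ≤ _ := by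
          rw [lintegral_add_left (hm2.const_mul _), lintegral_const_mul _ hm2, e,
            lintegral_const_mul _ (measurable_one.indicator hB'), lintegral_indicator_one hB',
            ← ENNReal.ofReal_mul (by positivity)]
          refine add_le_add (ENNReal.ofReal_le_ofReal ?_) le_rfl
          rw [div_mul_eq_mul_div, div_le_iff₀ (by positivity)]
          nlinarith [mul_nonneg hη.le hκ]

end Pool.Agent.P.MP_32bf8a_an.VZ
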