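import Pool.Agent.P.MP_32bf8a_an.VZ.Iface

/-! Step SEC. -/

set_option autoImplicit false

namespace Pool.Agent.P.MP_32bf8a_an.VZ

open MeasureTheory Set
open scoped ENNReal Real ComplexConjugate InnerProductSpace

theorem SEC_on {M n N : ℕ} {ε : ℝ} {U U' : Submodule ℂ (E n)} {P Q : E M → E n}
    (h : Lift M n N ε U U' P Q) {x y : E M} (o : ON x y) : ON (P x) (Q y) := by
  refine ⟨norm_of_inner ?_, norm_of_inner ?_, ?_⟩
  · rw [h.PP, o.xx]; ring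
  · rw [h.QQ, o.yy]; ring
  · rw [h.PQ, o.2.2, mul_zero]

theorem SEC_meas {M : ℕ} (c : ℝ) (x y : E M) : Measurable fun p : E M × E M =>
    ENNReal.ofReal ((Dl c ⟪p.1, x⟫_ℂ ⟪p.1, y⟫_ℂ ⟪p.2, x⟫_ℂ ⟪p.2, y⟫_ℂ)⁻¹ ^ M) := by
  have : Continuous fun p : E M × E M => Dl c ⟪p.1, x⟫_ℂ ⟪p.1, y⟫_ℂ ⟪p.2, x⟫_ℂ ⟪p.2, y⟫_ℂ := by
    unfold Dl XX; fun_prop
  exact (this.measurable.inv.pow_const M).ennreal_ofReal

theorem p_SEC (hFR : S_FR) (hPOW : S_POW) (hGT : S_GT) (hFUB : S_FUB) :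
    S_SEC := by
  intro M n N ε κ U U' P Q hM hN hε0 hε hκ hL
  obtain ⟨ν, hprob, hae, hint⟩ := hFR M (by omega)
  have hT : Measurable fun p : E M × E M => (P p.1, Q p.2) :=
    (hL.mP.comp measurable_fst).prodMk (hL.mQ.comp measurable_snd)
  refine ⟨ν.map fun p => (P p.1, Q p.2), Measure.isProbabilityMeasure_map hT.aemeasurable,
    fun S hS h => (ae_map_iff (p := fun p => p ∈ S) hT.aemeasurable hS).2
      (hae.mono fun p hp => h _ _ hp), ?_⟩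
  obtain ⟨q, hq⟩ : ∃ q : ℝ, q = κ / (1 + κ) := ⟨_, rfl⟩
  have hk : 0 < 1 + κ := by linarith
  have hq0 : 0 ≤ q := by rw [hq]; positivity
  have hq1 : (1 - q) * (1 + κ) = 1 := by rw [hq]; field_simp; ring
  have hq2 : q < 1 := by rw [hq, div_lt_one hk]; linarith
  have hq3 : q ^ 2 ≤ q := by nlinarith
  have hq4 : (1 - q ^ 2)⁻¹ ≤ 1 + κ := by
    rw [inv_le_iff_one_le_mul₀ (by linarith)]
    nlinarith
  have ha : (0 : ℝ) ≤ 2000 / M := by positivity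
  have hb : (0 : ℝ) ≤ 2 * (97 / 100) ^ M * (1 + κ) ^ 2 := by positivity
  refine (lintegral_map_le _ _).trans ?_
  refine (lintegral_mono_ae (g := fun _ =>
    ENNReal.ofReal (1 + (128000 / M + 2 * (97 / 100) ^ M * (1 + κ) ^ 8)))
    (hae.mono fun p hp => ?_)).trans (by simp)
  refine (lintegral_map_le _ _).trans ?_
  refine (lintegral_mono_ae (g := fun p' => 1 + (ENNReal.ofReal (2000 / M) * ENNReal.ofReal
      ((Dl (1 / 2) ⟪p'.1, p.1⟫_ℂ ⟪p'.1, p.2⟫_ℂ ⟪p'.2, p.1⟫_ℂ ⟪p'.2, p.2⟫_ℂ)⁻¹ ^ M) +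
      ENNReal.ofReal (2 * (97 / 100) ^ M * (1 + κ) ^ 2) * ENNReal.ofReal
      ((Dl (q ^ 2) ⟪p'.1, p.1⟫_ℂ ⟪p'.1, p.2⟫_ℂ ⟪p'.2, p.1⟫_ℂ ⟪p'.2, p.2⟫_ℂ)⁻¹ ^ M)))
    (hae.mono fun p' hp' => ?_)).trans ?_
  · obtain ⟨h0, h1⟩ := (hGT n _ _ κ (SEC_on hL hp') hκ).2 _ _ q (SEC_on hL hp) hq
    have h2 := (hFUB n N (fun a => GG κ (P p'.1) (Q p'.2) a * GG κ (P p.1) (Q p.2) a)
      ((measurable_GG' _ _ _).mul (measurable_GG' _ _ _))).1
    rw [h1] at h2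
    simp only [Finset.prod_mul_distrib] at h2
    simp only [mul_comm (∏ j, GG κ (P p.1) (Q p.2) _)]
    rw [h2, ← ENNReal.ofReal_pow h0]
    rw [hL.PP, hL.PQ, hL.QP, hL.QQ] at h0 ⊢
    refine (ENNReal.ofReal_le_ofReal
      (hPOW M N _ _ _ _ κ q ε _ hM hN (hp'.ct hp) hκ hq hε0 hε rfl h0)).trans ?_
    rw [add_assoc, ← ENNReal.ofReal_mul ha, ← ENNReal.ofReal_mul hb, ← ENNReal.ofReal_one]
    exact ENNReal.ofReal_add_le.trans (add_le_add_right ENNReal.ofReal_add_le _)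
  · rw [lintegral_add_left measurable_const, lintegral_add_left ((SEC_meas _ _ _).const_mul _),
      lintegral_const_mul _ (SEC_meas _ _ _), lintegral_const_mul _ (SEC_meas _ _ _)]
    have i1 := hint p.1 p.2 (1 / 2) hp (by norm_num) (by norm_num)
    have i2 := (hint p.1 p.2 (q ^ 2) hp (by positivity) (by linarith)).trans
      (ENNReal.ofReal_le_ofReal (pow_le_pow_left₀ (inv_nonneg.2 (by linarith)) hq4 6))
    refine (add_le_add_right (add_le_add (mul_le_mul_right i1 _) (mul_le_mul_right i2 _)) _).trans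
      (le_of_eq ?_)
    rw [← ENNReal.ofReal_mul ha, ← ENNReal.ofReal_mul hb, lintegral_const, measure_univ, mul_one,
      ← ENNReal.ofReal_one, ← ENNReal.ofReal_add (by positivity) (by positivity),
      ← ENNReal.ofReal_add (by positivity) (by positivity)]
    congr 1
    ring

end Pool.Agent.P.MP_32bf8a_an.VZ
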