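import Pool.Agent.P.MP_32bf8a_an.VZ.Iface

/-! Step SM. -/

set_option autoImplicit false

namespace Pool.Agent.P.MP_32bf8a_an.VZ

open MeasureTheory Set
open scoped ENNReal Real ComplexConjugate InnerProductSpace

theorem SM_gen (hROW : S_ROW) (hWICK : S_WICK) {n : ℕ} {x y : E n} {κ η s : ℝ} (h : ON x y)
    (hκ : 0 ≤ κ) (hη : 0 < η) (hs : 0 < s) {B : Set (E n)} (hB : MeasurableSet B)
    (H : ∀ (d : ℂ) (c : ℝ) (a : E n), ‖d‖ = 1 → 0 ≤ c → c < 1 → (1 - c) ^ 2 * (1 + κ) = 1 →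
      tl c (wv x y d) a ∈ B → s < ‖a‖ ^ 2) :
    ∫⁻ a in B, GG κ x y a ∂gm n ≤ ENNReal.ofReal (η + n / (2 * η * s)) := by
  unfold GG
  rw [lintegral_lintegral_swap (continuous_gk' κ x y).measurable.ennreal_ofReal.aemeasurable]
  refine (lintegral_mono fun θ => ?_).trans (lintegral_const _).le |>.trans (by simp; rfl)
  obtain ⟨-, c, c0, c1, c2, h1⟩ := hROW n _ _ κ (h.wv (norm_ex θ)) hκ
  refine (h1 B η hB hη).trans ?_
  rw [ENNReal.ofReal_add hη.le (by positivity), show (n : ℝ) / (2 * η * s) = 1 / (2 * η) * (n / s)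
    by field_simp, ENNReal.ofReal_mul (by positivity)]
  gcongr
  exact (measure_mono fun a ha => H _ c a (norm_ex θ) c0 c1 c2 ha).trans ((hWICK n).1 s hs)

theorem p_SM (hROW : S_ROW) (hWICK : S_WICK) :
    S_SM := by
  intro n x y κ η L δ h hκ hη hL hδ
  refine ⟨SM_gen hROW hWICK h hκ hη (pow_pos hL 2) (isOpen_lt continuous_const
    continuous_norm).measurableSet fun d c a hd c0 c1 _ ha => ?_, ?_⟩
  · have hw := (h.wv hd).1
    have e : ‖tl c (wv x y d) a‖ ^ 2 = ‖a‖ ^ 2 - (2 * c - c ^ 2) * ‖⟪wv x y d, a⟫_ℂ‖ ^ 2 := by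
      rw [tl, @norm_sub_sq ℂ, inner_smul_right, norm_smul, hw, ← inner_conj_symm a, mul_assoc,
        Complex.mul_conj', norm_mul, Complex.norm_real, Real.norm_of_nonneg c0]
      simp only [RCLike.re_to_complex, ← Complex.ofReal_pow, ← Complex.ofReal_mul,
        Complex.ofReal_re]
      ring
    have := pow_lt_pow_left₀ (show L < _ from ha) hL.le two_ne_zero
    nlinarith [mul_nonneg (mul_nonneg c0 (by linarith : 0 ≤ 2 - c)) (sq_nonneg ‖⟪wv x y d, a⟫_ℂ‖)]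
  rw [mul_assoc (2 * η)]
  have s0 := Real.sqrt_pos.2 (by linarith : 0 < 1 + κ)
  refine SM_gen hROW hWICK h hκ hη (mul_pos hδ s0) (isOpen_lt continuous_const
    (continuous_ff x y).abs).measurableSet fun d c a hd c0 c1 c2 ha => ?_
  have o := h.wv hd
  have e : ∀ b : E n, ff x y b = 2 * (conj ⟪b, wv x y d⟫_ℂ * ⟪b, wv x y (-d)⟫_ℂ).re := fun b => by
    have h2 : ((√2 : ℝ) : ℂ)⁻¹ * ((√2 : ℝ) : ℂ)⁻¹ = 1 / 2 := by
      rw [← mul_inv, ← Complex.ofReal_mul, Real.mul_self_sqrt zero_le_two]; simp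
    have : conj ⟪b, wv x y d⟫_ℂ * ⟪b, wv x y (-d)⟫_ℂ = 1 / 2 * (conj ⟪b, x⟫_ℂ * ⟪b, x⟫_ℂ -
        conj ⟪b, y⟫_ℂ * ⟪b, y⟫_ℂ + (conj (d * ⟪b, y⟫_ℂ * conj ⟪b, x⟫_ℂ) -
        d * ⟪b, y⟫_ℂ * conj ⟪b, x⟫_ℂ)) := by
      simp only [wv, inner_smul_right, inner_add_right, map_mul, map_add, map_inv₀,
        Complex.conj_ofReal, Complex.conj_conj]
      linear_combination (conj ⟪b, x⟫_ℂ + conj d * conj ⟪b, y⟫_ℂ) * (⟪b, x⟫_ℂ - d * ⟪b, y⟫_ℂ) * h2 -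
        1 / 2 * conj ⟪b, y⟫_ℂ * ⟪b, y⟫_ℂ * conj_mul_unit hd
    rw [this, Complex.conj_mul', Complex.conj_mul', ff]
    generalize d * ⟪b, y⟫_ℂ * conj ⟪b, x⟫_ℂ = t
    simp [← Complex.ofReal_pow]
  have e1 : tl c (wv x y d) (wv x y d) = ((1 - c : ℝ) : ℂ) • wv x y d := by
    rw [tl, o.xx]; push_cast; module
  have b := o.bessel a
  have ha' : δ < |ff x y (tl c (wv x y d) a)| := ha
  rw [e, inner_tl, inner_tl, e1, tl_of_orth c o.2.2, inner_smul_right, map_mul, Complex.conj_ofReal,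
    mul_assoc, Complex.re_ofReal_mul, abs_mul, abs_mul, abs_two, abs_of_pos (sub_pos.2 c1)] at ha'
  have r := Complex.abs_re_le_norm (conj ⟪a, wv x y d⟫_ℂ * ⟪a, wv x y (-d)⟫_ℂ)
  rw [norm_mul, Complex.norm_conj, norm_inner_symm a, norm_inner_symm a] at r
  have k : (1 - c) * √(1 + κ) = 1 := by
    rw [← Real.sqrt_sq (sub_pos.2 c1).le, ← Real.sqrt_mul (sq_nonneg _), c2, Real.sqrt_one]
  have r2 : 2 * |(conj ⟪a, wv x y d⟫_ℂ * ⟪a, wv x y (-d)⟫_ℂ).re| ≤ ‖a‖ ^ 2 := by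
    nlinarith [sq_nonneg (‖⟪wv x y d, a⟫_ℂ‖ - ‖⟪wv x y (-d), a⟫_ℂ‖),
      sq_nonneg ‖pp (wv x y d) (wv x y (-d)) a‖]
  have := mul_lt_mul_of_pos_right ha' s0
  calc _ < _ := this
    _ = 2 * |(conj ⟪a, wv x y d⟫_ℂ * ⟪a, wv x y (-d)⟫_ℂ).re| * ((1 - c) * √(1 + κ)) := by ring
    _ ≤ _ := by rw [k, mul_one]; exact r2

end Pool.Agent.P.MP_32bf8a_an.VZ
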