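import Pool.Agent.P.MP_32bf8a_an.VZ.Iface

/-! Step SPL. -/

set_option autoImplicit false

namespace Pool.Agent.P.MP_32bf8a_an.VZ

open MeasureTheory Set Function
open scoped ENNReal Real ComplexConjugate InnerProductSpace

theorem SPL_pi {n : ℕ} (i : Fin n) (G : (Fin n → ℂ) → ℝ≥0∞) (hG : Measurable G) :
    ∫⁻ u, G u ∂(Measure.pi fun _ : Fin n => cg) =
      ∫⁻ u, ∫⁻ z, G (update u i z) ∂cg ∂(Measure.pi fun _ : Fin n => cg) := by
  have hm : Measurable fun u : Fin n → ℂ => ∫⁻ z, G (update u i z) ∂cg :=
    Measurable.lintegral_prod_right' (f := fun p : (Fin n → ℂ) × ℂ => G (update p.1 i p.2))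
      (hG.comp (measurable_update' (a := i)))
  refine lintegral_eq_of_lmarginal_eq {i} hG hm ?_
  simp only [lmarginal_singleton, update_idem, lintegral_const, measure_univ, mul_one]

theorem p_SPL (hLIN : S_LIN) :
    S_SPL := by
  intro n e he F hF
  have hn : n ≠ 0 := by
    rintro rfl
    rw [Subsingleton.elim e 0, norm_zero] at he
    exact zero_ne_one he
  let i : Fin n := ⟨0, Nat.pos_of_ne_zero hn⟩
  obtain ⟨b, hb⟩ := Orthonormal.exists_orthonormalBasis_extension_of_card_eq (𝕜 := ℂ)
    (E := E n) (ι := Fin n) (by simp) (v := fun _ => e) (s := {i})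
    ⟨fun _ => he, fun j k h => (h (Subsingleton.elim j k)).elim⟩
  have hb := hb i rfl
  obtain ⟨c, hc⟩ := hLIN n b.repr.symm.toLinearEquiv (fun _ => 0) measurable_const (fun a => by
    simp)
  simp only [neg_zero, Real.exp_zero, ENNReal.ofReal_one, mul_one] at hc
  have h1 : c = 1 := by simpa using (hc (fun _ => 1) measurable_const).symm
  simp only [h1, one_mul] at hc
  have hS : Measurable b.repr.symm := b.repr.symm.continuous.measurable
  have hm : Measurable fun a : E n => ∫⁻ z, F (a - ⟪e, a⟫_ℂ • e + z • e) ∂cg :=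
    Measurable.lintegral_prod_right' (f := fun p : E n × ℂ => F (p.1 - ⟪e, p.1⟫_ℂ • e + p.2 • e))
      (hF.comp (Continuous.measurable (by fun_prop)))
  rw [hc F hF, hc _ hm]
  simp only [LinearIsometryEquiv.coe_toLinearEquiv]
  refine (lintegral_map (hF.comp hS) measurable_toLp).trans
    ((SPL_pi i _ ((hF.comp hS).comp measurable_toLp)).trans
      (Eq.trans ?_ (lintegral_map (hm.comp hS) measurable_toLp).symm))
  refine lintegral_congr fun u => lintegral_congr fun z => congrArg F ?_
  apply b.repr.injective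
  ext j
  simp only [← hb, map_add, map_sub, map_smul, LinearIsometryEquiv.apply_symm_apply,
    ← b.repr_apply_apply, b.repr_self]
  by_cases h : j = i
  · subst h; simp
  · simp [h]

end Pool.Agent.P.MP_32bf8a_an.VZ
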