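import Pool.Agent.P.MP_32bf8a_an.VZ.Iface

/-! Step SUB. -/

set_option autoImplicit false

namespace Pool.Agent.P.MP_32bf8a_an.VZ

open MeasureTheory Set
open scoped ENNReal Real ComplexConjugate InnerProductSpace

theorem SUB_re (θ : ℝ) (z : ℂ) : -‖z‖ ≤ (ex θ * z).re := by
  have h := Complex.abs_re_le_norm (ex θ * z)
  rw [norm_mul, norm_ex, one_mul] at h
  exact (abs_le.1 h).1

theorem SUB_lem (hPOI : S_POI) {c τ : ℝ} {z : ℂ} (hc : 0 < c) (hτ : 0 < τ) (hz : ‖z‖ ≤ c) :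
    um {θ | c + (ex θ * z).re < τ * c} ≤ ENNReal.ofReal (√(2 * τ)) := by
  have htc : 0 < τ * c := mul_pos hτ hc
  have hpos : ∀ θ, 0 < (1 + τ) * c - (ex θ * -z).re := fun θ => by
    have := SUB_re θ z
    rw [mul_neg, Complex.neg_re]
    linarith
  have hcont : Continuous fun θ => 2 * τ * c * ((1 + τ) * c - (ex θ * -z).re)⁻¹ :=
    continuous_const.mul (Continuous.inv₀ (by fun_prop) fun θ => (hpos θ).ne')
  have hI := (hPOI (-z)).2.2 ((1 + τ) * c) (by rw [norm_neg]; linarith)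
  refine (meas_le_lintegral₀ (μ := um) hcont.measurable.ennreal_ofReal.aemeasurable ?_).trans ?_
  · intro θ hθ
    have h1 : c + (ex θ * z).re < τ * c := hθ
    rw [ENNReal.one_le_ofReal, ← div_eq_mul_inv, le_div_iff₀ (hpos θ), mul_neg, Complex.neg_re]
    linarith
  · rw [← ofReal_integral_eq_lintegral_ofReal (integrable_um hcont)
      (.of_forall fun θ => mul_nonneg (by positivity) (inv_nonneg.2 (hpos θ).le)),
      integral_const_mul, hI, norm_neg]
    refine ENNReal.ofReal_le_ofReal ?_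
    have h2 : √(2 * τ) * c ≤ √(((1 + τ) * c) ^ 2 - ‖z‖ ^ 2) := by
      refine Real.le_sqrt_of_sq_le ?_
      rw [mul_pow, Real.sq_sqrt (by positivity)]
      have := pow_le_pow_left₀ (norm_nonneg z) hz 2
      nlinarith [sq_nonneg (τ * c)]
    have h3 : 0 < √(2 * τ) := Real.sqrt_pos.2 (by positivity)
    have h4 : 0 < √(2 * τ) * c := mul_pos h3 hc
    rw [← div_eq_mul_inv, div_le_iff₀ (h4.trans_le h2)]
    have h5 : √(2 * τ) * √(2 * τ) = 2 * τ := Real.mul_self_sqrt (by positivity)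
    calc 2 * τ * c = √(2 * τ) * (√(2 * τ) * c) := by rw [← mul_assoc, h5]
      _ ≤ _ := mul_le_mul_of_nonneg_left h2 h3.le

theorem SUB_alg {a b s t τ : ℝ} (h1 : a ^ 2 + b ^ 2 = 1) (h2 : s ^ 2 + t ^ 2 = 1)
    (h : |a - s| < τ) : 1 - (a * s - b * t) < τ ∨ 1 - (a * s + b * t) < τ := by
  by_contra hn
  push Not at hn
  have h0 : 0 < τ := (abs_nonneg _).trans_lt h
  have h3 : (a - s) ^ 2 < τ ^ 2 := by
    rw [← sq_abs]
    exact pow_lt_pow_left₀ h (abs_nonneg _) two_ne_zero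
  have h4 := mul_le_mul hn.1 hn.2 h0.le (h0.le.trans hn.1)
  have h5 : (1 - (a * s - b * t)) * (1 - (a * s + b * t)) = (a - s) ^ 2 := by
    linear_combination (-t ^ 2) * h1 + (a ^ 2 - 1) * h2
  nlinarith

theorem SUB_unit {w : ℂ} (h : ‖w‖ = 1) : w.re ^ 2 + w.im ^ 2 = 1 := by
  have := Complex.sq_norm w
  rw [h, Complex.normSq_apply] at this
  linarith

theorem p_SUB (hPOI : S_POI) :
    S_SUB := by
  intro c τ z hτ
  have hs : 2 * √(2 * τ) ≤ 3 * √τ := by
    have h1 : √(2 * τ) ≤ 3 / 2 * √τ := by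
      refine Real.sqrt_le_iff.2 ⟨by positivity, ?_⟩
      rw [mul_pow, Real.sq_sqrt hτ.le]
      linarith
    linarith
  have hs0 : 0 ≤ √(2 * τ) := Real.sqrt_nonneg _
  have hs1 : ENNReal.ofReal (√(2 * τ)) ≤ ENNReal.ofReal (3 * √τ) :=
    ENNReal.ofReal_le_ofReal (by linarith)
  rcases le_or_gt ‖z‖ |c| with h | h
  · rw [max_eq_left h]
    rcases lt_trichotomy c 0 with hc | hc | hc
    · rw [abs_of_neg hc] at h ⊢
      refine le_trans (measure_mono fun θ hθ => ?_)
        ((SUB_lem hPOI (z := -z) (neg_pos.2 hc) hτ (by rwa [norm_neg])).trans hs1)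
      have h1 : |c + (ex θ * z).re| < τ * -c := hθ
      show -c + (ex θ * -z).re < τ * -c
      rw [mul_neg (ex θ), Complex.neg_re]
      linarith [(abs_lt.1 h1).1]
    · subst hc
      have : {θ | |0 + (ex θ * z).re| < τ * |(0 : ℝ)|} = ∅ := by
        ext θ
        simp
      rw [this, measure_empty]
      exact zero_le
    · rw [abs_of_pos hc] at h ⊢
      refine le_trans (measure_mono fun θ hθ => ?_) ((SUB_lem hPOI hc hτ h).trans hs1)
      have h1 : |c + (ex θ * z).re| < τ * c := hθ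
      exact (abs_lt.1 h1).2
  · rw [max_eq_right h.le]
    have hr : 0 < ‖z‖ := (abs_nonneg c).trans_lt h
    obtain ⟨z0, hz0, hzz⟩ : ∃ z0 : ℂ, ‖z0‖ = 1 ∧ z = (‖z‖ : ℝ) * z0 := by
      have hr' : ((‖z‖ : ℝ) : ℂ) ≠ 0 := by exact_mod_cast hr.ne'
      refine ⟨z / (‖z‖ : ℝ), ?_, (mul_div_cancel₀ _ hr').symm⟩
      rw [norm_div, Complex.norm_real, norm_norm, div_self hr.ne']
    set s : ℝ := -c / ‖z‖ with hsdef
    have hs2 : s ^ 2 ≤ 1 := by
      rw [sq_le_one_iff_abs_le_one, hsdef, abs_div, abs_neg, abs_norm, div_le_one hr]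
      exact h.le
    have ht : s ^ 2 + √(1 - s ^ 2) ^ 2 = 1 := by
      rw [Real.sq_sqrt (by linarith)]; ring
    set t : ℝ := √(1 - s ^ 2)
    have hω : ∀ u : ℝ, u ^ 2 = t ^ 2 → ‖-(z0 * ⟨s, u⟩)‖ ≤ 1 := fun u hu => by
      rw [norm_neg, norm_mul, hz0, one_mul, ← sq_le_one_iff₀ (norm_nonneg _), Complex.sq_norm,
        Complex.normSq_mk]
      nlinarith
    have k1 := SUB_lem hPOI one_pos hτ (hω t rfl)
    have k2 := SUB_lem hPOI one_pos hτ (hω (-t) (neg_sq t))
    refine le_trans (measure_mono fun θ hθ => ?_) ((measure_union_le _ _).trans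
      ((add_le_add k1 k2).trans ?_))
    · have h1 : |c + (ex θ * z).re| < τ * ‖z‖ := hθ
      have h2 : ‖ex θ * z0‖ = 1 := by rw [norm_mul, norm_ex, hz0, one_mul]
      have h3 : c + (ex θ * z).re = ((ex θ * z0).re - s) * ‖z‖ := by
        have : (ex θ * z).re = ‖z‖ * (ex θ * z0).re := by
          rw [← Complex.re_ofReal_mul, mul_left_comm, ← hzz]
        rw [this, sub_mul, hsdef, div_mul_cancel₀ _ hr.ne']
        ring
      rw [h3, abs_mul, abs_norm, mul_lt_mul_iff_left₀ hr] at h1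
      have h4 : ∀ u : ℝ, (ex θ * -(z0 * ⟨s, u⟩)).re =
          -((ex θ * z0).re * s - (ex θ * z0).im * u) := fun u => by
        rw [mul_neg, Complex.neg_re, ← mul_assoc, Complex.mul_re (ex θ * z0)]
      rcases SUB_alg (SUB_unit h2) ht h1 with h5 | h5
      · left
        show 1 + (ex θ * -(z0 * ⟨s, t⟩)).re < τ * 1
        rw [h4]; linarith
      · right
        show 1 + (ex θ * -(z0 * ⟨s, -t⟩)).re < τ * 1
        rw [h4]; linarith
    · rw [← ENNReal.ofReal_add hs0 hs0]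
      exact ENNReal.ofReal_le_ofReal (by linarith)

end Pool.Agent.P.MP_32bf8a_an.VZ
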