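import Pool.Agent.P.MP_32bf8a_an.VZ.Iface

/-! Step TILT. -/

set_option autoImplicit false

namespace Pool.Agent.P.MP_32bf8a_an.VZ

open MeasureTheory Set
open scoped ENNReal Real ComplexConjugate InnerProductSpace

theorem TILT_sq {n : ℕ} (z : E n) : ⟪z, z⟫_ℂ = ((‖z‖ ^ 2 : ℝ) : ℂ) := by
  rw [inner_self_eq_norm_sq_to_K]; simp

theorem TILT_inv {n : ℕ} {c c' : ℝ} {w : E n} (h : c + c' - c * c' * ‖w‖ ^ 2 = 0) (a : E n) :
    tl c w (tl c' w a) = a := by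
  have h' : (c : ℂ) + c' - c * c' * ((‖w‖ ^ 2 : ℝ) : ℂ) = 0 := by exact_mod_cast h
  simp only [tl, inner_sub_right, inner_smul_right, TILT_sq]
  rw [sub_sub, ← add_smul, sub_eq_self]
  have : (c' : ℂ) * ⟪w, a⟫_ℂ + c * (⟪w, a⟫_ℂ - c' * ⟪w, a⟫_ℂ * ((‖w‖ ^ 2 : ℝ) : ℂ)) = 0 := by
    linear_combination ⟪w, a⟫_ℂ * h'
  rw [this, zero_smul]

theorem TILT_norm {n : ℕ} (c : ℝ) (w a : E n) :
    ‖tl c w a‖ ^ 2 = ‖a‖ ^ 2 + (-2 * c + c ^ 2 * ‖w‖ ^ 2) * ‖⟪a, w⟫_ℂ‖ ^ 2 := by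
  have e' : ∀ z : ℂ, ((‖z‖ ^ 2 : ℝ) : ℂ) = conj z * z := fun z => by
    rw [Complex.conj_mul']; simp
  apply Complex.ofReal_injective
  rw [Complex.ofReal_add, Complex.ofReal_mul, e', ← TILT_sq, ← TILT_sq, Complex.ofReal_add,
    Complex.ofReal_mul, Complex.ofReal_mul, ← TILT_sq]
  simp only [tl, inner_sub_left, inner_sub_right, inner_smul_left, inner_smul_right, map_mul,
    Complex.conj_ofReal, inner_conj_symm]
  push_cast
  ring

/-- the tilt as a linear equivalence -/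
noncomputable def TILT_eq {n : ℕ} {c c' : ℝ} {w : E n} (h : c + c' - c * c' * ‖w‖ ^ 2 = 0) :
    E n ≃ₗ[ℂ] E n where
  toFun := tl c w
  invFun := tl c' w
  map_add' := fun a b => by
    simp only [tl, inner_add_right, mul_add, add_smul]; abel
  map_smul' := fun r a => by
    simp only [tl, inner_smul_right, RingHom.id_apply, smul_sub, smul_smul, mul_left_comm]
  left_inv := TILT_inv (by linear_combination h)
  right_inv := TILT_inv h

theorem p_TILT (hLIN : S_LIN) (hMOM : S_MOM) :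
    S_TILT := by
  intro n w κ hκ
  obtain ⟨s, hs, hs2⟩ : ∃ s : ℝ, 0 < s ∧ s ^ 2 = 1 + κ * ‖w‖ ^ 2 :=
    ⟨√(1 + κ * ‖w‖ ^ 2), Real.sqrt_pos.2 hκ, Real.sq_sqrt hκ.le⟩
  obtain ⟨c, hc⟩ : ∃ c : ℝ, c * (s * (s + 1)) = κ :=
    ⟨κ / (s * (s + 1)), div_mul_cancel₀ _ (by positivity)⟩
  have hq : c * ‖w‖ ^ 2 * s = s - 1 := by
    apply mul_right_cancel₀ (show s + 1 ≠ 0 by positivity)
    linear_combination ‖w‖ ^ 2 * hc - hs2
  have h0 : c + -c * s - c * (-c * s) * ‖w‖ ^ 2 = 0 := by linear_combination c * hq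
  have h1 : -2 * (-c * s) + (-c * s) ^ 2 * ‖w‖ ^ 2 = κ := by
    linear_combination c * s * hq + hc
  obtain ⟨C, hC⟩ := hLIN n (TILT_eq h0) (fun a => κ * ‖⟪a, w⟫_ℂ‖ ^ 2)
    (Continuous.measurable (by fun_prop)) (fun a => by
      have := TILT_norm (-c * s) w a
      rw [h1] at this
      exact this)
  have hC1 := hC (fun _ => 1) measurable_const
  simp only [one_mul, lintegral_const, measure_univ, mul_one] at hC1
  rw [(hMOM n w).2.2 κ hκ] at hC1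
  refine ⟨c, ?_, ?_, fun F hF => ?_⟩
  · rw [← hs2, eq_div_iff (by positivity)]
    linear_combination hc - c * s * hq
  · have : (1 - c * ‖w‖ ^ 2) * s = 1 := by linear_combination -hq
    exact (mul_pos_iff_of_pos_right hs).1 (by rw [this]; exact one_pos)
  · rw [hC1]; exact hC F hF

end Pool.Agent.P.MP_32bf8a_an.VZ
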