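import Pool.Agent.P.MP_32bf8a_an.VZ.Iface

/-! Step TWO. -/

set_option autoImplicit false

namespace Pool.Agent.P.MP_32bf8a_an.VZ

open MeasureTheory Set
open scoped ENNReal Real ComplexConjugate InnerProductSpace

theorem TWO_tl {n : ℕ} (c : ℝ) (w p p' : E n) : ⟪tl c w p, tl c w p'⟫_ℂ =
    ⟪p, p'⟫_ℂ - ((2 * c - c ^ 2 * ‖w‖ ^ 2 : ℝ) : ℂ) * (⟪p, w⟫_ℂ * ⟪w, p'⟫_ℂ) := by
  have e : ⟪w, w⟫_ℂ = ((‖w‖ : ℝ) : ℂ) ^ 2 := by rw [inner_self_eq_norm_sq_to_K]; rfl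
  simp only [tl, inner_sub_left, inner_sub_right, inner_smul_left, inner_smul_right, map_mul,
    Complex.conj_ofReal, inner_conj_symm, e]
  push_cast
  ring

theorem TWO_nm {n : ℕ} (c : ℝ) (w p : E n) : ‖tl c w p‖ ^ 2 =
    ‖p‖ ^ 2 - (2 * c - c ^ 2 * ‖w‖ ^ 2) * ‖⟪w, p⟫_ℂ‖ ^ 2 := by
  have e : ∀ z : E n, ((‖z‖ ^ 2 : ℝ) : ℂ) = ⟪z, z⟫_ℂ := fun z => by
    rw [inner_self_eq_norm_sq_to_K]; simp
  have e' : ∀ z : ℂ, ((‖z‖ ^ 2 : ℝ) : ℂ) = conj z * z := fun z => by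
    rw [Complex.conj_mul']; simp
  apply Complex.ofReal_injective
  rw [Complex.ofReal_sub, Complex.ofReal_mul, e, e, e', TWO_tl, inner_conj_symm]

theorem p_TWO (hTILT : S_TILT) (hWICK : S_WICK) :
    S_TWO := by
  intro n w v w' v' κ q h h' hκ hq
  have hk : 0 < 1 + κ := by positivity
  have hκq : κ = q * (1 + κ) := by rw [hq]; field_simp
  have hq0 : 0 ≤ q := by rw [hq]; positivity
  have hq1 : q < 1 := by rw [hq, div_lt_one hk]; linarith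
  obtain ⟨c1, a1, -, a2⟩ := hTILT n w κ (by positivity)
  obtain ⟨c2, b1, -, b2⟩ := hTILT n (tl c1 w w') κ (by positivity)
  have a1' : 2 * c1 - c1 ^ 2 * ‖w‖ ^ 2 = q := by rw [a1, h.1, hq]; simp
  let G : E n → ℝ≥0∞ := fun a =>
    ENNReal.ofReal ((1 + κ * ‖⟪a, v⟫_ℂ‖ ^ 2) * (1 + κ * ‖⟪a, v'⟫_ℂ‖ ^ 2))
  have hG : Measurable G := Measurable.ennreal_ofReal (Continuous.measurable (by fun_prop))
  have e1 : ∀ a, ENNReal.ofReal (gk κ w v a) * ENNReal.ofReal (gk κ w' v' a) =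
      G a * ENNReal.ofReal (Real.exp (-(κ * ‖⟪a, w'⟫_ℂ‖ ^ 2))) *
        ENNReal.ofReal (Real.exp (-(κ * ‖⟪a, w⟫_ℂ‖ ^ 2))) := fun a => by
    rw [← ENNReal.ofReal_mul (gk_nonneg hκ _ _ _), ← ENNReal.ofReal_mul (by positivity),
      ← ENNReal.ofReal_mul (by positivity)]
    congr 1
    unfold gk
    ring
  simp_rw [e1]
  rw [a2 (fun a => G a * ENNReal.ofReal (Real.exp (-(κ * ‖⟪a, w'⟫_ℂ‖ ^ 2))))
    (hG.mul (Measurable.ennreal_ofReal (Continuous.measurable (by fun_prop))))]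
  simp_rw [inner_tl c1 w _ w']
  rw [b2 (fun a => G (tl c1 w a)) (hG.comp (continuous_tl _ _).measurable)]
  simp only [G, inner_tl, tl_of_orth c1 h.2.2]
  rw [(hWICK n).2 _ _ _ _ hκ hκ, ← ENNReal.ofReal_mul (by positivity),
    ← ENNReal.ofReal_mul (by positivity)]
  congr 1
  have ha : ‖⟪w, w'⟫_ℂ‖ ≤ 1 := (norm_inner_le_norm _ _).trans (by rw [h.1, h'.1]; simp)
  have ha2 : ‖⟪w, w'⟫_ℂ‖ ^ 2 ≤ 1 := pow_le_one₀ (norm_nonneg _) ha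
  have n1 : ‖tl c1 w w'‖ ^ 2 = 1 - q * ‖⟪w, w'⟫_ℂ‖ ^ 2 := by rw [TWO_nm, a1', h'.1]; simp
  have n2 : ‖tl c1 w v'‖ ^ 2 = 1 - q * ‖⟪w, v'⟫_ℂ‖ ^ 2 := by rw [TWO_nm, a1', h'.2.1]; simp
  have hτ : 0 < 1 - q ^ 2 * ‖⟪w, w'⟫_ℂ‖ ^ 2 := by nlinarith [sq_nonneg q]
  have n3 : 1 + κ * ‖tl c1 w w'‖ ^ 2 = (1 + κ) * (1 - q ^ 2 * ‖⟪w, w'⟫_ℂ‖ ^ 2) := by
    rw [n1]; linear_combination (-q * ‖⟪w, w'⟫_ℂ‖ ^ 2) * hκq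
  have b1' : 2 * c2 - c2 ^ 2 * ‖tl c1 w w'‖ ^ 2 = q / (1 - q ^ 2 * ‖⟪w, w'⟫_ℂ‖ ^ 2) := by
    rw [b1, n3, ← div_div, ← hq]
  have i1 : ⟪v, tl c1 w w'⟫_ℂ = ⟪v, w'⟫_ℂ := by rw [← inner_tl, tl_of_orth c1 h.2.2]
  have i2 : ⟪v, tl c1 w v'⟫_ℂ = ⟪v, v'⟫_ℂ := by rw [← inner_tl, tl_of_orth c1 h.2.2]
  have i3 : ⟪tl c1 w w', tl c1 w v'⟫_ℂ = -(q * (conj ⟪w, w'⟫_ℂ * ⟪w, v'⟫_ℂ)) := by
    rw [TWO_tl, a1', h'.2.2, inner_conj_symm, zero_sub]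
  have i4 : ‖⟪tl c1 w w', v⟫_ℂ‖ = ‖⟪v, w'⟫_ℂ‖ := by rw [norm_inner_symm, i1]
  rw [TWO_nm c2, TWO_nm c2, TWO_tl c2, b1', n3, n2, i1, i2, i3, i4, h.1, h.2.1]
  unfold Psi
  have hq' : ‖(q : ℂ)‖ = q := by rw [Complex.norm_real, Real.norm_of_nonneg hq0]
  simp only [norm_mul, norm_neg, hq', mul_pow, Complex.norm_conj]
  generalize ‖⟪w, w'⟫_ℂ‖ ^ 2 = a at *
  have e2 : (q : ℂ) * ⟪v, v'⟫_ℂ * ((1 - q ^ 2 * a : ℝ) : ℂ) +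
      q * ⟪v, w'⟫_ℂ * conj (q * ⟪w, w'⟫_ℂ) * (q * ⟪w, v'⟫_ℂ) = ((q * (1 - q ^ 2 * a) : ℝ) : ℂ) *
      (⟪v, v'⟫_ℂ - ((q / (1 - q ^ 2 * a) : ℝ) : ℂ) *
        (⟪v, w'⟫_ℂ * -(q * (conj ⟪w, w'⟫_ℂ * ⟪w, v'⟫_ℂ)))) := by
    have : (1 - (q : ℂ) ^ 2 * a) ≠ 0 := by exact_mod_cast hτ.ne'
    simp only [map_mul, Complex.conj_ofReal]
    push_cast
    field_simp
    ring
  rw [e2, norm_mul, mul_pow, Complex.norm_real, Real.norm_eq_abs, sq_abs]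
  generalize ‖⟪v, v'⟫_ℂ - _‖ ^ 2 = N
  generalize ‖⟪w, v'⟫_ℂ‖ ^ 2 = b
  generalize ‖⟪v, w'⟫_ℂ‖ ^ 2 = c
  have h1 : 1 - q ≠ 0 := by linarith
  have h2 : κ = q / (1 - q) := by field_simp; linarith
  have h3 : 1 + κ = 1 / (1 - q) := by rw [h2]; field_simp; ring
  have h4 : ∀ x, 1 + κ * (1 ^ 2 - x) = 1 / (1 - q) * (1 - q * x) := fun x => by
    rw [h2]; field_simp; ring
  have h5 : ∀ x y, 1 + κ * (1 - x - y) = 1 / (1 - q) * (1 - q * (x + y)) := fun x y => by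
    rw [h2]; field_simp; ring
  rw [h4, h5, one_pow, mul_one, h3, h2]
  field_simp
  ring

end Pool.Agent.P.MP_32bf8a_an.VZ
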