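import Pool.Agent.P.MP_32bf8a_an.VZ.Iface

/-! Step WICK. -/

set_option autoImplicit false

namespace Pool.Agent.P.MP_32bf8a_an.VZ

open MeasureTheory Set
open scoped ENNReal Real ComplexConjugate InnerProductSpace

theorem WICK_add {n : ℕ} {f g : E n → ℝ} (hf : Continuous f) (f0 : ∀ a, 0 ≤ f a)
    (g0 : ∀ a, 0 ≤ g a) :
    ∫⁻ a, ENNReal.ofReal (f a + g a) ∂gm n =
      ∫⁻ a, ENNReal.ofReal (f a) ∂gm n + ∫⁻ a, ENNReal.ofReal (g a) ∂gm n := by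
  rw [← lintegral_add_left hf.measurable.ennreal_ofReal]
  exact lintegral_congr fun a => ENNReal.ofReal_add (f0 a) (g0 a)

theorem WICK_mul {n : ℕ} {f : E n → ℝ} (hf : Continuous f) {c : ℝ} (hc : 0 ≤ c) :
    ∫⁻ a, ENNReal.ofReal (c * f a) ∂gm n =
      ENNReal.ofReal c * ∫⁻ a, ENNReal.ofReal (f a) ∂gm n := by
  rw [← lintegral_const_mul _ hf.measurable.ennreal_ofReal]
  exact lintegral_congr fun a => ENNReal.ofReal_mul hc

theorem WICK_sq (z : ℂ) : ‖z‖ ^ 2 = z.re ^ 2 + z.im ^ 2 := by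
  rw [Complex.sq_norm, Complex.normSq_apply]; ring

theorem WICK_sc (a b : ℂ) : ‖a + b‖ ^ 4 + (‖a + (-1) * b‖ ^ 4 + (‖a + Complex.I * b‖ ^ 4 +
    ‖a + (-Complex.I) * b‖ ^ 4)) = 4 * ‖a‖ ^ 4 + (4 * ‖b‖ ^ 4 + 16 * (‖a‖ ^ 2 * ‖b‖ ^ 2)) := by
  have e : ∀ z : ℂ, ‖z‖ ^ 4 = (z.re ^ 2 + z.im ^ 2) ^ 2 := fun z => by rw [← WICK_sq]; ring
  simp only [e, WICK_sq]
  simp
  ring

theorem WICK_vec {n : ℕ} (u v : E n) (z : ℂ) (hz : ‖z‖ = 1) :
    ‖u + z • v‖ ^ 4 = (‖u‖ ^ 2 + ‖v‖ ^ 2 + 2 * (z * ⟪u, v⟫_ℂ).re) ^ 2 := by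
  have := norm_add_sq (𝕜 := ℂ) u (z • v)
  rw [inner_smul_right, norm_smul, hz, one_mul] at this
  rw [show ‖u + z • v‖ ^ 4 = (‖u + z • v‖ ^ 2) ^ 2 by ring, this]
  simp only [RCLike.re_to_complex]
  ring

theorem WICK_two (hMOM : S_MOM) {n : ℕ} (u v : E n) :
    ∫⁻ a, ENNReal.ofReal (‖⟪a, u⟫_ℂ‖ ^ 2 * ‖⟪a, v⟫_ℂ‖ ^ 2) ∂gm n =
      ENNReal.ofReal (‖u‖ ^ 2 * ‖v‖ ^ 2 + ‖⟪u, v⟫_ℂ‖ ^ 2) := by
  have h : ∫⁻ a, ENNReal.ofReal (‖⟪a, u + (1 : ℂ) • v⟫_ℂ‖ ^ 4 + (‖⟪a, u + (-1 : ℂ) • v⟫_ℂ‖ ^ 4 +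
      (‖⟪a, u + Complex.I • v⟫_ℂ‖ ^ 4 + ‖⟪a, u + (-Complex.I) • v⟫_ℂ‖ ^ 4))) ∂gm n =
      ∫⁻ a, ENNReal.ofReal (4 * ‖⟪a, u⟫_ℂ‖ ^ 4 + (4 * ‖⟪a, v⟫_ℂ‖ ^ 4 +
        16 * (‖⟪a, u⟫_ℂ‖ ^ 2 * ‖⟪a, v⟫_ℂ‖ ^ 2))) ∂gm n := by
    refine lintegral_congr fun a => ?_
    rw [← WICK_sc]
    simp only [inner_add_right, inner_smul_right, one_mul]
  rw [WICK_add (by fun_prop) (fun _ => by positivity) (fun _ => by positivity),
    WICK_add (by fun_prop) (fun _ => by positivity) (fun _ => by positivity),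
    WICK_add (by fun_prop) (fun _ => by positivity) (fun _ => by positivity),
    WICK_add (by fun_prop) (fun _ => by positivity) (fun _ => by positivity),
    WICK_add (by fun_prop) (fun _ => by positivity) (fun _ => by positivity),
    WICK_mul (by fun_prop) (by norm_num), WICK_mul (by fun_prop) (by norm_num),
    WICK_mul (by fun_prop) (by norm_num),
    (hMOM n _).2.1, (hMOM n _).2.1, (hMOM n _).2.1, (hMOM n _).2.1, (hMOM n _).2.1,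
    (hMOM n _).2.1, ← ENNReal.ofReal_add (by positivity) (by positivity),
    ← ENNReal.ofReal_add (by positivity) (by positivity),
    ← ENNReal.ofReal_add (by positivity) (by positivity),
    WICK_vec u v _ (by simp), WICK_vec u v _ (by simp), WICK_vec u v _ (by simp),
    WICK_vec u v _ (by simp)] at h
  have h2 : 2 * (‖u‖ ^ 2 + ‖v‖ ^ 2 + 2 * ((1 : ℂ) * ⟪u, v⟫_ℂ).re) ^ 2 +
      (2 * (‖u‖ ^ 2 + ‖v‖ ^ 2 + 2 * ((-1 : ℂ) * ⟪u, v⟫_ℂ).re) ^ 2 +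
      (2 * (‖u‖ ^ 2 + ‖v‖ ^ 2 + 2 * (Complex.I * ⟪u, v⟫_ℂ).re) ^ 2 +
      2 * (‖u‖ ^ 2 + ‖v‖ ^ 2 + 2 * (-Complex.I * ⟪u, v⟫_ℂ).re) ^ 2)) =
      4 * (2 * ‖u‖ ^ 4) + (4 * (2 * ‖v‖ ^ 4) + 16 * (‖u‖ ^ 2 * ‖v‖ ^ 2 + ‖⟪u, v⟫_ℂ‖ ^ 2)) := by
    rw [WICK_sq ⟪u, v⟫_ℂ]
    simp
    ring
  rw [h2, ENNReal.ofReal_add (by positivity) (by positivity),
    ENNReal.ofReal_add (by positivity) (by positivity), ENNReal.ofReal_mul (by norm_num),
    ENNReal.ofReal_mul (p := 4) (by norm_num), ENNReal.ofReal_mul (p := 16) (by norm_num),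
    ENNReal.add_right_inj (ENNReal.mul_ne_top ENNReal.ofReal_ne_top ENNReal.ofReal_ne_top),
    ENNReal.add_right_inj (ENNReal.mul_ne_top ENNReal.ofReal_ne_top ENNReal.ofReal_ne_top),
    ENNReal.mul_right_inj (by simp) ENNReal.ofReal_ne_top] at h
  exact h.symm

theorem p_WICK (hMOM : S_MOM) :
    S_WICK := by
  intro n
  refine ⟨fun s hs => ?_, fun u v k l hk hl => ?_⟩
  · have h1 : ∫⁻ a, ENNReal.ofReal (‖a‖ ^ 2) ∂gm n = ENNReal.ofReal n := by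
      have e : ∀ a : E n, ENNReal.ofReal (‖a‖ ^ 2) =
          ∑ i, ENNReal.ofReal (‖⟪a, EuclideanSpace.single i (1 : ℂ)⟫_ℂ‖ ^ 2) := fun a => by
        rw [← ENNReal.ofReal_sum_of_nonneg fun _ _ => by positivity, EuclideanSpace.norm_sq_eq]
        simp [EuclideanSpace.inner_single_right]
      simp only [e]
      rw [lintegral_finsetSum _ fun i _ =>
        (Continuous.measurable (by fun_prop)).ennreal_ofReal]
      simp only [fun i => (hMOM n (EuclideanSpace.single i (1 : ℂ))).1]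
      simp
    have h2 := meas_ge_le_lintegral_div (μ := gm n) (f := fun a => ENNReal.ofReal (‖a‖ ^ 2))
      (Continuous.measurable (by fun_prop)).ennreal_ofReal.aemeasurable
      (ε := ENNReal.ofReal s) (by simpa using hs) ENNReal.ofReal_ne_top
    rw [h1, ← ENNReal.ofReal_div_of_pos hs] at h2
    exact (measure_mono fun a ha => ENNReal.ofReal_le_ofReal (le_of_lt ha)).trans h2
  · have e : ∀ a : E n, (1 + k * ‖⟪a, u⟫_ℂ‖ ^ 2) * (1 + l * ‖⟪a, v⟫_ℂ‖ ^ 2) =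
        1 + (k * ‖⟪a, u⟫_ℂ‖ ^ 2 + (l * ‖⟪a, v⟫_ℂ‖ ^ 2 +
          k * l * (‖⟪a, u⟫_ℂ‖ ^ 2 * ‖⟪a, v⟫_ℂ‖ ^ 2))) := fun a => by ring
    simp only [e]
    rw [WICK_add (by fun_prop) (fun _ => by positivity) (fun _ => by positivity),
      WICK_add (by fun_prop) (fun _ => by positivity) (fun _ => by positivity),
      WICK_add (by fun_prop) (fun _ => by positivity) (fun _ => by positivity),
      WICK_mul (by fun_prop) hk, WICK_mul (by fun_prop) hl,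
      WICK_mul (by fun_prop) (mul_nonneg hk hl), (hMOM n _).1, (hMOM n _).1, WICK_two hMOM,
      lintegral_const, measure_univ, mul_one, ← ENNReal.ofReal_mul hk, ← ENNReal.ofReal_mul hl,
      ← ENNReal.ofReal_mul (mul_nonneg hk hl),
      ← ENNReal.ofReal_add (by positivity) (by positivity),
      ← ENNReal.ofReal_add (by positivity) (by positivity),
      ← ENNReal.ofReal_add (by positivity) (by positivity)]
    congr 1
    ring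

end Pool.Agent.P.MP_32bf8a_an.VZ
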