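import Pool.Agent.P.MP_32bf8a_an.VZ.TANN
import Pool.Agent.P.MP_32bf8a_an.VZ.TCG
import Pool.Agent.P.MP_32bf8a_an.VZ.TDENS
import Pool.Agent.P.MP_32bf8a_an.VZ.TLIN
import Pool.Agent.P.MP_32bf8a_an.VZ.TSPL
import Pool.Agent.P.MP_32bf8a_an.VZ.TMOM
import Pool.Agent.P.MP_32bf8a_an.VZ.TWICK
import Pool.Agent.P.MP_32bf8a_an.VZ.TTILT
import Pool.Agent.P.MP_32bf8a_an.VZ.TANTI
import Pool.Agent.P.MP_32bf8a_an.VZ.TEXP
import Pool.Agent.P.MP_32bf8a_an.VZ.TPOL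
import Pool.Agent.P.MP_32bf8a_an.VZ.TANG
import Pool.Agent.P.MP_32bf8a_an.VZ.TDL
import Pool.Agent.P.MP_32bf8a_an.VZ.TDLV
import Pool.Agent.P.MP_32bf8a_an.VZ.TFR
import Pool.Agent.P.MP_32bf8a_an.VZ.TTWO
import Pool.Agent.P.MP_32bf8a_an.VZ.TROW
import Pool.Agent.P.MP_32bf8a_an.VZ.TGT
import Pool.Agent.P.MP_32bf8a_an.VZ.TPOI
import Pool.Agent.P.MP_32bf8a_an.VZ.TCUB
import Pool.Agent.P.MP_32bf8a_an.VZ.TPT
import Pool.Agent.P.MP_32bf8a_an.VZ.TRH0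
import Pool.Agent.P.MP_32bf8a_an.VZ.TPHA
import Pool.Agent.P.MP_32bf8a_an.VZ.TPHB
import Pool.Agent.P.MP_32bf8a_an.VZ.TRHO
import Pool.Agent.P.MP_32bf8a_an.VZ.TPOW
import Pool.Agent.P.MP_32bf8a_an.VZ.TSUB
import Pool.Agent.P.MP_32bf8a_an.VZ.TDIR
import Pool.Agent.P.MP_32bf8a_an.VZ.TAC
import Pool.Agent.P.MP_32bf8a_an.VZ.TSM
import Pool.Agent.P.MP_32bf8a_an.VZ.TFUB
import Pool.Agent.P.MP_32bf8a_an.VZ.TCL
import Pool.Agent.P.MP_32bf8a_an.VZ.TKER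
import Pool.Agent.P.MP_32bf8a_an.VZ.TBAD
import Pool.Agent.P.MP_32bf8a_an.VZ.TNEWT
import Pool.Agent.P.MP_32bf8a_an.VZ.TPZ
import Pool.Agent.P.MP_32bf8a_an.VZ.TSEC
import Pool.Agent.P.MP_32bf8a_an.VZ.TNUM
import Pool.Agent.P.MP_32bf8a_an.VZ.TMAIN
import Pool.Agent.P.MP_32bf8a_an.VZ.TC1
import Pool.Agent.P.MP_32bf8a_an.VZ.TC2
import Pool.Agent.P.MP_32bf8a_an.VZ.TMARG
import Pool.Agent.P.MP_32bf8a_an.VZ.TFIN

/-! The chain of all steps. -/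

set_option autoImplicit false

namespace Pool.Agent.P.MP_32bf8a_an.VZ

theorem main : S_FIN := by
  have hANN := p_ANN
  have hCG := p_CG
  have hDENS := p_DENS
  have hLIN := p_LIN hDENS
  have hSPL := p_SPL hLIN
  have hMOM := p_MOM hSPL hCG
  have hWICK := p_WICK hMOM
  have hTILT := p_TILT hLIN hMOM
  have hANTI := p_ANTI hSPL hANN
  have hEXP := p_EXP hTILT
  have hPOL := p_POL hDENS
  have hANG := p_ANG hDENS hPOL hEXP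
  have hDL := p_DL
  have hDLV := p_DLV
  have hFR := p_FR hDENS hANG hDLV
  have hTWO := p_TWO hTILT hWICK
  have hROW := p_ROW hTILT hWICK
  have hGT := p_GT hTWO hROW
  have hPOI := p_POI
  have hCUB := p_CUB hPOI
  have hPT := p_PT
  have hRH0 := p_RH0 hPOI hCUB hPT
  have hPHA := p_PHA hPOI
  have hPHB := p_PHB hPOI
  have hRHO := p_RHO hPT hRH0 hPHA hPHB
  have hPOW := p_POW hDL hRHO
  have hSUB := p_SUB hPOI
  have hDIR := p_DIR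
  have hAC := p_AC hDIR hSUB hROW hANTI
  have hSM := p_SM hROW hWICK
  have hFUB := p_FUB
  have hCL := p_CL
  have hKER := p_KER
  have hBAD := p_BAD hGT hAC hSM hFUB hCL hKER
  have hNEWT := p_NEWT
  have hPZ := p_PZ
  have hSEC := p_SEC hFR hPOW hGT hFUB
  have hNUM := p_NUM
  have hMAIN := p_MAIN hSEC hNUM hGT hFUB hCL hBAD hNEWT hPZ
  have hC1 := p_C1
  have hC2 := p_C2
  have hMARG := p_MARG
  have hFIN := p_FIN hMAIN hC1 hC2 hMARG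
  exact hFIN

end Pool.Agent.P.MP_32bf8a_an.VZ
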