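import Pool.Agent.P.MP_32bf8a_an.VZ.Iface

/-! Step ANN. -/

set_option autoImplicit false

namespace Pool.Agent.P.MP_32bf8a_an.VZ

open MeasureTheory Set
open scoped ENNReal Real ComplexConjugate InnerProductSpace

theorem ANN_le (S : Set ℂ) : cg S ≤ ENNReal.ofReal (1 / π) * volume S := by
  have h : cg ≤ volume.withDensity fun _ : ℂ => ENNReal.ofReal (1 / π) :=
    withDensity_mono (Filter.Eventually.of_forall fun z => ENNReal.ofReal_le_ofReal
      (div_le_div_of_nonneg_right (Real.exp_le_one_iff.2 (neg_nonpos.2 (sq_nonneg _)))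
        Real.pi_pos.le))
  have := h S
  rwa [withDensity_const, Measure.smul_apply, smul_eq_mul] at this

theorem ANN_vol (c : ℂ) {al be : ℝ} (h : al ≤ be) :
    volume {z : ℂ | al < ‖z + c‖ ^ 2 ∧ ‖z + c‖ ^ 2 < be} ≤ ENNReal.ofReal (π * (be - al)) := by
  have hs : {z : ℂ | al < ‖z + c‖ ^ 2 ∧ ‖z + c‖ ^ 2 < be} ⊆
      Metric.closedBall (-c) √be \ Metric.ball (-c) √al := by
    rintro z ⟨h1, h2⟩
    simp only [mem_sdiff, Metric.mem_closedBall, Metric.mem_ball, dist_eq_norm, sub_neg_eq_add,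
      not_lt]
    exact ⟨Real.le_sqrt_of_sq_le h2.le, Real.sqrt_le_iff.2 ⟨norm_nonneg _, h1.le⟩⟩
  refine (measure_mono hs).trans ?_
  have e : ∀ x : ℝ, ENNReal.ofReal √x ^ 2 * (NNReal.pi : ℝ≥0∞) = ENNReal.ofReal (π * √x ^ 2) :=
    fun x => by
      rw [ENNReal.ofReal_mul Real.pi_pos.le, ENNReal.ofReal_pow (Real.sqrt_nonneg _), mul_comm,
        ← NNReal.coe_real_pi, ENNReal.ofReal_coe_nnreal]
  rw [measure_sdiff (Metric.ball_subset_closedBall.trans
      (Metric.closedBall_subset_closedBall (Real.sqrt_le_sqrt h)))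
      Metric.isOpen_ball.measurableSet.nullMeasurableSet measure_ball_lt_top.ne,
    Complex.volume_closedBall, Complex.volume_ball, e, e,
    ← ENNReal.ofReal_sub _ (by positivity)]
  refine ENNReal.ofReal_le_ofReal ?_
  rw [← mul_sub]
  refine mul_le_mul_of_nonneg_left ?_ Real.pi_pos.le
  rw [Real.sq_sqrt', Real.sq_sqrt']
  rcases le_total be 0 with h1 | h1
  · rw [max_eq_right h1, max_eq_right (h.trans h1)]; linarith
  · rw [max_eq_left h1]; linarith [le_max_left al 0]

theorem p_ANN :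
    S_ANN := by
  intro c l s t hl
  have hl' : 0 < |l| := abs_pos.2 hl
  rcases le_or_gt t 0 with ht | ht
  · have : {z : ℂ | |l * ‖z + c‖ ^ 2 + s| < t} = ∅ :=
      eq_empty_of_forall_notMem fun z hz => absurd (lt_of_lt_of_le hz ht) (not_lt.2 (abs_nonneg _))
    rw [this, measure_empty]
    exact zero_le
  have hr : 0 < t / |l| := div_pos ht hl'
  have hs : {z : ℂ | |l * ‖z + c‖ ^ 2 + s| < t} ⊆
      {z : ℂ | -s / l - t / |l| < ‖z + c‖ ^ 2 ∧ ‖z + c‖ ^ 2 < -s / l + t / |l|} := by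
    intro z hz
    have e : l * ‖z + c‖ ^ 2 + s = l * (‖z + c‖ ^ 2 - -s / l) := by field_simp; ring
    have h1 : |‖z + c‖ ^ 2 - -s / l| < t / |l| := by
      rw [lt_div_iff₀ hl', mul_comm, ← abs_mul, ← e]; exact hz
    have := abs_lt.1 h1
    exact ⟨by linarith [this.1], by linarith [this.2]⟩
  refine (ANN_le _).trans ((mul_le_mul_right ((measure_mono hs).trans
    (ANN_vol c (by linarith))) _).trans (le_of_eq ?_))
  rw [← ENNReal.ofReal_mul (by positivity)]
  congr 1
  field_simp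
  ring

end Pool.Agent.P.MP_32bf8a_an.VZ
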