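import Pool.Agent.P.MP_32bf8a_an.VZ.Iface

/-! Step KER. -/

set_option autoImplicit false

namespace Pool.Agent.P.MP_32bf8a_an.VZ

open MeasureTheory Set
open scoped ENNReal Real ComplexConjugate InnerProductSpace

/-- the derivative as a real linear form -/
noncomputable def KER_H {n : ℕ} (x y a : E n) : (E n × E n) →ₗ[ℝ] ℝ where
  toFun p := HH x p.1 y p.2 a
  map_add' p q := by
    simp only [HH, Prod.fst_add, Prod.snd_add, inner_add_right, mul_add, Complex.add_re]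
    ring
  map_smul' c p := by
    simp only [HH, Prod.smul_fst, Prod.smul_snd, ← Complex.coe_smul, inner_smul_right,
      mul_left_comm _ (c : ℂ), Complex.re_ofReal_mul, RingHom.id_apply, smul_eq_mul]
    ring

theorem p_KER :
    S_KER := by
  intro n N U U' σ t x y A j ⟨V, hN, hV⟩ ht
  obtain ⟨p, pV, p1, p0⟩ : ∃ p ∈ V, ‖p‖ = 1 ∧ ∀ i, i ≠ j → KER_H x y (A i) p = 0 := by
    let F : V →ₗ[ℝ] ({i // i ≠ j} → ℝ) :=
      (LinearMap.pi fun i : {i // i ≠ j} => KER_H x y (A i)).domRestrict V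
    have h : LinearMap.ker F ≠ ⊥ := LinearMap.ker_ne_bot_of_finrank_lt (by
      rw [Module.finrank_fintype_fun_eq_card]
      refine lt_of_lt_of_le ?_ hN
      simpa using Fintype.card_subtype_lt (p := fun i => i ≠ j) (x := j) (by simp))
    obtain ⟨q, hq, q0⟩ := (Submodule.ne_bot_iff _).1 h
    have q1 : ‖q.1‖ ≠ 0 := norm_ne_zero_iff.2 fun e => q0 (Subtype.ext e)
    refine ⟨‖q.1‖⁻¹ • q.1, V.smul_mem _ q.2, by rw [norm_smul, norm_inv, norm_norm,
      inv_mul_cancel₀ q1], fun i hi => ?_⟩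
    have : KER_H x y (A i) q.1 = 0 := congrFun (LinearMap.mem_ker.1 hq) ⟨i, hi⟩
    rw [map_smul, this, smul_zero]
  refine ⟨p.1, p.2, le_trans (le_mul_of_one_le_right (sq_nonneg σ) ?_) (hV p pV).2.2,
    fun a ha => ?_⟩
  · rw [Prod.norm_def] at p1
    rcases max_choice ‖p.1‖ ‖p.2‖ with e | e <;> rw [e] at p1 <;> rw [p1] <;>
      nlinarith [sq_nonneg ‖p.1‖, sq_nonneg ‖p.2‖]
  · obtain ⟨c, hc⟩ : ∃ c, c = KER_H x y a p := ⟨_, rfl⟩
    have ha' : t ≤ |c| := hc ▸ ha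
    have c0 : c ≠ 0 := abs_pos.1 (ht.trans_le ha')
    have hq := hV _ (V.smul_mem c⁻¹ pV)
    have hn : ‖c⁻¹ • p‖ ≤ t⁻¹ := by
      rw [norm_smul, p1, mul_one, norm_inv, Real.norm_eq_abs]
      exact inv_anti₀ ht ha'
    refine ⟨_, hq.1, _, hq.2.1, (norm_fst_le _).trans hn, (norm_snd_le _).trans hn, fun i => ?_⟩
    change KER_H x y (Function.update A j a i) (c⁻¹ • p) = _
    rw [map_smul, smul_eq_mul]
    split_ifs with e
    · rw [e, Function.update_self, ← hc, inv_mul_cancel₀ c0]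
    · rw [Function.update_of_ne e, p0 i e, mul_zero]

end Pool.Agent.P.MP_32bf8a_an.VZ
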