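import Pool.Agent.P.MP_32bf8a_an.VZ.Iface

/-! Step POL. -/

set_option autoImplicit false

namespace Pool.Agent.P.MP_32bf8a_an.VZ

open MeasureTheory Set
open scoped ENNReal Real ComplexConjugate InnerProductSpace

theorem POL_polar {V : Type} [NormedAddCommGroup V] [NormedSpace ℝ V] [MeasurableSpace V]
    [BorelSpace V] [FiniteDimensional ℝ V] [Nontrivial V] (μ : Measure V) [μ.IsAddHaarMeasure]
    {F : V → ℝ≥0∞} (hF : Measurable F) :
    ∫⁻ a, F a ∂μ = ∫⁻ s : Metric.sphere (0 : V) 1, ∫⁻ r : Ioi (0 : ℝ), F ((r : ℝ) • (s : V))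
      ∂(Measure.volumeIoiPow (Module.finrank ℝ V - 1)) ∂μ.toSphere := by
  have hm : Measurable fun p : Metric.sphere (0 : V) 1 × Ioi (0 : ℝ) =>
      F ((p.2 : ℝ) • (p.1 : V)) := hF.comp (by fun_prop)
  rw [← lintegral_prod _ hm.aemeasurable,
    ← μ.measurePreserving_homeomorphUnitSphereProd.lintegral_comp hm,
    ← restrict_compl_singleton (μ := μ) (0 : V),
    ← lintegral_subtype_comap (measurableSet_singleton _).compl, restrict_compl_singleton]
  refine lintegral_congr fun a => ?_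
  have h : ‖a.1‖ ≠ 0 := norm_ne_zero_iff.2 a.2
  simp [smul_smul, h]

theorem POL_rad (n : ℕ) (hn : 1 ≤ n) {l : ℝ} (hl : 0 < l) :
    ∫⁻ r : Ioi (0 : ℝ), ENNReal.ofReal (Real.exp (-((r : ℝ) ^ 2 * l)))
      ∂(Measure.volumeIoiPow (2 * n - 1)) =
      ENNReal.ofReal ((1 / l) ^ n * (1 / 2 * Real.Gamma n)) := by
  have hq : (-1 : ℝ) < ((2 * n - 1 : ℕ) : ℝ) := lt_of_lt_of_le neg_one_lt_zero (Nat.cast_nonneg _)
  have h1 := integral_rpow_mul_exp_neg_mul_rpow (p := 2) two_pos hq hl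
  have h2 := integrableOn_rpow_mul_exp_neg_mul_sq hl hq
  have h3 : ((2 * n - 1 : ℕ) : ℝ) + 1 = 2 * n := by
    have : 2 * n - 1 + 1 = 2 * n := by omega
    exact_mod_cast this
  rw [h3, show -(2 * (n : ℝ)) / 2 = -(n : ℝ) by ring, show 2 * (n : ℝ) / 2 = n by ring,
    Real.rpow_neg hl.le] at h1
  simp only [Real.rpow_natCast, Real.rpow_two] at h1 h2
  rw [Measure.volumeIoiPow, lintegral_withDensity_eq_lintegral_mul _ (by fun_prop) (by fun_prop),
    one_div l, inv_pow, ← mul_assoc, ← h1, ofReal_integral_eq_lintegral_ofReal h2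
      ((ae_restrict_mem measurableSet_Ioi).mono fun x hx => by
        have : (0 : ℝ) < x := hx
        positivity), ← lintegral_subtype_comap measurableSet_Ioi]
  refine lintegral_congr fun r => ?_
  rw [Pi.mul_apply, ← ENNReal.ofReal_mul (pow_nonneg r.2.out.le _)]
  congr 3
  ring

theorem p_POL (hDENS : S_DENS) :
    S_POL := by
  intro n L hn hL h0 h2
  obtain ⟨μ, hμ, e⟩ := hDENS n
  have : Nonempty (Fin n) := ⟨⟨0, hn⟩⟩
  have hd : Module.finrank ℝ (E n) = 2 * n := by
    rw [finrank_real_of_complex, finrank_euclideanSpace_fin]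
  have hLm := hL.measurable
  rw [e, lintegral_withDensity_eq_lintegral_mul _ (by fun_prop) (by fun_prop),
    lintegral_withDensity_eq_lintegral_mul _ (by fun_prop) (by fun_prop),
    POL_polar μ (by fun_prop), POL_polar μ (by fun_prop), hd]
  refine lintegral_mono fun s => le_of_eq ?_
  have hs : ‖(s : E n)‖ = 1 := norm_eq_of_mem_sphere s
  have hl : 0 < L s := h0 _ (ne_zero_of_mem_unit_sphere s)
  have k1 : ∀ r : Ioi (0 : ℝ), ‖(r : ℝ) • (s : E n)‖ ^ 2 = (r : ℝ) ^ 2 := fun r => by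
    rw [norm_smul, hs, mul_one, Real.norm_eq_abs, sq_abs]
  calc _ = ∫⁻ r : Ioi (0 : ℝ), ENNReal.ofReal ((1 / L s) ^ n) *
        ENNReal.ofReal (Real.exp (-((r : ℝ) ^ 2 * 1))) ∂(Measure.volumeIoiPow (2 * n - 1)) := by
        refine lintegral_congr fun r => ?_
        have hr : (r : ℝ) ≠ 0 := ne_of_gt r.2
        rw [Pi.mul_apply, k1, h2, mul_one, mul_comm]
        congr 3
        field_simp
    _ = ENNReal.ofReal ((1 / L s) ^ n * (1 / 2 * Real.Gamma n)) := by
        rw [lintegral_const_mul _ (by fun_prop), POL_rad n hn one_pos,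
          ← ENNReal.ofReal_mul (by positivity)]
        simp
    _ = _ := by
        rw [← POL_rad n hn hl]
        refine lintegral_congr fun r => ?_
        rw [Pi.mul_apply, k1, h2, ← ENNReal.ofReal_mul (Real.exp_pos _).le, ← Real.exp_add]
        congr 2
        ring

end Pool.Agent.P.MP_32bf8a_an.VZ
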