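import Pool.Agent.P.MP_32bf8a_an.VZ.Iface

/-! Step RH0. -/

set_option autoImplicit false

namespace Pool.Agent.P.MP_32bf8a_an.VZ

open MeasureTheory Set
open scoped ENNReal Real ComplexConjugate InnerProductSpace

theorem RH0_le {F : ℝ × ℝ → ℝ} (hF : Continuous F) {g : ℝ → ℝ} (hg : Continuous g)
    (h : ∀ θ, ∫ φ, F (θ, φ) ∂um ≤ g θ) : ∫ p, F p ∂(um.prod um) ≤ ∫ θ, g θ ∂um := by
  rw [integral_prod _ (integrable_um2 hF)]
  exact integral_mono (integrable_um2 hF).integral_prod_left (integrable_um hg) h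

theorem RH0_le' {F : ℝ × ℝ → ℝ} (hF : Continuous F) {g : ℝ → ℝ} (hg : Continuous g)
    (h : ∀ φ, ∫ θ, F (θ, φ) ∂um ≤ g φ) : ∫ p, F p ∂(um.prod um) ≤ ∫ θ, g θ ∂um := by
  rw [integral_prod_symm _ (integrable_um2 hF)]
  exact integral_mono (integrable_um2 hF).integral_prod_right (integrable_um hg) h

theorem RH0_q (hPOI : S_POI) (z w : ℂ) (α β γ δ : ℝ) :
    ∫ θ, (α + β * (ex θ * z).re + γ * (ex θ * z).re ^ 2 + δ * (ex θ * w).re) ∂um =
      α + γ * (‖z‖ ^ 2 / 2) := by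
  rw [integral_add, integral_add, integral_add, integral_const_mul, integral_const_mul,
    integral_const_mul, (hPOI z).1, (hPOI z).2.1, (hPOI w).1]
  · simp
  all_goals exact integrable_um (by fun_prop)

theorem RH0_half (hCUB : S_CUB) {w : ℂ} {A : ℝ} (h0 : 0 < A) (h1 : A ≤ 1)
    (hw : ‖w‖ ≤ (1 - A) / 2) {τ : ℝ → ℝ} (h : ∀ θ, τ θ = (1 + A) / 2 - (ex θ * w).re) :
    ∫ θ, A ^ 2 / τ θ ^ 3 ∂um ≤ 1 / 2 * phi A := by
  have h2 := hCUB w A h0 h1 hw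
  have e : ∀ θ, A ^ 2 / τ θ ^ 3 = 1 / 2 * (2 * A ^ 2 / ((1 + A) / 2 - (ex θ * w).re) ^ 3) :=
    fun θ => by rw [h]; ring
  simp_rw [e]
  rw [integral_const_mul]
  linarith

theorem RH0_phi {A : ℝ → ℝ} (hA : Continuous A) (h : ∀ θ, 0 < A θ) :
    Continuous fun θ => 1 / 2 * phi (A θ) := by
  unfold phi
  refine continuous_const.mul (Continuous.div (by fun_prop) (by fun_prop) fun θ => ?_)
  have := Real.sqrt_pos.2 (h θ)
  positivity

theorem p_RH0 (hPOI : S_POI) (hCUB : S_CUB) (hPT : S_PT) :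
    S_RH0 := by
  intro a b c d hD hX
  obtain ⟨y, hy⟩ : ∃ y, y = XX a b c d / 2 := ⟨_, rfl⟩
  obtain ⟨z, hz⟩ : ∃ z, z = a * conj c + b * conj d := ⟨_, rfl⟩
  obtain ⟨z', hz'⟩ : ∃ z, z = conj a * b + conj c * d := ⟨_, rfl⟩
  obtain ⟨A, hA⟩ : ∃ A : ℝ → ℝ, A = fun θ => 1 - y - (ex θ * z).re := ⟨_, rfl⟩
  obtain ⟨B, hB⟩ : ∃ B : ℝ → ℝ, B = fun θ => 1 - y - (ex θ * z').re := ⟨_, rfl⟩
  obtain ⟨τ, hτ⟩ : ∃ τ : ℝ × ℝ → ℝ, τ = fun p => 1 - ‖tt a b c d (ex p.1) (ex p.2)‖ ^ 2 :=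
    ⟨_, rfl⟩
  have H := fun θ φ => (hPT a b c d (ex θ) (ex φ) (norm_ex _) (norm_ex _) hD hX y (A θ) (B φ)
    (τ (θ, φ)) z z' hy hz hz' (by rw [hA]) (by rw [hB]) (by rw [hτ])).2.2.2.2
  rw [← hy, ← hz, ← hz']
  generalize Dl 1 a b c d = D at H ⊢
  have cA : Continuous A := by rw [hA]; fun_prop
  have cB : Continuous B := by rw [hB]; fun_prop
  have cτ : Continuous τ := by rw [hτ]; unfold tt; fun_prop
  have h0 : ∀ p, τ p ^ 3 ≠ 0 := fun p => (pow_pos (H p.1 p.2).2.2.2.2.1 3).ne'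
  have cP : Continuous fun p : ℝ × ℝ => Ps a b c d (ex p.1) (ex p.2) := by
    unfold Ps Psi
    refine Continuous.div ?_ ?_ fun p => by simpa only [hτ] using h0 p
    all_goals unfold tt; fun_prop
  have c1 : Continuous fun p : ℝ × ℝ => A p.1 ^ 2 / τ p ^ 3 :=
    Continuous.div (by fun_prop) (by fun_prop) h0
  have c2 : Continuous fun p : ℝ × ℝ => B p.2 ^ 2 / τ p ^ 3 :=
    Continuous.div (by fun_prop) (by fun_prop) h0
  have c3 : Continuous fun p : ℝ × ℝ =>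
      -(A p.1 - B p.2) ^ 2 - D * (1 + (2 + 3 * y) * (1 - τ p) - 3 / 4 * y ^ 2) := by fun_prop
  have i1 := RH0_le c1 (RH0_phi cA fun θ => (H θ 0).1) fun θ =>
    RH0_half hCUB (H θ 0).1 (H θ 0).2.1 (H θ 0).2.2.2.2.2.2.2.2.1
      (τ := fun φ => τ (θ, φ)) fun φ => (H θ φ).2.2.2.2.2.2.2.1
  have i2 := RH0_le' c2 (RH0_phi cB fun φ => (H 0 φ).2.2.1) fun φ =>
    RH0_half hCUB (H 0 φ).2.2.1 (H 0 φ).2.2.2.1 (H 0 φ).2.2.2.2.2.2.1
      (τ := fun θ => τ (θ, φ)) fun θ => (H θ φ).2.2.2.2.2.1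
  have i3 := RH0_le c3 (g := fun θ => (-(‖z'‖ ^ 2 / 2) - D * (1 + y + 3 / 4 * y ^ 2)) +
      (-(D * (2 + 3 * y) / 2)) * (ex θ * z).re + (-1) * (ex θ * z).re ^ 2 + 0 * (ex θ * z).re)
      (by fun_prop) fun θ => by
    have e := RH0_q hPOI z' ((b + conj (ex θ) * d) * conj (a + conj (ex θ) * c) / 2)
      (-(ex θ * z).re ^ 2 - D * (1 + (2 + 3 * y) * ((y + (ex θ * z).re) / 2) - 3 / 4 * y ^ 2))
      (2 * (ex θ * z).re) (-1) (-(D * (2 + 3 * y)))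
    refine le_of_eq (Eq.trans (integral_congr_ae (.of_forall fun φ => ?_)) (e.trans (by ring)))
    simp only
    rw [(H θ φ).2.2.2.2.2.2.2.1]
    simp only [hA, hB]
    ring
  rw [RH0_q hPOI, integral_const_mul] at *
  have j := integral_mono (integrable_um2 cP) (integrable_um2 ((c1.add c2).add c3)) fun p => by
    have := (H p.1 p.2).2.2.2.2.2.2.2.2.2
    simp only [Pi.add_apply] at this ⊢
    linarith
  simp only [Pi.add_apply] at j
  rw [integral_add (integrable_um2 (c1.fun_add c2)) (integrable_um2 c3),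
    integral_add (integrable_um2 c1) (integrable_um2 c2), integral_prod _ (integrable_um2 cP)] at j
  simp only [hA, hB] at i1 i2 i3 j
  unfold rho BB
  linarith

end Pool.Agent.P.MP_32bf8a_an.VZ
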